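import Pool.Agent.Q225.Smo.Third
import Pool.Agent.Q225.Sim.Low

set_option autoImplicit false

/-!
# The third derivative of a function given by a network has small rank
-/

namespace Pool.Agent.Q225.Smo

open Filter Topology Pool.Agent.Q225.Add

theorem rank_of_fintype {K I J M : Type} [Field K] {R : Type} [Fintype R] {r : ℕ}
    (hr : Fintype.card R = r) {f : I → J → M → K} (x : R → I → K) (y : R → J → K)
    (z : R → M → K) (h : ∀ i j l, f i j l = ∑ t, x t i * y t j * z t l) : TensorRankLE f r := by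
  classical
  let e : Fin r ≃ R := (Fintype.equivFinOfCardEq hr).symm
  refine ⟨fun t => x (e t), fun t => y (e t), fun t => z (e t), fun i j l => ?_⟩
  rw [h]
  exact (Equiv.sum_comp e fun t => x t i * y t j * z t l).symm

variable {V : Type} [NormedAddCommGroup V] [NormedSpace ℝ V] {k L : ℕ}

theorem clm_sum {k : ℕ} (φ : (Fin k → ℝ) →L[ℝ] ℝ) (z : Fin k → ℝ) :
    φ z = ∑ p, z p * φ (Pi.single p 1) := by
  conv_lhs => rw [pi_eq_sum_univ' z]
  rw [map_sum]
  refine Finset.sum_congr rfl fun p _ => ?_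
  rw [map_smul, smul_eq_mul]

theorem clm_sum2 {k : ℕ} (φ : (Fin k → ℝ) →L[ℝ] (Fin k → ℝ) →L[ℝ] ℝ) (z y : Fin k → ℝ) :
    φ z y = ∑ p, z p * φ (Pi.single p 1) y := by
  have := clm_sum ((ContinuousLinearMap.apply ℝ ℝ y).comp φ) z
  simpa using this

theorem clm_sum3 {k : ℕ} (φ : (Fin k → ℝ) →L[ℝ] (Fin k → ℝ) →L[ℝ] (Fin k → ℝ) →L[ℝ] ℝ)
    (z y t : Fin k → ℝ) :
    φ z y t = ∑ p, ∑ r, z p * y r * φ (Pi.single p 1) (Pi.single r 1) t := by
  have h1 := clm_sum ((ContinuousLinearMap.apply ℝ ℝ t).comp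
    ((ContinuousLinearMap.apply ℝ _ y).comp φ)) z
  simp only [ContinuousLinearMap.comp_apply, ContinuousLinearMap.apply_apply] at h1
  rw [h1]
  refine Finset.sum_congr rfl fun p _ => ?_
  rw [clm_sum2 (φ (Pi.single p 1)) y t, Finset.mul_sum]
  exact Finset.sum_congr rfl fun r _ => by ring

/-- **The third derivative of a function given by `L` gates of `k` arguments has rank at most
`L (3 k + k ^ 2)`.** -/
theorem third_rank {f : V → ℝ} {x : V} (hf : Computed k L f x) {I J M : Type} (a : I → V)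
    (b : J → V) (d : M → V) :
    ContDiffAt ℝ 3 f x ∧
    TensorRankLE (fun i j l => D3 f x (a i) (b j) (d l)) (L * (3 * k + k * k)) := by
  obtain ⟨g, u, hu, hg, h, hh, hfh⟩ := hf
  obtain ⟨hC, ℓ, c, hform⟩ := third_formula hu hg hh hfh
  refine ⟨hC, ?_⟩
  refine rank_of_fintype (R := Fin L × (Fin k ⊕ Fin k ⊕ Fin k ⊕ Fin k × Fin k)) ?_
    (fun t i => Sum.elim (fun _ => ℓ t.1 (a i)) (Sum.elim (fun p => U u x t.1 (a i) p)
      (Sum.elim (fun p => U u x t.1 (a i) p) fun p => U u x t.1 (a i) p.1)) t.2)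
    (fun t j => Sum.elim (fun p => U u x t.1 (b j) p) (Sum.elim (fun _ => ℓ t.1 (b j))
      (Sum.elim (fun p => fderiv ℝ (fderiv ℝ (g t.1)) (u t.1 x) (Pi.single p 1) (U u x t.1 (b j)))
        fun p => c t.1 * U u x t.1 (b j) p.2)) t.2)
    (fun t l => Sum.elim
      (fun p => fderiv ℝ (fderiv ℝ (g t.1)) (u t.1 x) (Pi.single p 1) (U u x t.1 (d l)))
      (Sum.elim
        (fun p => fderiv ℝ (fderiv ℝ (g t.1)) (u t.1 x) (Pi.single p 1) (U u x t.1 (d l)))
      (Sum.elim (fun _ => ℓ t.1 (d l)) fun p => D3 (g t.1) (u t.1 x) (Pi.single p.1 1)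
        (Pi.single p.2 1) (U u x t.1 (d l)))) t.2) ?_
  · simp only [Fintype.card_prod, Fintype.card_sum, Fintype.card_fin]
    ring
  intro i j l
  rw [hform, Fintype.sum_prod_type]
  refine Finset.sum_congr rfl fun t _ => ?_
  simp only [Fintype.sum_sum_type, Fintype.sum_prod_type, Sum.elim_inl, Sum.elim_inr]
  rw [clm_sum2 _ (U u x t (b j)) (U u x t (d l)), clm_sum2 _ (U u x t (a i)) (U u x t (d l)),
    clm_sum2 _ (U u x t (a i)) (U u x t (b j)), clm_sum3 (D3 (g t) (u t x)), Finset.mul_sum,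
    Finset.mul_sum, Finset.mul_sum, Finset.mul_sum, add_assoc, add_assoc]
  congr 1
  · exact Finset.sum_congr rfl fun p _ => by ring
  congr 1
  · exact Finset.sum_congr rfl fun p _ => by ring
  congr 1
  · exact Finset.sum_congr rfl fun p _ => by ring
  · refine Finset.sum_congr rfl fun p _ => ?_
    rw [Finset.mul_sum]
    exact Finset.sum_congr rfl fun r _ => by ring

end Pool.Agent.Q225.Smo
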