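import Mathlib

set_option autoImplicit false

/-!
# The third derivative of a composition along a curve
-/

namespace Pool.Agent.Q225.Smo

open Filter Topology

variable {E : Type*} [NormedAddCommGroup E] [NormedSpace ℝ E]

theorem evC {E F : Type*} [NormedAddCommGroup E] [NormedSpace ℝ E] [NormedAddCommGroup F]
    [NormedSpace ℝ F] {g : E → F} {x : E} {n : ℕ} (h : ContDiffAt ℝ n g x) :
    ∀ᶠ y in 𝓝 x, ContDiffAt ℝ n g y :=
  h.eventually (by simp)

theorem derivC {c : ℝ → E} {t : ℝ} {n m : ℕ} (hnm : m + 1 ≤ n) (hc : ContDiffAt ℝ n c t) :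
    ContDiffAt ℝ m (deriv c) t := by
  have h := hc.fderiv_right (m := m) (by exact_mod_cast hnm)
  have h' := h.clm_apply (contDiffAt_const (c := (1 : ℝ)))
  simpa [fderiv_apply_one_eq_deriv] using h'

theorem c1 {g : E → ℝ} {c : ℝ → E} {t : ℝ} (hg : ContDiffAt ℝ 1 g (c t))
    (hc : ContDiffAt ℝ 1 c t) :
    HasDerivAt (fun s => g (c s)) (fderiv ℝ g (c t) (deriv c t)) t :=
  (hg.differentiableAt (by norm_num)).hasFDerivAt.comp_hasDerivAt t
    (hc.differentiableAt (by norm_num)).hasDerivAt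

theorem c2 {g : E → ℝ} {c : ℝ → E} {t : ℝ} (hg : ContDiffAt ℝ 2 g (c t))
    (hc : ContDiffAt ℝ 2 c t) :
    HasDerivAt (fun s => fderiv ℝ g (c s) (deriv c s))
      (fderiv ℝ (fderiv ℝ g) (c t) (deriv c t) (deriv c t) +
        fderiv ℝ g (c t) (deriv (deriv c) t)) t := by
  have h1 : DifferentiableAt ℝ (fderiv ℝ g) (c t) :=
    (hg.fderiv_right (m := 1) (by norm_num)).differentiableAt (by norm_num)
  have h2 : HasDerivAt (fun s => fderiv ℝ g (c s)) (fderiv ℝ (fderiv ℝ g) (c t) (deriv c t)) t :=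
    h1.hasFDerivAt.comp_hasDerivAt t (hc.differentiableAt (by norm_num)).hasDerivAt
  have h3 : DifferentiableAt ℝ (deriv c) t :=
    (derivC (n := 2) (m := 1) (by norm_num) hc).differentiableAt (by norm_num)
  exact h2.clm_apply h3.hasDerivAt

theorem c3 {g : E → ℝ} {c : ℝ → E} {t : ℝ} (hg : ContDiffAt ℝ 3 g (c t))
    (hc : ContDiffAt ℝ 3 c t) :
    HasDerivAt (fun s => fderiv ℝ (fderiv ℝ g) (c s) (deriv c s) (deriv c s) +
        fderiv ℝ g (c s) (deriv (deriv c) s))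
      (((fderiv ℝ (fderiv ℝ (fderiv ℝ g)) (c t) (deriv c t) (deriv c t) +
        fderiv ℝ (fderiv ℝ g) (c t) (deriv (deriv c) t)) (deriv c t) +
        fderiv ℝ (fderiv ℝ g) (c t) (deriv c t) (deriv (deriv c) t)) +
        (fderiv ℝ (fderiv ℝ g) (c t) (deriv c t) (deriv (deriv c) t) +
        fderiv ℝ g (c t) (deriv (deriv (deriv c)) t))) t := by
  have g2 : ContDiffAt ℝ 2 (fderiv ℝ g) (c t) := hg.fderiv_right (m := 2) (by norm_num)
  have g1 : ContDiffAt ℝ 1 (fderiv ℝ (fderiv ℝ g)) (c t) := g2.fderiv_right (m := 1) (by norm_num)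
  have hc1 := (hc.differentiableAt (by norm_num)).hasDerivAt
  have hc2 := ((derivC (n := 3) (m := 1) (by norm_num) hc).differentiableAt
    (by norm_num)).hasDerivAt
  have hc3 := ((derivC (n := 2) (m := 1) (by norm_num)
    (derivC (n := 3) (m := 2) (by norm_num) hc)).differentiableAt (by norm_num)).hasDerivAt
  have h1 : HasDerivAt (fun s => fderiv ℝ g (c s)) (fderiv ℝ (fderiv ℝ g) (c t) (deriv c t)) t :=
    (g2.differentiableAt (by norm_num)).hasFDerivAt.comp_hasDerivAt t hc1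
  have h2 : HasDerivAt (fun s => fderiv ℝ (fderiv ℝ g) (c s))
      (fderiv ℝ (fderiv ℝ (fderiv ℝ g)) (c t) (deriv c t)) t :=
    (g1.differentiableAt (by norm_num)).hasFDerivAt.comp_hasDerivAt t hc1
  exact ((h2.clm_apply hc2).clm_apply hc2).add (h1.clm_apply hc3)

/-- the first three derivatives of `g ∘ c` -/
theorem comp3 {g : E → ℝ} {c : ℝ → E} {t : ℝ} (hg : ContDiffAt ℝ 3 g (c t))
    (hc : ContDiffAt ℝ 3 c t) :
    deriv (fun s => g (c s)) t = fderiv ℝ g (c t) (deriv c t) ∧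
    deriv (deriv (fun s => g (c s))) t =
      fderiv ℝ (fderiv ℝ g) (c t) (deriv c t) (deriv c t) +
        fderiv ℝ g (c t) (deriv (deriv c) t) ∧
    deriv (deriv (deriv (fun s => g (c s)))) t =
      ((fderiv ℝ (fderiv ℝ (fderiv ℝ g)) (c t) (deriv c t) (deriv c t) +
        fderiv ℝ (fderiv ℝ g) (c t) (deriv (deriv c) t)) (deriv c t) +
        fderiv ℝ (fderiv ℝ g) (c t) (deriv c t) (deriv (deriv c) t)) +
        (fderiv ℝ (fderiv ℝ g) (c t) (deriv c t) (deriv (deriv c) t) +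
        fderiv ℝ g (c t) (deriv (deriv (deriv c)) t)) := by
  have e1 : ∀ᶠ s in 𝓝 t, ContDiffAt ℝ 3 c s := evC (n := 3) hc
  have e2 : ∀ᶠ s in 𝓝 t, ContDiffAt ℝ 3 g (c s) := hc.continuousAt.eventually (evC (n := 3) hg)
  have d1 : ∀ᶠ s in 𝓝 t, deriv (fun s => g (c s)) s = fderiv ℝ g (c s) (deriv c s) := by
    filter_upwards [e1, e2] with s h1 h2
    exact (c1 (h2.of_le (by norm_num)) (h1.of_le (by norm_num))).deriv
  have d2 : ∀ᶠ s in 𝓝 t, deriv (deriv (fun s => g (c s))) s =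
      fderiv ℝ (fderiv ℝ g) (c s) (deriv c s) (deriv c s) +
        fderiv ℝ g (c s) (deriv (deriv c) s) := by
    filter_upwards [e1, e2, d1.eventually_nhds] with s h1 h2 h3
    rw [Filter.EventuallyEq.deriv_eq h3]
    exact (c2 (h2.of_le (by norm_num)) (h1.of_le (by norm_num))).deriv
  refine ⟨d1.self_of_nhds, d2.self_of_nhds, ?_⟩
  rw [Filter.EventuallyEq.deriv_eq d2]
  exact (c3 hg hc).deriv

end Pool.Agent.Q225.Smo
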