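import Mathlib

set_option autoImplicit false

/-!
# Networks of smooth functions of a bounded number of variables
-/

namespace Pool.Agent.Q225.Smo

open Topology

/-- The functions of the form `y ↦ c + ℓ y` with a constant `c` and a linear functional `ℓ`. -/
def Aff (V : Type) [NormedAddCommGroup V] [NormedSpace ℝ V] : Submodule ℝ (V → ℝ) where
  carrier := {h | ∃ (c : ℝ) (ℓ : V →L[ℝ] ℝ), h = fun y => c + ℓ y}
  add_mem' := by
    rintro _ _ ⟨c, ℓ, rfl⟩ ⟨c', ℓ', rfl⟩
    exact ⟨c + c', ℓ + ℓ', by ext y; simp; ring⟩
  zero_mem' := ⟨0, 0, by ext y; simp⟩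
  smul_mem' := by
    rintro r _ ⟨c, ℓ, rfl⟩
    exact ⟨r * c, r • ℓ, by ext y; simp; ring⟩

variable {V : Type} [NormedAddCommGroup V] [NormedSpace ℝ V]

/-- What is available for free from the results of the gates in `s`, where the gate `i` applies the
function `g i` of `k` variables to the functions `u i · p`, `p < k`, of the input: all linear
combinations of results of gates in `s`, linear functionals of the input and constants. -/
def Avail {k L : ℕ} (g : Fin L → (Fin k → ℝ) → ℝ) (u : Fin L → V → Fin k → ℝ) (s : Set (Fin L)) :
    Submodule ℝ (V → ℝ) :=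
  Aff V ⊔ Submodule.span ℝ {h | ∃ i ∈ s, h = fun y => g i (u i y)}

/-- Near the input `x` the function `f` is computed by a network of `L` gates, each of which applies
a function of `k` variables, three times continuously differentiable at the values which occur at
`x`, to linear combinations of earlier results, linear functionals of the input and constants. -/
def Computed (k L : ℕ) (f : V → ℝ) (x : V) : Prop :=
  ∃ (g : Fin L → (Fin k → ℝ) → ℝ) (u : Fin L → V → Fin k → ℝ),
    (∀ j p, (fun y => u j y p) ∈ Avail g u {i | i < j}) ∧
    (∀ j, ContDiffAt ℝ 3 (g j) (u j x)) ∧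
    ∃ h ∈ Avail g u Set.univ, ∀ᶠ y in 𝓝 x, f y = h y

end Pool.Agent.Q225.Smo
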