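import Pool.Agent.Q225.Smo.Gen

set_option autoImplicit false

/-!
# Functions which are constant on spheres
-/

namespace Pool.Agent.Q225.Smo

open Filter Topology

variable {V : Type} [NormedAddCommGroup V] [NormedSpace ℝ V]

theorem const_on_spheres {Ω : Set V} (hΩ : IsOpen Ω) {f : V → ℝ}
    (hd : ∀ X ∈ Ω, DifferentiableAt ℝ f X) (B : V →L[ℝ] V →L[ℝ] ℝ)
    (hsymm : ∀ X Y, B X Y = B Y X) (hpos : ∀ X, X ≠ 0 → 0 < B X X) (E : V) (p : V →L[ℝ] ℝ)
    (hp : ∀ X, B E (X - p X • E) = 0)
    (hE : ∀ X ∈ Ω, ∀ H, B E H = 0 → B X H = 0 → fderiv ℝ f X H = 0) {X₀ : V} (hX₀ : X₀ ∈ Ω)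
    (hY₀ : X₀ - p X₀ • E ≠ 0) :
    ∀ᶠ X in 𝓝 X₀, f X = f (p X • E + Real.sqrt (B (X - p X • E) (X - p X • E) /
      B (X₀ - p X₀ • E) (X₀ - p X₀ • E)) • (X₀ - p X₀ • E)) := by
  set Y₀ : V := X₀ - p X₀ • E with hY₀d
  set Y : V → V := fun X => X - p X • E with hY
  have hYc : Continuous Y := by
    simp only [hY]
    fun_prop
  have hY0 : Y X₀ = Y₀ := rfl
  set N : ℝ := B Y₀ Y₀ with hN
  have hNpos : 0 < N := hpos _ hY₀
  set r : V → ℝ := fun X => Real.sqrt (B (Y X) (Y X) / N) with hr
  have hq : Continuous fun X => B (Y X) (Y X) := by fun_prop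
  have hrc : Continuous r := by
    simp only [hr]
    fun_prop
  have hr0 : r X₀ = 1 := by
    simp only [hr, hY0, ← hN]
    rw [div_self hNpos.ne', Real.sqrt_one]
  -- the path
  let c : V → ℝ → V := fun X t => (1 - t) • (r X • Y₀) + t • Y X
  let γ : V → ℝ → V := fun X t =>
    p X • E + (Real.sqrt (B (Y X) (Y X)) / Real.sqrt (B (c X t) (c X t))) • c X t
  have hcc : Continuous fun z : V × ℝ => c z.1 z.2 := by
    have h1 : Continuous fun z : V × ℝ => Y z.1 := hYc.comp continuous_fst
    have h2 : Continuous fun z : V × ℝ => r z.1 := hrc.comp continuous_fst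
    simp only [c]
    fun_prop
  have hc0 : ∀ t, c X₀ t = Y₀ := by
    intro t
    simp only [c, hr0, hY0]
    module
  have hBc : Continuous fun z : V × ℝ => B (c z.1 z.2) (c z.1 z.2) := by fun_prop
  -- good points
  have hgood : ∀ᶠ X in 𝓝 X₀, ∀ t ∈ Set.Icc (0 : ℝ) 1, 0 < B (c X t) (c X t) ∧ γ X t ∈ Ω := by
    refine isCompact_Icc.eventually_forall_of_forall_eventually fun t _ => ?_
    have h1 : ∀ᶠ z in 𝓝 (X₀, t), 0 < B (c z.1 z.2) (c z.1 z.2) := by
      refine hBc.continuousAt.eventually (eventually_gt_nhds ?_)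
      show 0 < B (c X₀ t) (c X₀ t)
      rw [hc0]; exact hNpos
    have h2 : ContinuousAt (fun z : V × ℝ => γ z.1 z.2) (X₀, t) := by
      have h3 : ContinuousAt (fun z : V × ℝ => Real.sqrt (B (Y z.1) (Y z.1)) /
          Real.sqrt (B (c z.1 z.2) (c z.1 z.2))) (X₀, t) := by
        refine ContinuousAt.div ?_ ?_ ?_
        · exact (Real.continuous_sqrt.comp (hq.comp continuous_fst)).continuousAt
        · exact (Real.continuous_sqrt.comp hBc).continuousAt
        · show Real.sqrt (B (c X₀ t) (c X₀ t)) ≠ 0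
          rw [hc0]
          exact (Real.sqrt_pos.2 hNpos).ne'
      exact ((p.continuous.comp continuous_fst).smul continuous_const).continuousAt.add
        (h3.smul hcc.continuousAt)
    have h4 : γ X₀ t = X₀ := by
      simp only [γ, hc0, hY0, ← hN]
      rw [div_self (Real.sqrt_pos.2 hNpos).ne', one_smul, hY₀d]
      abel
    have h5 : ∀ᶠ z in 𝓝 (X₀, t), γ z.1 z.2 ∈ Ω :=
      h2.eventually (by
        show ∀ᶠ y in 𝓝 (γ X₀ t), y ∈ Ω
        rw [h4]
        exact hΩ.mem_nhds hX₀)
    exact h1.and h5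
  have hpos' : ∀ᶠ X in 𝓝 X₀, 0 < B (Y X) (Y X) :=
    hq.continuousAt.eventually (eventually_gt_nhds hNpos)
  filter_upwards [hgood, hpos'] with X hX hXp
  -- the endpoints
  have hrX : 0 < r X := Real.sqrt_pos.2 (div_pos hXp hNpos)
  have e0 : γ X 0 = p X • E + r X • Y₀ := by
    have h1 : c X 0 = r X • Y₀ := by simp [c]
    have h2 : B (r X • Y₀) (r X • Y₀) = B (Y X) (Y X) := by
      simp only [map_smul, smul_apply, smul_eq_mul, ← hN]
      have : r X * r X = B (Y X) (Y X) / N := Real.mul_self_sqrt (div_pos hXp hNpos).le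
      rw [← mul_assoc, this]
      field_simp
    simp only [γ, h1, h2]
    rw [div_self (Real.sqrt_pos.2 hXp).ne', one_smul]
  have e1 : γ X 1 = X := by
    have h1 : c X 1 = Y X := by simp [c]
    simp only [γ, h1]
    rw [div_self (Real.sqrt_pos.2 hXp).ne', one_smul]
    simp [hY]
  -- orthogonality to `E`
  have hYE : ∀ X, B E (Y X) = 0 := hp
  have hY₀E : B E Y₀ = 0 := hp X₀
  have hcE : ∀ t, B E (c X t) = 0 := by
    intro t
    simp only [c, map_add, map_smul, hYE, hY₀E, smul_zero, add_zero]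
  -- the derivative
  have hder : ∀ t ∈ Set.Icc (0 : ℝ) 1, HasDerivAt (fun t => f (γ X t)) 0 t := by
    intro t ht
    have h1 : HasDerivAt (c X) (-(r X • Y₀) + Y X) t := by
      have h := (((hasDerivAt_id t).const_sub 1).smul_const (r X • Y₀)).add
        ((hasDerivAt_id t).smul_const (Y X))
      exact h.congr_deriv (by simp)
    set c' := -(r X • Y₀) + Y X
    have h2 : HasDerivAt (fun t => B (c X t) (c X t)) (B c' (c X t) + B (c X t) c') t :=
      ((B.hasFDerivAt.comp_hasDerivAt t h1).clm_apply h1)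
    have hpos1 := (hX t ht).1
    have h3 : HasDerivAt (fun t => Real.sqrt (B (c X t) (c X t)))
        ((B c' (c X t) + B (c X t) c') / (2 * Real.sqrt (B (c X t) (c X t)))) t :=
      h2.sqrt hpos1.ne'
    have h4 := (((hasDerivAt_const t (Real.sqrt (B (Y X) (Y X)))).div h3
      (Real.sqrt_pos.2 hpos1).ne').smul h1).const_add (p X • E)
    have h5 : ∃ γ' : V, HasDerivAt (γ X) γ' t := ⟨_, h4⟩
    obtain ⟨γ', h6⟩ := h5
    have hγE : ∀ t, B E (γ X t) = B E (p X • E) := by
      intro t
      simp only [γ, map_add, map_smul, hcE, smul_zero, add_zero]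
    have o1 : B E γ' = 0 := by
      have h7 : HasDerivAt (fun t => B E (γ X t)) (B E γ') t :=
        (B E).hasFDerivAt.comp_hasDerivAt t h6
      have h8 : HasDerivAt (fun t => B E (γ X t)) 0 t := by
        have : (fun t => B E (γ X t)) = fun _ => B E (p X • E) := funext hγE
        rw [this]
        exact hasDerivAt_const _ _
      exact h7.unique h8
    have o2 : B (γ X t) γ' = 0 := by
      have h7 : HasDerivAt (fun t => B (γ X t) (γ X t)) (B γ' (γ X t) + B (γ X t) γ') t :=
        ((B.hasFDerivAt.comp_hasDerivAt t h6).clm_apply h6)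
      have h8 : HasDerivAt (fun t => B (γ X t) (γ X t)) 0 t := by
        have h9 : ∀ᶠ s in 𝓝 t, B (γ X s) (γ X s) = B (p X • E) (p X • E) + B (Y X) (Y X) := by
          have hcont : ContinuousAt (fun t => B (c X t) (c X t)) t := h2.continuousAt
          filter_upwards [hcont.eventually (eventually_gt_nhds hpos1)] with s hs
          simp only [γ, map_add, map_smul, add_apply, smul_apply, smul_eq_mul, hcE s,
            hsymm (c X s) E]
          have h10 : Real.sqrt (B (c X s) (c X s)) * Real.sqrt (B (c X s) (c X s)) =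
            B (c X s) (c X s) := Real.mul_self_sqrt hs.le
          have h11 : Real.sqrt (B (Y X) (Y X)) * Real.sqrt (B (Y X) (Y X)) = B (Y X) (Y X) :=
            Real.mul_self_sqrt hXp.le
          have h12 := (Real.sqrt_pos.2 hs).ne'
          have h14 : Real.sqrt (B (Y X) (Y X)) / Real.sqrt (B (c X s) (c X s)) *
              (Real.sqrt (B (Y X) (Y X)) / Real.sqrt (B (c X s) (c X s)) *
              B (c X s) (c X s)) = B (Y X) (Y X) := by
            generalize Real.sqrt (B (c X s) (c X s)) = b at h10 h12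
            generalize Real.sqrt (B (Y X) (Y X)) = a at h11
            rw [← h10, ← h11]
            field_simp
          linear_combination h14
        refine (hasDerivAt_const t (B (p X • E) (p X • E) + B (Y X) (Y X))).congr_of_eventuallyEq h9
      have := h7.unique h8
      rw [hsymm γ' (γ X t)] at this
      linarith
    have h13 := (hd _ (hX t ht).2).hasFDerivAt.comp_hasDerivAt t h6
    rw [hE _ (hX t ht).2 γ' o1 o2] at h13
    exact h13
  have hconst : f (γ X 1) = f (γ X 0) := by
    have h1 := constant_of_has_deriv_right_zero (f := fun t => f (γ X t)) (a := 0) (b := 1)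
      (fun t ht => (hder t ht).continuousAt.continuousWithinAt)
      (fun t ht => (hder t ⟨ht.1, ht.2.le⟩).hasDerivWithinAt)
    exact h1 1 (by simp)
  rw [e0, e1] at hconst
  exact hconst

end Pool.Agent.Q225.Smo
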