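import Pool.Agent.Q225.Smo.Frame
import Pool.Agent.W956.KF.Growth

set_option autoImplicit false

/-!
# Matrix multiplication from four restrictions of the third derivative
-/

namespace Pool.Agent.Q225.Smo

open Filter Topology Pool.Agent.Q225.Add Pool.Agent.Q225.Sim Pool.Agent.W956.KF

/-- the area of the parallelogram spanned by two differences of points -/
def Wt {n : ℕ} (X F : Fin n → ℝ) (a a' b b' : Fin n) : ℝ :=
  (X a - X a') * (F b - F b') - (F a - F a') * (X b - X b')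

variable {n k L m : ℕ} {V : Type} [NormedAddCommGroup V] [NormedSpace ℝ V] {f : V → ℝ} {x0 : V}
  {X : Fin n → ℝ} {v : Fin n → Fin n → V} {w : Fin n → V} {B : Fin n → Fin n → V →L[ℝ] V}

theorem rank_of_frame (hf : Computed k L f x0) (h : Frame f x0 X v w B)
    (hX : Function.Injective X) (e : Fin 5 → Fin m → Fin n)
    (he : ∀ p q i j, e p i = e q j → p = q ∧ i = j)
    (hW : ∀ i j, Wt X (fun a => fderiv ℝ f x0 (w a)) (e 0 i) (e 1 i) (e 2 j) (e 3 j) ≠ 0) :
    RankLE ℝ m m m (4 * (L * (3 * k + k * k))) := by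
  classical
  set F : Fin n → ℝ := fun a => fderiv ℝ f x0 (w a) with hF
  have hne : ∀ p q i j, p ≠ q → e p i ≠ e q j := fun p q i j h h' => h (he p q i j h').1
  have hinj : ∀ p i j, e p i = e p j ↔ i = j :=
    fun p i j => ⟨fun h => (he p p i j h).2, fun h => by rw [h]⟩
  let T : Fin 5 → Fin 5 → ℝ → Fin m × Fin m → Fin m × Fin m → Fin m × Fin m → ℝ :=
    fun p q ε I J M =>
      (X (e p I.1) - X (e 4 I.2)) * (X (e q J.1) - X (e 4 J.2)) *
        (ε * (Wt X F (e 0 M.1) (e 1 M.1) (e 2 M.2) (e 3 M.2))⁻¹ *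
          (X (e q M.2) - X (e p M.1))) *
        D3 f x0 (v (e 4 I.2) (e p I.1)) (v (e q J.1) (e 4 J.2)) (v (e p M.1) (e q M.2))
  have hT : ∀ p q ε, TensorRankLE (T p q ε) (L * (3 * k + k * k)) := fun p q ε =>
    tensor_scale ((third_rank hf (fun I : Fin m × Fin m => v (e 4 I.2) (e p I.1))
      (fun J : Fin m × Fin m => v (e q J.1) (e 4 J.2))
      (fun M : Fin m × Fin m => v (e p M.1) (e q M.2))).2) _ _ _
  have hval : ∀ p q ε, p ≠ q → p ≠ 4 → q ≠ 4 → ∀ I J M, T p q ε I J M =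
      if M.1 = I.1 ∧ M.2 = J.1 ∧ J.2 = I.2 then
        ε * (Wt X F (e 0 M.1) (e 1 M.1) (e 2 M.2) (e 3 M.2))⁻¹ *
        (F (e p M.1) * (X (e 4 J.2) - X (e q M.2)) + F (e q M.2) * (X (e p M.1) - X (e 4 J.2)) +
          F (e 4 J.2) * (X (e q M.2) - X (e p M.1))) else 0 := by
    intro p q ε g1 g2 g3 I J M
    have := h.D3_eq hX (a := e p M.1) (b := e q M.2) (b' := e q J.1) (c := e 4 J.2)
      (c' := e 4 I.2) (a' := e p I.1) (hne _ _ _ _ g1) (hne _ _ _ _ g1) (hne _ _ _ _ g2)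
      (hne _ _ _ _ g2) (hne _ _ _ _ g1) (hne _ _ _ _ g1) (hne _ _ _ _ g2) (hne _ _ _ _ g2)
      (hne _ _ _ _ g3) (hne _ _ _ _ g3) (hne _ _ _ _ g3) (hne _ _ _ _ g3)
    simp only [hinj] at this
    have h' : T p q ε I J M = ε * (Wt X F (e 0 M.1) (e 1 M.1) (e 2 M.2) (e 3 M.2))⁻¹ *
        ((X (e q M.2) - X (e p M.1)) * (X (e q J.1) - X (e 4 J.2)) *
          (X (e p I.1) - X (e 4 I.2)) * D3 f x0 (v (e 4 I.2) (e p I.1)) (v (e q J.1) (e 4 J.2))
          (v (e p M.1) (e q M.2))) := by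
      simp only [T]
      ring
    rw [h', this]
    split_ifs <;> simp [hF]
  have hsum := tensor_add (tensor_add (hT 0 2 1) (hT 1 2 (-1))) (tensor_add (hT 0 3 (-1))
    (hT 1 3 1))
  have hr : L * (3 * k + k * k) + L * (3 * k + k * k) +
      (L * (3 * k + k * k) + L * (3 * k + k * k)) = 4 * (L * (3 * k + k * k)) := by ring
  rw [hr] at hsum
  obtain ⟨a, b, c, habc⟩ := hsum
  refine ⟨fun t i j => c t (i, j), fun t j l => b t (j, l), fun t i l => a t (i, l),
    fun i i' j j' l l' => ?_⟩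
  have h1 := habc (i', l') (j', l) (i, j)
  beta_reduce at h1 ⊢
  rw [hval 0 2 1 (by decide) (by decide) (by decide), hval 1 2 (-1) (by decide) (by decide)
    (by decide), hval 0 3 (-1) (by decide) (by decide) (by decide), hval 1 3 1 (by decide)
    (by decide) (by decide)] at h1
  have h2 : ∑ t, c t (i, j) * b t (j', l) * a t (i', l') =
      ∑ t, a t (i', l') * b t (j', l) * c t (i, j) :=
    Finset.sum_congr rfl fun t _ => by ring
  rw [h2, ← h1]
  have hw := hW i j
  by_cases hall : i = i' ∧ j = j' ∧ l = l'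
  · simp only [if_pos hall]
    unfold Wt at hw ⊢
    field_simp
    ring
  · simp only [if_neg hall, add_zero]

end Pool.Agent.Q225.Smo
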