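import Pool.Agent.Q225.Smo.Rank

set_option autoImplicit false

/-!
# Infinitesimal symmetries determine the third derivative
-/

namespace Pool.Agent.Q225.Smo

open Filter Topology Pool.Agent.Q225.Add

/-- Vectors `v a b` and linear vector fields `B a b` tangent to the level sets of `f`, with the
commutation relations of the rotations of symmetric matrices. -/
structure Frame {n : ℕ} {V : Type} [NormedAddCommGroup V] [NormedSpace ℝ V] (f : V → ℝ) (x0 : V)
    (X : Fin n → ℝ) (v : Fin n → Fin n → V) (w : Fin n → V) (B : Fin n → Fin n → V →L[ℝ] V) :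
    Prop where
  smooth : ContDiffAt ℝ 3 f x0
  symm : ∀ a b, v a b = v b a
  tan : ∀ a b, a ≠ b → ∀ᶠ y in 𝓝 x0, fderiv ℝ f y (B a b y) = 0
  base : ∀ a b, a ≠ b → B a b x0 = (X b - X a) • v a b
  diag : ∀ a b, a ≠ b → B a b (v a b) = w a - w b
  adj : ∀ a b c, a ≠ b → c ≠ a → c ≠ b → B a b (v b c) = v a c
  adj' : ∀ a b c, a ≠ b → c ≠ a → c ≠ b → B a b (v a c) = - v b c
  far : ∀ a b c d, a ≠ b → c ≠ a → c ≠ b → d ≠ a → d ≠ b → c ≠ d → B a b (v c d) = 0

namespace Frame

variable {n : ℕ} {V : Type} [NormedAddCommGroup V] [NormedSpace ℝ V] {f : V → ℝ} {x0 : V}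
  {X : Fin n → ℝ} {v : Fin n → Fin n → V} {w : Fin n → V} {B : Fin n → Fin n → V →L[ℝ] V}

/-- the derivative of the tangency condition -/
theorem d2 (h : Frame f x0 X v w B) {a b : Fin n} (hab : a ≠ b) :
    ∀ᶠ y in 𝓝 x0, ∀ H, fderiv ℝ (fderiv ℝ f) y H (B a b y) + fderiv ℝ f y (B a b H) = 0 := by
  filter_upwards [(h.tan a b hab).eventually_nhds, evC (n := 3) h.smooth] with y hy hC H
  have h1 : DifferentiableAt ℝ (fderiv ℝ f) y :=
    (hC.fderiv_right (m := 2) (by norm_num)).differentiableAt (by norm_num)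
  have h2 : HasFDerivAt (fun z => fderiv ℝ f z (B a b z)) _ y :=
    h1.hasFDerivAt.clm_apply (B a b).hasFDerivAt
  have h3 : HasFDerivAt (fun z => fderiv ℝ f z (B a b z)) (0 : V →L[ℝ] ℝ) y :=
    (hasFDerivAt_const (0 : ℝ) y).congr_of_eventuallyEq hy
  have := congrArg (fun φ => φ H) (h2.unique h3)
  simp at this
  linarith

/-- the second derivative of the tangency condition -/
theorem d3 (h : Frame f x0 X v w B) {a b : Fin n} (hab : a ≠ b) (K H : V) :
    D3 f x0 K H (B a b x0) + fderiv ℝ (fderiv ℝ f) x0 H (B a b K) +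
      fderiv ℝ (fderiv ℝ f) x0 K (B a b H) = 0 := by
  have hC2 : ContDiffAt ℝ 2 (fderiv ℝ f) x0 := h.smooth.fderiv_right (m := 2) (by norm_num)
  have h1 : DifferentiableAt ℝ (fderiv ℝ f) x0 := hC2.differentiableAt (by norm_num)
  have h1' : DifferentiableAt ℝ (fderiv ℝ (fderiv ℝ f)) x0 :=
    (hC2.fderiv_right (m := 1) (by norm_num)).differentiableAt (by norm_num)
  have h2 : HasFDerivAt (fun z => fderiv ℝ (fderiv ℝ f) z H) _ x0 :=
    h1'.hasFDerivAt.clm_apply (hasFDerivAt_const H x0)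
  have h3 := (h2.clm_apply (B a b).hasFDerivAt).add
    (h1.hasFDerivAt.clm_apply (hasFDerivAt_const (B a b H) x0))
  have h4 : HasFDerivAt (fun z => fderiv ℝ (fderiv ℝ f) z H (B a b z) +
      fderiv ℝ f z (B a b H)) (0 : V →L[ℝ] ℝ) x0 := by
    refine (hasFDerivAt_const (0 : ℝ) x0).congr_of_eventuallyEq ?_
    filter_upwards [h.d2 hab] with z hz
    exact hz H
  have := congrArg (fun φ => φ K) (HasFDerivAt.unique h3 h4)
  simp at this
  unfold D3
  linarith

variable (hX : Function.Injective X)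
include hX

theorem sub_ne {a b : Fin n} (hab : a ≠ b) : X b - X a ≠ 0 :=
  sub_ne_zero.2 fun h => hab (hX h).symm

theorem D1 (h : Frame f x0 X v w B) {a b : Fin n} (hab : a ≠ b) :
    fderiv ℝ f x0 (v a b) = 0 := by
  have := (h.tan a b hab).self_of_nhds
  rw [h.base a b hab, map_smul, smul_eq_mul] at this
  exact (mul_eq_zero.1 this).resolve_left (sub_ne hX hab)

theorem D2 (h : Frame f x0 X v w B) {a b : Fin n} (hab : a ≠ b) (H : V) :
    fderiv ℝ (fderiv ℝ f) x0 H (v a b) = - (X b - X a)⁻¹ * fderiv ℝ f x0 (B a b H) := by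
  have := (h.d2 hab).self_of_nhds H
  rw [h.base a b hab, map_smul, smul_eq_mul] at this
  have h0 := sub_ne hX hab
  field_simp
  linarith

theorem D2_zero (h : Frame f x0 X v w B) {a b c d : Fin n} (hab : a ≠ b) (hcd : c ≠ d)
    (h1 : ¬ (c = a ∧ d = b)) (h2 : ¬ (c = b ∧ d = a)) :
    fderiv ℝ (fderiv ℝ f) x0 (v c d) (v a b) = 0 := by
  rw [h.D2 hX hab]
  have : fderiv ℝ f x0 (B a b (v c d)) = 0 := by
    by_cases hca : c = a
    · subst hca
      have hdb : d ≠ b := fun h => h1 ⟨rfl, h⟩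
      rw [h.adj' c b d hab (Ne.symm hcd) hdb, map_neg, h.D1 hX (Ne.symm hdb), neg_zero]
    by_cases hcb : c = b
    · subst hcb
      have hda : d ≠ a := fun h => h2 ⟨rfl, h⟩
      rw [h.adj a c d hab hda (Ne.symm hcd), h.D1 hX (Ne.symm hda)]
    by_cases hda : d = a
    · subst hda
      rw [h.symm c d, h.adj' d b c hab hca hcb, map_neg, h.D1 hX (Ne.symm hcb), neg_zero]
    by_cases hdb : d = b
    · subst hdb
      rw [h.symm c d, h.adj a d c hab hca hcb, h.D1 hX (Ne.symm hca)]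
    rw [h.far a b c d hab hca hcb hda hdb hcd, map_zero]
  rw [this, mul_zero]

theorem D2_same (h : Frame f x0 X v w B) {a b : Fin n} (hab : a ≠ b) :
    fderiv ℝ (fderiv ℝ f) x0 (v a b) (v a b) =
      - (X b - X a)⁻¹ * (fderiv ℝ f x0 (w a) - fderiv ℝ f x0 (w b)) := by
  rw [h.D2 hX hab, h.diag a b hab, map_sub]

/-- **The third derivative in the directions `v a b`, `v b c`, `v c a`.** -/
theorem D3_eq (h : Frame f x0 X v w B) {a b b' c c' a' : Fin n} (hab : a ≠ b)
    (hab' : a ≠ b') (hac : a ≠ c) (hac' : a ≠ c') (ha'b : a' ≠ b) (ha'b' : a' ≠ b')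
    (ha'c : a' ≠ c) (ha'c' : a' ≠ c') (hbc : b ≠ c) (hbc' : b ≠ c') (hb'c : b' ≠ c)
    (hb'c' : b' ≠ c') :
    (X b - X a) * (X b' - X c) * (X a' - X c') * D3 f x0 (v c' a') (v b' c) (v a b) =
      if a = a' ∧ b = b' ∧ c = c' then
        fderiv ℝ f x0 (w a) * (X c - X b) + fderiv ℝ f x0 (w b) * (X a - X c) +
          fderiv ℝ f x0 (w c) * (X b - X a) else 0 := by
  have h1 := h.d3 hab (v c' a') (v b' c)
  rw [h.base a b hab, map_smul, smul_eq_mul] at h1
  have e1 : B a b (v c' a') = if a = a' then - v b c' else 0 := by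
    split_ifs with e
    · subst e
      rw [h.symm c' a, h.adj' a b c' hab (Ne.symm hac') (Ne.symm hbc')]
    · exact h.far a b c' a' hab (Ne.symm hac') (Ne.symm hbc') (Ne.symm e) ha'b (Ne.symm ha'c')
  have e2 : B a b (v b' c) = if b = b' then v a c else 0 := by
    split_ifs with e
    · subst e
      rw [h.adj a b c hab (Ne.symm hac) (Ne.symm hbc)]
    · exact h.far a b b' c hab (Ne.symm hab') (Ne.symm e) (Ne.symm hac) (Ne.symm hbc) hb'c
  by_cases hall : a = a' ∧ b = b' ∧ c = c'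
  · obtain ⟨rfl, rfl, rfl⟩ := hall
    rw [if_pos rfl] at e1 e2
    rw [e1, e2, map_neg, h.D2_same hX hbc, h.symm c a, h.D2_same hX hac] at h1
    have g1 := sub_ne hX hab
    have g2 := sub_ne hX hbc
    have g3 := sub_ne hX hac
    rw [if_pos ⟨rfl, rfl, rfl⟩, h.symm c a]
    field_simp at h1 ⊢
    linear_combination h1
  · rw [if_neg hall]
    have z1 : fderiv ℝ (fderiv ℝ f) x0 (v b' c) (B a b (v c' a')) = 0 := by
      rw [e1]
      split_ifs with e
      · rw [map_neg, h.D2_zero hX hbc' hb'c (fun hh => hall ⟨e, hh.1.symm, hh.2⟩)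
          (fun hh => hb'c' hh.1), neg_zero]
      · simp
    have z2 : fderiv ℝ (fderiv ℝ f) x0 (v c' a') (B a b (v b' c)) = 0 := by
      rw [e2]
      split_ifs with e
      · rw [h.D2_zero hX hac (Ne.symm ha'c') (fun hh => hac' hh.1.symm)
          (fun hh => hall ⟨hh.2.symm, e, hh.1.symm⟩)]
      · simp
    rw [z1, z2, add_zero, add_zero] at h1
    rw [(mul_eq_zero.1 h1).resolve_left (sub_ne hX hab), mul_zero]

end Frame

end Pool.Agent.Q225.Smo
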