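import Pool.Agent.Q225.Smo.Four

set_option autoImplicit false

/-!
# General position
-/

namespace Pool.Agent.Q225.Smo

open Filter Topology Pool.Agent.Q225.Add

/-- finitely many analytic functions which do not vanish identically are simultaneously nonzero
somewhere in every open set -/
theorem exists_ne {E : Type*} [NormedAddCommGroup E] [NormedSpace ℝ E] {D : Set E}
    (hc : IsPreconnected D) {τ : Type*} [DecidableEq τ] (F : τ → E → ℝ)
    (s : Finset τ)
    (hF : ∀ t ∈ s, AnalyticOnNhd ℝ (F t) D) (hne : ∀ t ∈ s, ∃ z ∈ D, F t z ≠ 0) {U : Set E}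
    (hU : IsOpen U) (hUD : U ⊆ D) (hUn : U.Nonempty) : ∃ x ∈ U, ∀ t ∈ s, F t x ≠ 0 := by
  induction s using Finset.induction_on generalizing U with
  | empty =>
    obtain ⟨x, hx⟩ := hUn
    exact ⟨x, hx, by simp⟩
  | insert t s hts ih =>
    have ht := hF t (Finset.mem_insert_self _ _)
    have h1 : ∃ x ∈ U, F t x ≠ 0 := by
      by_contra hcon
      push Not at hcon
      obtain ⟨x, hx⟩ := hUn
      obtain ⟨z, hz, hz0⟩ := hne t (Finset.mem_insert_self _ _)
      have h2 : F t =ᶠ[𝓝 x] 0 := by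
        filter_upwards [hU.mem_nhds hx] with y hy
        exact hcon y hy
      exact hz0 (ht.eqOn_zero_of_preconnected_of_eventuallyEq_zero hc (hUD hx) h2 hz)
    have h2 : IsOpen (U ∩ {x | F t x ≠ 0}) := by
      have hcont : ContinuousOn (F t) U := (ht.continuousOn).mono hUD
      have := hcont.isOpen_inter_preimage hU (isOpen_ne (x := (0 : ℝ)))
      exact this
    obtain ⟨x, hx, hx'⟩ := h1
    obtain ⟨y, hy, hy'⟩ := ih (fun t ht => hF t (Finset.mem_insert_of_mem ht))
      (fun t ht => hne t (Finset.mem_insert_of_mem ht)) h2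
      (fun z hz => hUD hz.1) ⟨x, hx, hx'⟩
    refine ⟨y, hy.1, fun t' ht' => ?_⟩
    rcases Finset.mem_insert.1 ht' with rfl | h
    · exact hy.2
    · exact hy' t' h

/-- the area identity -/
theorem area_zero {n : ℕ} {X F : Fin n → ℝ} {a b c d : Fin n} (h1 : Wt X F a b c d = 0)
    (h2 : Wt X F a c b d = 0) (h3 : Wt X F a d b c = 0) :
    F a * (X c - X b) + F b * (X a - X c) + F c * (X b - X a) = 0 := by
  unfold Wt at h1 h2 h3
  linear_combination (-1 / 2 : ℝ) * h1 + (1 / 2 : ℝ) * h2 + (1 / 2 : ℝ) * h3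

section computed

variable {k L : ℕ} {V : Type} [NormedAddCommGroup V] [NormedSpace ℝ V]

theorem computed_nhds {f : V → ℝ} {x : V} (hf : Computed k L f x) :
    ∀ᶠ y in 𝓝 x, Computed k L f y := by
  obtain ⟨g, u, hu, hg, h, hh, hfh⟩ := hf
  have hcont : ∀ j, ContinuousAt (u j) x := by
    intro j
    rw [continuousAt_pi]
    intro p
    exact (good_all hu hg (hu j p)).1.continuousAt
  have h1 : ∀ᶠ y in 𝓝 x, ∀ j, ContDiffAt ℝ 3 (g j) (u j y) :=
    eventually_all.2 fun j => (hcont j).eventually (evC (n := 3) (hg j))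
  filter_upwards [h1, hfh.eventually_nhds] with y hy1 hy2
  exact ⟨g, u, hu, hy1, h, hh, hy2⟩

theorem avail_comp {W : Type} [NormedAddCommGroup W] [NormedSpace ℝ W] (A : W →L[ℝ] V)
    {g : Fin L → (Fin k → ℝ) → ℝ} {u : Fin L → V → Fin k → ℝ} {s : Set (Fin L)} {h : V → ℝ}
    (hh : h ∈ Avail g u s) : (fun y => h (A y)) ∈ Avail g (fun j y => u j (A y)) s := by
  obtain ⟨a, ha, b, hb, rfl⟩ := Submodule.mem_sup.1 hh
  refine Submodule.add_mem _ (Submodule.mem_sup_left ?_) (Submodule.mem_sup_right ?_)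
  · obtain ⟨c, ℓ, rfl⟩ := ha
    exact ⟨c, ℓ.comp A, rfl⟩
  · clear hh ha
    induction hb using Submodule.span_induction with
    | mem h hm =>
      obtain ⟨i, hi, rfl⟩ := hm
      exact Submodule.subset_span ⟨i, hi, rfl⟩
    | zero => exact Submodule.zero_mem _
    | add a b _ _ ha hb => exact Submodule.add_mem _ ha hb
    | smul r a _ ha => exact Submodule.smul_mem _ r ha

theorem computed_comp {W : Type} [NormedAddCommGroup W] [NormedSpace ℝ W] (A : W →L[ℝ] V)
    {f : V → ℝ} {x : W} (hf : Computed k L f (A x)) : Computed k L (fun y => f (A y)) x := by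
  obtain ⟨g, u, hu, hg, h, hh, hfh⟩ := hf
  refine ⟨g, fun j y => u j (A y), fun j p => avail_comp A (hu j p), hg, fun y => h (A y),
    avail_comp A hh, ?_⟩
  exact A.continuous.continuousAt.eventually hfh

theorem computed_congr {f f' : V → ℝ} {x : V} (hf : Computed k L f x) (h : ∀ᶠ y in 𝓝 x, f' y = f y) :
    Computed k L f' x := by
  obtain ⟨g, u, hu, hg, o, ho, hfo⟩ := hf
  refine ⟨g, u, hu, hg, o, ho, ?_⟩
  filter_upwards [h, hfo] with y h1 h2
  rw [h1, h2]

end computed

end Pool.Agent.Q225.Smo
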