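import Pool.Agent.Q225.Smo.Defs
import Pool.Agent.Q225.Smo.Chain

set_option autoImplicit false

/-!
# The third derivative of a function given by a network
-/

namespace Pool.Agent.Q225.Smo

open Filter Topology

variable {V : Type} [NormedAddCommGroup V] [NormedSpace ℝ V]

/-- the function along a line -/
def ln (h : V → ℝ) (x w : V) : ℝ → ℝ := fun t => h (x + t • w)

/-- the derivative of order `n` along the line with direction `w` -/
noncomputable def dd (n : ℕ) (h : V → ℝ) (x : V) : V → ℝ := fun w => iteratedDeriv n (ln h x w) 0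

theorem lnC {h : V → ℝ} {x : V} {n : ℕ} (hh : ContDiffAt ℝ n h x) (w : V) :
    ContDiffAt ℝ n (ln h x w) 0 := by
  have h1 : ContDiffAt ℝ n (fun t : ℝ => x + t • w) 0 :=
    contDiffAt_const.add (contDiffAt_id.smul contDiffAt_const)
  have h2 : ContDiffAt ℝ n h (x + (0 : ℝ) • w) := by simpa using hh
  exact h2.comp (0 : ℝ) h1

theorem dd_add {n : ℕ} {h h' : V → ℝ} {x : V} (h1 : ContDiffAt ℝ n h x)
    (h2 : ContDiffAt ℝ n h' x) : dd n (h + h') x = dd n h x + dd n h' x := by
  funext w
  exact iteratedDeriv_add (lnC h1 w) (lnC h2 w)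

theorem dd_smul {n : ℕ} {h : V → ℝ} {x : V} (h1 : ContDiffAt ℝ n h x) (r : ℝ) :
    dd n (r • h) x = r • dd n h x := by
  funext w
  exact iteratedDeriv_const_smul (lnC h1 w) r

theorem dd_one {h : V → ℝ} {x : V} (h1 : ContDiffAt ℝ 1 h x) (w : V) :
    dd 1 h x w = fderiv ℝ h x w := by
  have h2 : HasDerivAt (fun t : ℝ => x + t • w) w 0 := by
    have := ((hasDerivAt_id (0 : ℝ)).smul_const w).const_add x
    simpa using this
  have h3 : HasFDerivAt h (fderiv ℝ h x) (x + (0 : ℝ) • w) := by
    simpa using (h1.differentiableAt (by norm_num)).hasFDerivAt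
  have := h3.comp_hasDerivAt (0 : ℝ) h2
  simp only [dd, iteratedDeriv_one]
  exact this.deriv

theorem dd_two (h : V → ℝ) (x w : V) : dd 2 h x w = deriv (deriv (ln h x w)) 0 := by
  simp only [dd, iteratedDeriv_succ, iteratedDeriv_zero]

theorem dd_three (h : V → ℝ) (x w : V) : dd 3 h x w = deriv (deriv (deriv (ln h x w))) 0 := by
  simp only [dd, iteratedDeriv_succ, iteratedDeriv_zero]

theorem dd_aff {h : V → ℝ} {x : V} (h1 : h ∈ Aff V) :
    (∀ n, ContDiffAt ℝ n h x) ∧ dd 2 h x = 0 ∧ dd 3 h x = 0 := by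
  obtain ⟨c, ℓ, rfl⟩ := h1
  have h2 : ∀ w, deriv (ln (fun y => c + ℓ y) x w) = fun _ => ℓ w := by
    intro w
    funext t
    have : HasDerivAt (ln (fun y => c + ℓ y) x w) (ℓ w) t := by
      have h3 : ln (fun y => c + ℓ y) x w = fun t => (c + ℓ x) + t * ℓ w := by
        funext t
        simp [ln, add_assoc]
      rw [h3]
      simpa using ((hasDerivAt_id t).mul_const (ℓ w)).const_add (c + ℓ x)
    exact this.deriv
  refine ⟨fun n => contDiffAt_const.add ℓ.contDiff.contDiffAt, ?_, ?_⟩
  · funext w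
    rw [dd_two, h2]
    simp
  · funext w
    rw [dd_three, h2]
    simp

section forms

variable {k L : ℕ} (g : Fin L → (Fin k → ℝ) → ℝ) (u : Fin L → V → Fin k → ℝ) (x : V)

/-- the derivative of the arguments -/
noncomputable def U (i : Fin L) (w : V) : Fin k → ℝ := fderiv ℝ (u i) x w

/-- the quadratic form of gate `i` -/
noncomputable def qf (i : Fin L) (w : V) : ℝ :=
  fderiv ℝ (fderiv ℝ (g i)) (u i x) (U u x i w) (U u x i w)

/-- the cubic form of gate `i` -/
noncomputable def kf (i : Fin L) (w : V) : ℝ :=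
  fderiv ℝ (fderiv ℝ (fderiv ℝ (g i))) (u i x) (U u x i w) (U u x i w) (U u x i w)

/-- the second derivatives -/
noncomputable def Q2 : Submodule ℝ (V → ℝ) := Submodule.span ℝ {h | ∃ i, h = qf g u x i}

/-- the third derivatives -/
noncomputable def Q3 : Submodule ℝ (V → ℝ) :=
  Submodule.span ℝ ({h | ∃ (i : Fin L) (ℓ : V →L[ℝ] ℝ), h = fun w => ℓ w * qf g u x i w} ∪
    {h | ∃ i, h = kf g u x i})

theorem mul_mem_Q3 (ℓ : V →L[ℝ] ℝ) {h : V → ℝ} (hh : h ∈ Q2 g u x) :
    (fun w => ℓ w * h w) ∈ Q3 g u x := by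
  unfold Q2 at hh
  induction hh using Submodule.span_induction with
  | mem h hm =>
    obtain ⟨i, rfl⟩ := hm
    exact Submodule.subset_span (Or.inl ⟨i, ℓ, rfl⟩)
  | zero =>
    have : (fun w => ℓ w * (0 : V → ℝ) w) = 0 := by ext w; simp
    rw [this]
    exact Submodule.zero_mem _
  | add a b _ _ ha hb =>
    have : (fun w => ℓ w * (a + b) w) = (fun w => ℓ w * a w) + fun w => ℓ w * b w := by
      ext w; simp [mul_add]
    rw [this]
    exact Submodule.add_mem _ ha hb
  | smul r a _ ha =>
    have : (fun w => ℓ w * (r • a) w) = r • fun w => ℓ w * a w := by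
      ext w; simp; ring
    rw [this]
    exact Submodule.smul_mem _ _ ha

/-- functions with good derivatives -/
def Good (h : V → ℝ) : Prop := ContDiffAt ℝ 3 h x ∧ dd 2 h x ∈ Q2 g u x ∧ dd 3 h x ∈ Q3 g u x

variable {g u x}

theorem Good.add {h h' : V → ℝ} (h1 : Good g u x h) (h2 : Good g u x h') :
    Good g u x (h + h') := by
  refine ⟨h1.1.add h2.1, ?_, ?_⟩
  · rw [dd_add (n := 2) (h1.1.of_le (by norm_num)) (h2.1.of_le (by norm_num))]
    exact Submodule.add_mem _ h1.2.1 h2.2.1
  · rw [dd_add (n := 3) h1.1 h2.1]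
    exact Submodule.add_mem _ h1.2.2 h2.2.2

theorem Good.smul {h : V → ℝ} (h1 : Good g u x h) (r : ℝ) : Good g u x (r • h) := by
  refine ⟨h1.1.const_smul r, ?_, ?_⟩
  · rw [dd_smul (n := 2) (h1.1.of_le (by norm_num))]
    exact Submodule.smul_mem _ _ h1.2.1
  · rw [dd_smul (n := 3) h1.1]
    exact Submodule.smul_mem _ _ h1.2.2

theorem good_aff {h : V → ℝ} (h1 : h ∈ Aff V) : Good g u x h := by
  obtain ⟨a, b, c⟩ := dd_aff (x := x) h1
  refine ⟨a 3, ?_, ?_⟩
  · rw [b]; exact Submodule.zero_mem _
  · rw [c]; exact Submodule.zero_mem _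

theorem good_avail {s : Set (Fin L)} (hs : ∀ i ∈ s, Good g u x (fun y => g i (u i y)))
    {h : V → ℝ} (hh : h ∈ Avail g u s) : Good g u x h := by
  obtain ⟨a, ha, b, hb, rfl⟩ := Submodule.mem_sup.1 hh
  refine (good_aff ha).add ?_
  clear hh ha
  induction hb using Submodule.span_induction with
  | mem h hm =>
    obtain ⟨i, hi, rfl⟩ := hm
    exact hs i hi
  | zero => exact good_aff (Submodule.zero_mem _)
  | add a b _ _ ha hb => exact ha.add hb
  | smul r a _ ha => exact ha.smul r

/-- **A gate with good arguments is good.** -/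
theorem good_gate {j : Fin L} (hg : ContDiffAt ℝ 3 (g j) (u j x))
    (hu : ∀ p, Good g u x (fun y => u j y p)) : Good g u x (fun y => g j (u j y)) := by
  have huC : ContDiffAt ℝ 3 (u j) x := contDiffAt_pi.2 fun p => (hu p).1
  have hC : ContDiffAt ℝ 3 (fun y => g j (u j y)) x := hg.comp x huC
  -- the curve of arguments
  have hcurve : ∀ w, ContDiffAt ℝ 3 (fun t : ℝ => u j (x + t • w)) 0 := by
    intro w
    rw [contDiffAt_pi]
    intro p
    exact lnC (n := 3) (hu p).1 w
  have hd1 : ∀ w, deriv (fun t : ℝ => u j (x + t • w)) 0 = U u x j w := by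
    intro w
    have h2 : HasDerivAt (fun t : ℝ => x + t • w) w 0 := by
      have := ((hasDerivAt_id (0 : ℝ)).smul_const w).const_add x
      simpa using this
    have h3 : HasFDerivAt (u j) (fderiv ℝ (u j) x) (x + (0 : ℝ) • w) := by
      simpa using (huC.differentiableAt (by norm_num)).hasFDerivAt
    exact (h3.comp_hasDerivAt (0 : ℝ) h2).deriv
  have hpd : ∀ (c : ℝ → Fin k → ℝ) (p : Fin k) (t : ℝ), DifferentiableAt ℝ c t →
      deriv c t p = deriv (fun s => c s p) t := by
    intro c p t hc
    exact (((hasDerivAt_pi.1 hc.hasDerivAt) p).deriv).symm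
  have hd2 : ∀ w p, deriv (deriv (fun t : ℝ => u j (x + t • w))) 0 p =
      dd 2 (fun y => u j y p) x w := by
    intro w p
    rw [dd_two, hpd _ p 0 ((derivC (n := 3) (m := 1) (by norm_num) (hcurve w)).differentiableAt
      (by norm_num))]
    apply Filter.EventuallyEq.deriv_eq
    filter_upwards [evC (n := 3) (hcurve w)] with t ht
    exact hpd _ p t (ht.differentiableAt (by norm_num))
  have hd3 : ∀ w p, deriv (deriv (deriv (fun t : ℝ => u j (x + t • w)))) 0 p =
      dd 3 (fun y => u j y p) x w := by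
    intro w p
    have hC2 := derivC (n := 3) (m := 2) (by norm_num) (hcurve w)
    rw [dd_three, hpd _ p 0 ((derivC (n := 2) (m := 1) (by norm_num) hC2).differentiableAt
      (by norm_num))]
    apply Filter.EventuallyEq.deriv_eq
    filter_upwards [evC (n := 2) hC2, (evC (n := 3) (hcurve w)).eventually_nhds] with t ht ht'
    rw [hpd _ p t (ht.differentiableAt (by norm_num))]
    apply Filter.EventuallyEq.deriv_eq
    filter_upwards [ht'] with s hs
    exact hpd _ p s (hs.differentiableAt (by norm_num))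
  have hg0 : ∀ w, ContDiffAt ℝ 3 (g j) (u j (x + (0 : ℝ) • w)) := by
    intro w; simpa using hg
  have hch := fun w => comp3 (g := g j) (c := fun t : ℝ => u j (x + t • w)) (t := 0) (hg0 w)
    (hcurve w)
  have hx0 : ∀ w, u j (x + (0 : ℝ) • w) = u j x := by intro w; simp
  -- linear functionals
  let π : Fin k → V →L[ℝ] ℝ := fun p =>
    (ContinuousLinearMap.proj p).comp (fderiv ℝ (u j) x)
  have hπ : ∀ p w, U u x j w p = π p w := fun p w => rfl
  -- expansion of vectors
  have hexp : ∀ (φ : (Fin k → ℝ) →L[ℝ] ℝ) (z : Fin k → ℝ),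
      φ z = ∑ p, z p * φ (Pi.single p 1) := by
    intro φ z
    conv_lhs => rw [pi_eq_sum_univ' z]
    rw [map_sum]
    refine Finset.sum_congr rfl fun p _ => ?_
    rw [map_smul, smul_eq_mul]
  refine ⟨hC, ?_, ?_⟩
  · -- second derivative
    have : dd 2 (fun y => g j (u j y)) x = qf g u x j +
        ∑ p, fderiv ℝ (g j) (u j x) (Pi.single p 1) • dd 2 (fun y => u j y p) x := by
      funext w
      rw [dd_two]
      have := (hch w).2.1
      simp only [hx0, hd1] at this
      have h' : ln (fun y => g j (u j y)) x w = fun s => g j (u j (x + s • w)) := rfl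
      rw [h', this, hexp (fderiv ℝ (g j) (u j x))]
      simp only [hd2, Pi.add_apply, Finset.sum_apply, Pi.smul_apply, smul_eq_mul, qf]
      congr 1
      exact Finset.sum_congr rfl fun p _ => mul_comm _ _
    rw [this]
    refine Submodule.add_mem _ (Submodule.subset_span ⟨j, rfl⟩) ?_
    exact Submodule.sum_mem _ fun p _ => Submodule.smul_mem _ _ (hu p).2.1
  · have : dd 3 (fun y => g j (u j y)) x = kf g u x j +
        (∑ p, fun w => (fderiv ℝ (fderiv ℝ (g j)) (u j x) (Pi.single p 1) (U u x j w)) *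
          dd 2 (fun y => u j y p) x w) +
        (∑ p, fun w => (2 * fderiv ℝ (fderiv ℝ (g j)) (u j x) (U u x j w) (Pi.single p 1)) *
          dd 2 (fun y => u j y p) x w) +
        ∑ p, fderiv ℝ (g j) (u j x) (Pi.single p 1) • dd 3 (fun y => u j y p) x := by
      funext w
      rw [dd_three]
      have := (hch w).2.2
      simp only [hx0, hd1] at this
      have h' : ln (fun y => g j (u j y)) x w = fun s => g j (u j (x + s • w)) := rfl
      rw [h', this]
      have e1 : fderiv ℝ (fderiv ℝ (g j)) (u j x) (deriv (deriv fun s : ℝ => u j (x + s • w)) 0)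
          (U u x j w) = ∑ p, fderiv ℝ (fderiv ℝ (g j)) (u j x) (Pi.single p 1) (U u x j w) *
          dd 2 (fun y => u j y p) x w := by
        have := hexp ((ContinuousLinearMap.apply ℝ ℝ (U u x j w)).comp
          (fderiv ℝ (fderiv ℝ (g j)) (u j x))) (deriv (deriv fun s : ℝ => u j (x + s • w)) 0)
        simp only [ContinuousLinearMap.comp_apply, ContinuousLinearMap.apply_apply] at this
        rw [this]
        exact Finset.sum_congr rfl fun p _ => by rw [hd2, mul_comm]
      have e2 : fderiv ℝ (fderiv ℝ (g j)) (u j x) (U u x j w)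
          (deriv (deriv fun s : ℝ => u j (x + s • w)) 0) =
          ∑ p, fderiv ℝ (fderiv ℝ (g j)) (u j x) (U u x j w) (Pi.single p 1) *
          dd 2 (fun y => u j y p) x w := by
        rw [hexp (fderiv ℝ (fderiv ℝ (g j)) (u j x) (U u x j w))]
        exact Finset.sum_congr rfl fun p _ => by rw [hd2, mul_comm]
      have e3 : fderiv ℝ (g j) (u j x) (deriv (deriv (deriv fun s : ℝ => u j (x + s • w))) 0) =
          ∑ p, fderiv ℝ (g j) (u j x) (Pi.single p 1) * dd 3 (fun y => u j y p) x w := by
        rw [hexp (fderiv ℝ (g j) (u j x))]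
        exact Finset.sum_congr rfl fun p _ => by rw [hd3, mul_comm]
      have e4 : ∑ p, 2 * fderiv ℝ (fderiv ℝ (g j)) (u j x) (U u x j w) (Pi.single p 1) *
          dd 2 (fun y => u j y p) x w = 2 * ∑ p, fderiv ℝ (fderiv ℝ (g j)) (u j x)
          (U u x j w) (Pi.single p 1) * dd 2 (fun y => u j y p) x w := by
        rw [Finset.mul_sum]
        exact Finset.sum_congr rfl fun p _ => by ring
      simp only [add_apply, e1, e2, e3, Pi.add_apply, Finset.sum_apply,
        Pi.smul_apply, smul_eq_mul, kf, e4]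
      ring
    rw [this]
    refine Submodule.add_mem _ (Submodule.add_mem _ (Submodule.add_mem _
      (Submodule.subset_span (Or.inr ⟨j, rfl⟩)) ?_) ?_) ?_
    · refine Submodule.sum_mem _ fun p _ => ?_
      have := mul_mem_Q3 g u x ((fderiv ℝ (fderiv ℝ (g j)) (u j x) (Pi.single p 1)).comp
        (fderiv ℝ (u j) x)) (hu p).2.1
      convert this using 2
      simp [U]
    · refine Submodule.sum_mem _ fun p _ => ?_
      have := mul_mem_Q3 g u x ((2 : ℝ) • ((ContinuousLinearMap.apply ℝ ℝ (Pi.single p (1 : ℝ))).comp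
        (fderiv ℝ (fderiv ℝ (g j)) (u j x))).comp (fderiv ℝ (u j) x)) (hu p).2.1
      convert this using 2
      simp [U]
    · exact Submodule.sum_mem _ fun p _ => Submodule.smul_mem _ _ (hu p).2.2

/-- all functions given by the network are good -/
theorem good_all (hu : ∀ j p, (fun y => u j y p) ∈ Avail g u {i | i < j})
    (hg : ∀ j, ContDiffAt ℝ 3 (g j) (u j x)) {s : Set (Fin L)} {h : V → ℝ}
    (hh : h ∈ Avail g u s) : Good g u x h := by
  have key : ∀ (m : ℕ) (j : Fin L), (j : ℕ) = m → Good g u x (fun y => g j (u j y)) := by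
    intro m
    induction m using Nat.strong_induction_on with
    | _ m ih =>
      intro j hj
      refine good_gate (hg j) fun p => good_avail (fun i hi => ?_) (hu j p)
      exact ih i (by rw [← hj]; exact hi) i rfl
  exact good_avail (fun i _ => key i i rfl) hh

end forms

end Pool.Agent.Q225.Smo
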