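import Mathlib

set_option autoImplicit false

/-!
# Rotations in a coordinate plane
-/

namespace Pool.Agent.Q225.Smo

open Matrix

variable {n : ℕ}

/-- `E_ab - E_ba` -/
def Z (a b : Fin n) : Matrix (Fin n) (Fin n) ℝ := Matrix.single a b 1 - Matrix.single b a 1

/-- `E_aa + E_bb` -/
def P (a b : Fin n) : Matrix (Fin n) (Fin n) ℝ := Matrix.single a a 1 + Matrix.single b b 1

/-- the rotation by the angle `t` -/
noncomputable def rot (a b : Fin n) (t : ℝ) : Matrix (Fin n) (Fin n) ℝ :=
  1 + Real.sin t • Z a b + (Real.cos t - 1) • P a b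

theorem Z_transpose (a b : Fin n) : (Z a b)ᵀ = - Z a b := by
  simp [Z, transpose_sub, transpose_single]

theorem P_transpose (a b : Fin n) : (P a b)ᵀ = P a b := by
  simp [P, transpose_add, transpose_single]

theorem Z_mul_Z {a b : Fin n} (h : a ≠ b) : Z a b * Z a b = - P a b := by
  simp [Z, P, Matrix.sub_mul, Matrix.mul_sub, Matrix.single_mul_single_same,
    Matrix.single_mul_single_of_ne, h, h.symm]
  abel

theorem Z_mul_P {a b : Fin n} (h : a ≠ b) : Z a b * P a b = Z a b := by
  simp [Z, P, Matrix.sub_mul, Matrix.mul_add, Matrix.single_mul_single_same,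
    Matrix.single_mul_single_of_ne, h, h.symm]
  abel

theorem P_mul_Z {a b : Fin n} (h : a ≠ b) : P a b * Z a b = Z a b := by
  simp [Z, P, Matrix.add_mul, Matrix.mul_sub, Matrix.single_mul_single_same,
    Matrix.single_mul_single_of_ne, h, h.symm]

theorem P_mul_P {a b : Fin n} (h : a ≠ b) : P a b * P a b = P a b := by
  simp [P, Matrix.add_mul, Matrix.mul_add, Matrix.single_mul_single_same,
    Matrix.single_mul_single_of_ne, h, h.symm]

theorem rot_mem {a b : Fin n} (h : a ≠ b) (t : ℝ) :
    rot a b t ∈ Matrix.orthogonalGroup (Fin n) ℝ := by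
  rw [Matrix.mem_orthogonalGroup_iff]
  have h1 : (rot a b t)ᵀ = 1 - Real.sin t • Z a b + (Real.cos t - 1) • P a b := by
    rw [rot]
    simp only [transpose_add, transpose_one, transpose_smul, Z_transpose, P_transpose, smul_neg]
    abel
  rw [h1, rot]
  have h2 : (1 + Real.sin t • Z a b + (Real.cos t - 1) • P a b) *
      (1 - Real.sin t • Z a b + (Real.cos t - 1) • P a b) =
      1 + (Real.sin t ^ 2 + Real.cos t ^ 2 - 1) • P a b := by
    simp only [add_mul, mul_add, mul_sub, one_mul, mul_one, smul_mul_assoc, mul_smul_comm,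
      Z_mul_Z h, Z_mul_P h, P_mul_Z h, P_mul_P h, smul_neg]
    module
  rw [h2, Real.sin_sq_add_cos_sq]
  simp

theorem rot_zero (a b : Fin n) : rot a b 0 = 1 := by
  simp [rot]

theorem rot_deriv (a b : Fin n) (i j : Fin n) :
    HasDerivAt (fun t => rot a b t i j) (Z a b i j) 0 := by
  have h1 : (fun t => rot a b t i j) =
      fun t => (1 : Matrix (Fin n) (Fin n) ℝ) i j + Real.sin t * Z a b i j +
        (Real.cos t - 1) * P a b i j := by
    funext t
    simp [rot]
  rw [h1]
  have h2 := (((Real.hasDerivAt_sin 0).mul_const (Z a b i j)).const_add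
    ((1 : Matrix (Fin n) (Fin n) ℝ) i j)).add
    (((Real.hasDerivAt_cos 0).sub_const 1).mul_const (P a b i j))
  have h3 : Real.cos 0 * Z a b i j + -Real.sin 0 * P a b i j = Z a b i j := by simp
  rw [h3] at h2
  exact h2

end Pool.Agent.Q225.Smo
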