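import Pool.Agent.Q225.Smo.Defs

set_option autoImplicit false

/-!
# Functions of the eigenvalues of symmetric matrices: definitions
-/

namespace Pool.Agent.Q225.Smo

open Matrix

/-- The space of the real symmetric `n × n` matrices. -/
def Sy (n : ℕ) : Submodule ℝ (Fin n → Fin n → ℝ) where
  carrier := {X | ∀ i j, X i j = X j i}
  add_mem' := fun {a b} ha hb i j => by
    show a i j + b i j = a j i + b j i
    rw [ha i j, hb i j]
  zero_mem' := fun _ _ => rfl
  smul_mem' := fun r a ha i j => by
    show r * a i j = r * a j i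
    rw [ha i j]

/-- The matrix `Q X Qᵀ`. -/
def conj {n : ℕ} (Q : Matrix (Fin n) (Fin n) ℝ) (X : Sy n) : Sy n :=
  ⟨fun i j => (Q * Matrix.of X.1 * Qᵀ) i j, fun i j => by
    have hX : (Matrix.of X.1)ᵀ = Matrix.of X.1 := by
      ext p q
      exact X.2 q p
    have : (Q * Matrix.of X.1 * Qᵀ)ᵀ = Q * Matrix.of X.1 * Qᵀ := by
      rw [transpose_mul, transpose_mul, transpose_transpose, hX, Matrix.mul_assoc]
    have h := congrFun (congrFun this j) i
    exact h⟩

/-- The diagonal matrix with the entries `x i`. -/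
def dg {n : ℕ} (x : Fin n → ℝ) : Sy n :=
  ⟨fun i j => if i = j then x i else 0, fun i j => by
    by_cases h : i = j
    · subst h; rfl
    · show (if i = j then x i else 0) = if j = i then x j else 0
      rw [if_neg h, if_neg (Ne.symm h)]⟩

/-- The trace. -/
def tr {n : ℕ} (X : Sy n) : ℝ := ∑ i, X.1 i i

/-- The trace of the product, `tr (X Y) = ∑ x_{ij} y_{ij}`. -/
def ip {n : ℕ} (X Y : Sy n) : ℝ := ∑ i, ∑ j, X.1 i j * Y.1 i j

end Pool.Agent.Q225.Smo
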