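import Pool.Agent.Q225.Smo.SInv

set_option autoImplicit false

/-!
# Functions of the eigenvalues: the lower bound
-/

namespace Pool.Agent.Q225.Smo

open Matrix Filter Topology Pool.Agent.W956.KF

variable {n : ℕ}

/-- `dg` as a continuous linear map -/
noncomputable def dgL (n : ℕ) : (Fin n → ℝ) →L[ℝ] Sy n :=
  LinearMap.toContinuousLinearMap
    { toFun := fun x => dg x
      map_add' := fun x y => M_inj (by rw [M_add, M_dg, M_dg, M_dg, Matrix.diagonal_add]; rfl)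
      map_smul' := fun r x => M_inj (by
        rw [RingHom.id_apply, M_smul, M_dg, M_dg, ← Matrix.diagonal_smul]) }

theorem dgL_apply (x : Fin n → ℝ) : dgL n x = dg x := rfl

theorem inj4 {a b c d : Fin n} (h : a ≠ b ∧ a ≠ c ∧ a ≠ d ∧ b ≠ c ∧ b ≠ d ∧ c ≠ d) :
    Function.Injective ![a, b, c, d] := by
  obtain ⟨h1, h2, h3, h4, h5, h6⟩ := h
  intro i j hij
  fin_cases i <;> fin_cases j <;> simp [h1, h2, h3, h4, h5, h6, h1.symm, h2.symm, h3.symm,
    h4.symm, h5.symm, h6.symm] at hij ⊢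

theorem exists_perm4 {a b c d a' b' c' d' : Fin n}
    (h : a ≠ b ∧ a ≠ c ∧ a ≠ d ∧ b ≠ c ∧ b ≠ d ∧ c ≠ d)
    (h' : a' ≠ b' ∧ a' ≠ c' ∧ a' ≠ d' ∧ b' ≠ c' ∧ b' ≠ d' ∧ c' ≠ d') :
    ∃ σ : Equiv.Perm (Fin n), σ a = a' ∧ σ b = b' ∧ σ c = c' ∧ σ d = d' := by
  obtain ⟨σ, hσ⟩ := Equiv.Perm.exists_extending_pair ![a, b, c, d] ![a', b', c', d'] (inj4 h)
    (inj4 h')
  exact ⟨σ, hσ 0, hσ 1, hσ 2, hσ 3⟩

/-- the assumptions -/
structure Inv (Ω : Set (Sy n)) (f : Sy n → ℝ) : Prop where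
  op : IsOpen Ω
  conn : IsPreconnected {x : Fin n → ℝ | dg x ∈ Ω}
  an : AnalyticOnNhd ℝ f Ω
  inv : ∀ Q ∈ Matrix.orthogonalGroup (Fin n) ℝ, ∀ X ∈ Ω, conj Q X ∈ Ω ∧ f (conj Q X) = f X

section

variable {Ω : Set (Sy n)} {f : Sy n → ℝ} (h : Inv Ω f)

/-- the derivatives in the directions of the diagonal -/
noncomputable def phi (f : Sy n → ℝ) (x : Fin n → ℝ) (a : Fin n) : ℝ := fderiv ℝ f (dg x) (S a a)

include h

theorem Inv.diff {X : Sy n} (hX : X ∈ Ω) : DifferentiableAt ℝ f X := (h.an X hX).differentiableAt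

theorem Inv.open_D : IsOpen {x : Fin n → ℝ | dg x ∈ Ω} :=
  h.op.preimage (dgL n).continuous

theorem Inv.phi_an (a : Fin n) : AnalyticOnNhd ℝ (fun x => phi f x a) {x | dg x ∈ Ω} := by
  have h1 : AnalyticOnNhd ℝ (fderiv ℝ f) Ω := h.an.fderiv
  have h2 : AnalyticOnNhd ℝ (fun x => fderiv ℝ f (dgL n x)) {x | dg x ∈ Ω} := fun x hx =>
    (h1 (dgL n x) hx).comp ((dgL n).analyticAt x)
  intro x hx
  exact ((ContinuousLinearMap.apply ℝ ℝ (S a a)).analyticAt _).comp (h2 x hx)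

theorem Inv.phi_perm {x : Fin n → ℝ} (hx : dg x ∈ Ω) (σ : Equiv.Perm (Fin n)) (a : Fin n) :
    phi f (x ∘ σ) a = phi f x (σ a) := by
  have := fderiv_conj h.op (fun X hX => h.diff hX) h.inv (Pm_mem σ) hx (S (σ a) (σ a))
  rw [conj_Pm_dg, conj_Pm_S] at this
  exact this

theorem Inv.perm_mem {x : Fin n → ℝ} (hx : dg x ∈ Ω) (σ : Equiv.Perm (Fin n)) :
    dg (x ∘ σ) ∈ Ω := by
  rw [← conj_Pm_dg]
  exact (h.inv _ (Pm_mem σ) _ hx).1

theorem Inv.off {x : Fin n → ℝ} (hx : dg x ∈ Ω) {a b : Fin n} (hab : a ≠ b) :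
    fderiv ℝ f (dg x) (S a b) = 0 := by
  have := fderiv_conj h.op (fun X hX => h.diff hX) h.inv (Sg_mem a) hx (S a b)
  rw [conj_Sg_dg, conj_Sg_S hab, map_neg] at this
  linarith

theorem Inv.fderiv_dg {x : Fin n → ℝ} (hx : dg x ∈ Ω) (H : Sy n) :
    fderiv ℝ f (dg x) H = 2⁻¹ * ∑ i, H.1 i i * phi f x i := by
  conv_lhs => rw [expand H]
  rw [map_smul, map_sum, smul_eq_mul]
  congr 1
  refine Finset.sum_congr rfl fun i _ => ?_
  rw [map_sum, Finset.sum_eq_single i]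
  · rw [map_smul, smul_eq_mul]
    rfl
  · intro j _ hj
    rw [map_smul, h.off hx (Ne.symm hj), smul_zero]
  · simp

/-- if all areas vanish the function is easy -/
theorem Inv.easy_of_area (hn : 4 ≤ n) {x : Fin n → ℝ} (hx : dg x ∈ Ω)
    (hW : ∀ a b c d : Fin n, a ≠ b → a ≠ c → a ≠ d → b ≠ c → b ≠ d → c ≠ d →
      Wt x (phi f x) a b c d = 0) {H : Sy n} (h1 : tr H = 0) (h2 : ip (dg x) H = 0) :
    fderiv ℝ f (dg x) H = 0 := by
  rw [h.fderiv_dg hx]
  have h2' : ∑ i, x i * H.1 i i = 0 := by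
    rw [← h2]
    refine Finset.sum_congr rfl fun i _ => ?_
    rw [Finset.sum_eq_single i]
    · simp [dg]
    · intro j _ hj
      simp [dg, Ne.symm hj]
    · simp
  have harea : ∀ a b c : Fin n, a ≠ b → a ≠ c → b ≠ c →
      phi f x a * (x c - x b) + phi f x b * (x a - x c) + phi f x c * (x b - x a) = 0 := by
    intro a b c hab hac hbc
    obtain ⟨d, hd⟩ : ∃ d : Fin n, d ∉ ({a, b, c} : Finset (Fin n)) := by
      by_contra hcon
      push Not at hcon
      have h3 : (Finset.univ : Finset (Fin n)) ⊆ {a, b, c} := fun d _ => hcon d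
      have h4 := Finset.card_le_card h3
      have h5 := Finset.card_le_three (a := a) (b := b) (c := c)
      rw [Finset.card_univ, Fintype.card_fin] at h4
      omega
    simp only [Finset.mem_insert, Finset.mem_singleton, not_or] at hd
    obtain ⟨hda, hdb, hdc⟩ := hd
    exact area_zero (hW a b c d hab hac (Ne.symm hda) hbc (Ne.symm hdb) (Ne.symm hdc))
      (hW a c b d hac hab (Ne.symm hda) (Ne.symm hbc) (Ne.symm hdc) (Ne.symm hdb))
      (hW a d b c (Ne.symm hda) hab hac hdb hdc hbc)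
  have haff : ∃ α β : ℝ, ∀ i, phi f x i = α * x i + β := by
    by_cases hc : ∃ a b, x a ≠ x b
    · obtain ⟨a, b, hab⟩ := hc
      have hab' : a ≠ b := fun h => hab (by rw [h])
      have h0 : x b - x a ≠ 0 := sub_ne_zero.2 (Ne.symm hab)
      refine ⟨(phi f x b - phi f x a) / (x b - x a),
        phi f x a - (phi f x b - phi f x a) / (x b - x a) * x a, fun c => ?_⟩
      by_cases hca : c = a
      · subst hca; ring
      by_cases hcb : c = b
      · subst hcb; field_simp; ring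
      have := harea a b c hab' (Ne.symm hca) (Ne.symm hcb)
      field_simp
      linear_combination this
    · push Not at hc
      have i0 : Fin n := ⟨0, by omega⟩
      refine ⟨0, phi f x i0, fun i => ?_⟩
      have hsw : x ∘ (Equiv.swap i0 i) = x := by
        funext j
        exact hc _ _
      have := h.phi_perm hx (Equiv.swap i0 i) i0
      rw [hsw, Equiv.swap_apply_left] at this
      rw [← this]
      ring
  obtain ⟨α, β, hαβ⟩ := haff
  have h3 : ∑ i, H.1 i i * phi f x i = α * ∑ i, x i * H.1 i i + β * ∑ i, H.1 i i := by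
    rw [Finset.mul_sum, Finset.mul_sum, ← Finset.sum_add_distrib]
    exact Finset.sum_congr rfl fun i _ => by rw [hαβ]; ring
  have h4 : ∑ i, H.1 i i = 0 := h1
  rw [h3, h2', h4]
  ring

theorem Inv.Wt_perm {x : Fin n → ℝ} (hx : dg x ∈ Ω) (σ : Equiv.Perm (Fin n)) (a b c d : Fin n) :
    Wt (x ∘ σ) (phi f (x ∘ σ)) a b c d = Wt x (phi f x) (σ a) (σ b) (σ c) (σ d) := by
  unfold Wt
  simp only [h.phi_perm hx, Function.comp]

theorem Inv.Wt_an (a b c d : Fin n) :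
    AnalyticOnNhd ℝ (fun x => Wt x (phi f x) a b c d) {x | dg x ∈ Ω} := by
  intro x hx
  have h1 : ∀ a : Fin n, AnalyticAt ℝ (fun x : Fin n → ℝ => x a) x := fun a =>
    (ContinuousLinearMap.proj (R := ℝ) (φ := fun _ : Fin n => ℝ) a).analyticAt x
  have h2 := fun a => h.phi_an a x hx
  exact (((h1 a).sub (h1 b)).mul ((h2 c).sub (h2 d))).sub
    (((h2 a).sub (h2 b)).mul ((h1 c).sub (h1 d)))

omit h in
theorem tr_conj {Q : Matrix (Fin n) (Fin n) ℝ} (hQ : Q ∈ Matrix.orthogonalGroup (Fin n) ℝ)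
    (H : Sy n) : tr (conj Q H) = tr H := by
  have h1 : ∀ X : Sy n, tr X = (M X).trace := fun X => rfl
  rw [h1, h1, M_conj, Matrix.trace_mul_comm, ← Matrix.mul_assoc, orth_iff.1 hQ, Matrix.one_mul]

omit h in
theorem ip_conj {Q : Matrix (Fin n) (Fin n) ℝ} (hQ : Q ∈ Matrix.orthogonalGroup (Fin n) ℝ)
    (X H : Sy n) : ip (conj Q X) (conj Q H) = ip X H := by
  have h1 : ∀ X Y : Sy n, ip X Y = (M X * M Y).trace := fun X Y => by
    simp only [Matrix.trace, Matrix.diag, Matrix.mul_apply]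
    refine Finset.sum_congr rfl fun i _ => Finset.sum_congr rfl fun j _ => ?_
    show X.1 i j * Y.1 i j = X.1 i j * Y.1 j i
    rw [Y.2 i j]
  rw [h1, h1, M_conj, M_conj]
  have h2 : Q * M X * Qᵀ * (Q * M H * Qᵀ) = Q * (M X * M H) * Qᵀ := by
    calc Q * M X * Qᵀ * (Q * M H * Qᵀ) = Q * M X * (Qᵀ * Q) * M H * Qᵀ := by
          simp only [Matrix.mul_assoc]
      _ = Q * (M X * M H) * Qᵀ := by rw [orth_iff.1 hQ]; simp only [Matrix.mul_assoc, Matrix.mul_one]
  rw [h2, Matrix.trace_mul_comm, ← Matrix.mul_assoc, orth_iff.1 hQ, Matrix.one_mul]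

/-- **Lower bound for functions of the eigenvalues.** -/
theorem Inv.lower (hn : 5 ≤ n)
    (hne : ∃ X ∈ Ω, ∃ H : Sy n, tr H = 0 ∧ ip X H = 0 ∧ fderiv ℝ f X H ≠ 0)
    {k L : ℕ} {X : Sy n} (hX : X ∈ Ω) (hf : Computed k L f X) :
    RankLE ℝ (n / 5) (n / 5) (n / 5) (4 * (L * (3 * k + k * k))) := by
  classical
  obtain ⟨Q, hQ, x₀, rfl⟩ := exists_diag X
  have hx₀ : dg x₀ ∈ Ω := by
    rw [← conj_conj hQ (dg x₀)]
    exact (h.inv _ (orth_transpose hQ) _ hX).1
  have hf0 : Computed k L f (dg x₀) := by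
    refine computed_congr (computed_comp (conjL Q) (x := dg x₀) hf) ?_
    filter_upwards [h.op.mem_nhds hx₀] with Y hY
    exact (h.inv Q hQ Y hY).2.symm
  -- a neighbourhood
  have hev : ∀ᶠ x in 𝓝 x₀, Computed k L f (dgL n x) :=
    (dgL n).continuous.continuousAt.eventually (computed_nhds hf0)
  obtain ⟨U, hU1, hU2, hU3⟩ := mem_nhds_iff.1 (Filter.inter_mem hev (h.open_D.mem_nhds hx₀))
  -- the factors
  let F : (Fin n × Fin n) ⊕ (Fin n × Fin n × Fin n × Fin n) → (Fin n → ℝ) → ℝ := fun t x =>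
    Sum.elim (fun t => x t.1 - x t.2)
      (fun t => Wt x (phi f x) t.1 t.2.1 t.2.2.1 t.2.2.2) t
  let s : Finset ((Fin n × Fin n) ⊕ (Fin n × Fin n × Fin n × Fin n)) :=
    Finset.univ.filter fun t => Sum.elim (fun t => t.1 ≠ t.2) (fun t => t.1 ≠ t.2.1 ∧
      t.1 ≠ t.2.2.1 ∧ t.1 ≠ t.2.2.2 ∧ t.2.1 ≠ t.2.2.1 ∧ t.2.1 ≠ t.2.2.2 ∧ t.2.2.1 ≠ t.2.2.2) t
  have hFan : ∀ t ∈ s, AnalyticOnNhd ℝ (F t) {x | dg x ∈ Ω} := by
    rintro (⟨a, b⟩ | ⟨a, b, c, d⟩) _
    · intro x _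
      exact ((ContinuousLinearMap.proj (R := ℝ) (φ := fun _ : Fin n => ℝ) a).analyticAt x).sub
        ((ContinuousLinearMap.proj (R := ℝ) (φ := fun _ : Fin n => ℝ) b).analyticAt x)
    · exact h.Wt_an a b c d
  have hFne : ∀ t ∈ s, ∃ z ∈ {x | dg x ∈ Ω}, F t z ≠ 0 := by
    rintro (⟨a, b⟩ | ⟨a, b, c, d⟩) hs
    · have hab : a ≠ b := by simpa [s] using hs
      by_contra hcon
      push Not at hcon
      have h1 : ∀ᶠ t in 𝓝 (0 : ℝ), x₀ + t • (Pi.single a 1 : Fin n → ℝ) ∈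
          {x | dg x ∈ Ω} := by
        have : ContinuousAt (fun t : ℝ => x₀ + t • (Pi.single a 1 : Fin n → ℝ)) 0 := by fun_prop
        exact this (h.open_D.mem_nhds (by simpa using hx₀))
      have h2 : ∃ᶠ t in 𝓝 (0 : ℝ), t ≠ 0 := by
        have : (𝓝[≠] (0 : ℝ)).NeBot := inferInstance
        rw [frequently_iff_neBot]
        exact this
      obtain ⟨t, ht, ht'⟩ := (h2.and_eventually h1).exists
      have e1 := hcon _ ht'
      have e2 := hcon x₀ hx₀
      simp only [F, Sum.elim_inl, Pi.add_apply, Pi.smul_apply, Pi.single_eq_same, smul_eq_mul,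
        mul_one, Pi.single_eq_of_ne (Ne.symm hab), mul_zero, add_zero] at e1 e2
      exact ht (by linarith)
    · by_contra hcon
      push Not at hcon
      simp only [s, Finset.mem_filter, Finset.mem_univ, true_and, Sum.elim_inr] at hs
      obtain ⟨hab, hac, had, hbc, hbd, hcd⟩ := hs
      -- all areas vanish
      have hall : ∀ x, dg x ∈ Ω → ∀ a' b' c' d' : Fin n, a' ≠ b' → a' ≠ c' → a' ≠ d' →
          b' ≠ c' → b' ≠ d' → c' ≠ d' → Wt x (phi f x) a' b' c' d' = 0 := by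
        intro x hx a' b' c' d' h1 h2 h3 h4 h5 h6
        obtain ⟨σ, e0, e1, e2, e3⟩ := exists_perm4 ⟨hab, hac, had, hbc, hbd, hcd⟩
          ⟨h1, h2, h3, h4, h5, h6⟩
        have := hcon (x ∘ σ) (h.perm_mem hx σ)
        simp only [F, Sum.elim_inr] at this
        rw [h.Wt_perm hx, e0, e1, e2, e3] at this
        exact this
      obtain ⟨X₁, hX₁, H₁, t1, t2, t3⟩ := hne
      obtain ⟨Q₁, hQ₁, x₁, rfl⟩ := exists_diag X₁
      have hx₁ : dg x₁ ∈ Ω := by
        rw [← conj_conj hQ₁ (dg x₁)]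
        exact (h.inv _ (orth_transpose hQ₁) _ hX₁).1
      have hH : H₁ = conj Q₁ (conj Q₁ᵀ H₁) := (conj_conj' hQ₁ H₁).symm
      rw [hH, fderiv_conj h.op (fun X hX => h.diff hX) h.inv hQ₁ hx₁] at t3
      rw [hH, ip_conj hQ₁] at t2
      rw [hH, tr_conj hQ₁] at t1
      exact t3 (h.easy_of_area (by omega) hx₁ (hall x₁ hx₁) t1 t2)
  obtain ⟨x, hxU, hx⟩ := exists_ne h.conn F s hFan hFne hU2 (fun z hz => (hU1 hz).2) ⟨x₀, hU3⟩
  have hxD : dg x ∈ Ω := (hU1 hxU).2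
  have hxC : Computed k L f (dg x) := (hU1 hxU).1
  have hinj : Function.Injective x := by
    intro a b hab
    by_contra hcon
    have := hx (Sum.inl (a, b)) (by simpa [s] using hcon)
    simp only [F, Sum.elim_inl] at this
    exact this (sub_eq_zero.2 hab)
  have hfr : Frame f (dg x) x S (fun a => S a a) brk := by
    refine frame_sy ((h.an _ hxD).contDiffAt) ?_
    filter_upwards [h.op.mem_nhds hxD] with Y hY Q hQ
    exact (h.inv Q hQ Y hY).2
  let e : Fin 5 → Fin (n / 5) → Fin n := fun p i => ⟨p.1 * (n / 5) + i.1, by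
    have h1 : p.1 * (n / 5) ≤ 4 * (n / 5) := Nat.mul_le_mul_right _ (by omega)
    have h2 := i.2
    have h3 : 5 * (n / 5) ≤ n := Nat.mul_div_le n 5
    omega⟩
  have he : ∀ p q i j, e p i = e q j → p = q ∧ i = j := by
    intro p q i j hpq
    have h1 : p.1 * (n / 5) + i.1 = q.1 * (n / 5) + j.1 := congrArg Fin.val hpq
    have h2 := i.2
    have h3 := j.2
    have h4 : p.1 = q.1 := by
      rcases lt_trichotomy p.1 q.1 with hlt | heq | hgt
      · have : (p.1 + 1) * (n / 5) ≤ q.1 * (n / 5) := Nat.mul_le_mul_right _ hlt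
        rw [add_mul] at this
        omega
      · exact heq
      · have : (q.1 + 1) * (n / 5) ≤ p.1 * (n / 5) := Nat.mul_le_mul_right _ hgt
        rw [add_mul] at this
        omega
    refine ⟨Fin.ext h4, Fin.ext ?_⟩
    rw [h4] at h1
    omega
  refine rank_of_frame hxC hfr hinj e he fun i j => ?_
  have hne' : ∀ p q i j, p ≠ q → e p i ≠ e q j := fun p q i j h h' => h (he p q i j h').1
  have := hx (Sum.inr (e 0 i, e 1 i, e 2 j, e 3 j)) (by
    simp only [s, Finset.mem_filter, Finset.mem_univ, true_and, Sum.elim_inr]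
    exact ⟨hne' _ _ _ _ (by decide), hne' _ _ _ _ (by decide), hne' _ _ _ _ (by decide),
      hne' _ _ _ _ (by decide), hne' _ _ _ _ (by decide), hne' _ _ _ _ (by decide)⟩)
  exact this

end

end Pool.Agent.Q225.Smo
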