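import Pool.Agent.Q225.Smo.Easy
import Pool.Agent.Q225.Smo.SMain

set_option autoImplicit false

/-!
# Easy functions of the eigenvalues
-/

namespace Pool.Agent.Q225.Smo

open Matrix Filter Topology

variable {n : ℕ}

theorem ip_add (X Y Y' : Sy n) : ip X (Y + Y') = ip X Y + ip X Y' := by
  unfold ip
  rw [← Finset.sum_add_distrib]
  refine Finset.sum_congr rfl fun i _ => ?_
  rw [← Finset.sum_add_distrib]
  exact Finset.sum_congr rfl fun j _ => mul_add _ _ _

theorem ip_smul (X Y : Sy n) (r : ℝ) : ip X (r • Y) = r * ip X Y := by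
  unfold ip
  rw [Finset.mul_sum]
  refine Finset.sum_congr rfl fun i _ => ?_
  rw [Finset.mul_sum]
  refine Finset.sum_congr rfl fun j _ => ?_
  show X.1 i j * (r * Y.1 i j) = _
  ring

theorem ip_comm (X Y : Sy n) : ip X Y = ip Y X :=
  Finset.sum_congr rfl fun _ _ => Finset.sum_congr rfl fun _ _ => mul_comm _ _

theorem ip_pos {X : Sy n} (h : X ≠ 0) : 0 < ip X X := by
  have h1 : ∃ i j, X.1 i j ≠ 0 := by
    by_contra hcon
    push Not at hcon
    exact h (Subtype.ext (funext fun i => funext fun j => hcon i j))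
  obtain ⟨i, j, hij⟩ := h1
  refine Finset.sum_pos' (fun a _ => Finset.sum_nonneg fun b _ => mul_self_nonneg _)
    ⟨i, Finset.mem_univ _, ?_⟩
  exact Finset.sum_pos' (fun b _ => mul_self_nonneg _)
    ⟨j, Finset.mem_univ _, mul_self_pos.2 hij⟩

/-- `ip` as a bilinear map -/
noncomputable def ipL (n : ℕ) : Sy n →L[ℝ] Sy n →L[ℝ] ℝ :=
  LinearMap.toContinuousLinearMap
    { toFun := fun X => LinearMap.toContinuousLinearMap
        { toFun := fun Y => ip X Y
          map_add' := ip_add X
          map_smul' := fun r Y => ip_smul X Y r }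
      map_add' := fun X X' => by
        ext Y
        show ip (X + X') Y = ip X Y + ip X' Y
        rw [ip_comm, ip_add, ip_comm Y, ip_comm Y]
      map_smul' := fun r X => by
        ext Y
        show ip (r • X) Y = r * ip X Y
        rw [ip_comm, ip_smul, ip_comm Y] }

theorem ipL_apply (X Y : Sy n) : ipL n X Y = ip X Y := rfl

/-- the trace as a linear functional -/
noncomputable def trL (n : ℕ) : Sy n →L[ℝ] ℝ := ipL n (dg fun _ => 1)

theorem ip_one (X : Sy n) : ip (dg fun _ => 1) X = tr X := by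
  unfold ip tr
  refine Finset.sum_congr rfl fun i _ => ?_
  rw [Finset.sum_eq_single i]
  · simp [dg]
  · intro j _ hj
    simp [dg, Ne.symm hj]
  · simp

theorem tr_one : tr (dg fun _ : Fin n => (1 : ℝ)) = n := by
  simp [tr, dg]

/-- an entry as a linear functional -/
noncomputable def entL (i j : Fin n) : Sy n →L[ℝ] ℝ :=
  LinearMap.toContinuousLinearMap
    { toFun := fun X => X.1 i j
      map_add' := fun _ _ => rfl
      map_smul' := fun _ _ => rfl }

/-- **Easy functions have small networks.** -/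
theorem computed_easy (hn : 1 ≤ n) {Ω : Set (Sy n)} (hΩ : IsOpen Ω) {f : Sy n → ℝ}
    (han : AnalyticOnNhd ℝ f Ω)
    (hE : ∀ X ∈ Ω, ∀ H : Sy n, tr H = 0 → ip X H = 0 → fderiv ℝ f X H = 0) {X₀ : Sy n}
    (hX₀ : X₀ ∈ Ω) (hsc : ∀ c : ℝ, X₀ ≠ dg fun _ => c) : Computed 2 (n * n + 1) f X₀ := by
  have hn0 : (n : ℝ) ≠ 0 := by positivity
  set E : Sy n := dg fun _ => 1 with hEd
  set p : Sy n →L[ℝ] ℝ := (n : ℝ)⁻¹ • trL n with hp
  have hpX : ∀ X, p X = (n : ℝ)⁻¹ * tr X := fun X => by
    rw [hp, _root_.smul_apply, smul_eq_mul, trL, ipL_apply, ip_one]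
  have hpE : ∀ X, ip E (X - p X • E) = 0 := by
    intro X
    have h1 : X - p X • E = X + (- p X) • E := by module
    rw [h1, ip_add, ip_smul, hEd, ip_one, ip_one, tr_one, hpX]
    field_simp
    ring
  have hY₀ : X₀ - p X₀ • E ≠ 0 := by
    intro h
    refine hsc (p X₀) ?_
    rw [sub_eq_zero] at h
    rw [h]
    apply M_inj
    have h2 : p (p X₀ • E) = p X₀ := by
      rw [map_smul, smul_eq_mul, hpX E, hEd, tr_one]
      field_simp
    rw [h2, M_smul, hEd, M_dg, M_dg]
    ext i j
    simp [Matrix.diagonal_apply, Matrix.one_apply]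
  have hmain := const_on_spheres hΩ (fun X hX => (han X hX).differentiableAt) (ipL n)
    (fun X Y => ip_comm X Y) (fun X hX => ip_pos hX) E p hpE
    (fun X hX H h1 h2 => hE X hX H (by rw [← ip_one]; exact h1) h2) hX₀ hY₀
  set Y₀ := X₀ - p X₀ • E with hY₀d
  set N : ℝ := ip Y₀ Y₀ with hN
  have hNpos : 0 < N := ip_pos hY₀
  have hquad : ∀ X, ip (X - p X • E) (X - p X • E) = ip X X - (n : ℝ)⁻¹ * tr X ^ 2 := by
    intro X
    have h1 : X - p X • E = X + (- p X) • E := by module
    have h2 : ip (X - p X • E) (X - p X • E) = ip X X - 2 * p X * tr X + p X ^ 2 * n := by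
      rw [h1, ip_add, ip_smul, ip_comm _ X, ip_comm _ E, ip_add, ip_smul, ip_add, ip_smul,
        ip_comm X E, hEd, ip_one, ip_one, tr_one]
      ring
    rw [h2, hpX]
    field_simp
    ring
  -- the function of two variables
  let G : (Fin 2 → ℝ) → Sy n := fun z => ((n : ℝ)⁻¹ * z 0) • E +
    Real.sqrt ((z 1 - (n : ℝ)⁻¹ * z 0 ^ 2) / N) • Y₀
  have hG : ∀ᶠ X in 𝓝 X₀, f X = f (G ![tr X, ip X X]) := by
    filter_upwards [hmain] with X hX
    rw [hX, ipL_apply, ipL_apply, hquad, ← hN, hpX]
    rfl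
  have hG0 : G ![tr X₀, ip X₀ X₀] = X₀ := by
    simp only [G, Matrix.cons_val_zero, Matrix.cons_val_one]
    rw [← hquad, ← hpX, ← hY₀d, ← hN, div_self hNpos.ne', Real.sqrt_one, one_smul, hY₀d]
    abel
  have hGC : ContDiffAt ℝ 3 G ![tr X₀, ip X₀ X₀] := by
    have hz : ∀ i : Fin 2, ContDiffAt ℝ 3 (fun z : Fin 2 → ℝ => z i) ![tr X₀, ip X₀ X₀] :=
      fun i => (ContinuousLinearMap.proj (R := ℝ) (φ := fun _ : Fin 2 => ℝ) i).contDiff.contDiffAt
    have hs : ContDiffAt ℝ 3 (fun z : Fin 2 → ℝ => Real.sqrt ((z 1 - (n : ℝ)⁻¹ * z 0 ^ 2) / N))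
        ![tr X₀, ip X₀ X₀] := by
      refine ContDiffAt.sqrt ?_ ?_
      · exact ((hz 1).sub (contDiffAt_const.mul ((hz 0).pow 2))).div_const N
      · show (ip X₀ X₀ - (n : ℝ)⁻¹ * tr X₀ ^ 2) / N ≠ 0
        rw [← hquad, ← hY₀d, ← hN, div_self hNpos.ne']
        exact one_ne_zero
    exact ((contDiffAt_const.mul (hz 0)).smul contDiffAt_const).add (hs.smul contDiffAt_const)
  -- the network
  let g : Fin (n * n + 1) → (Fin 2 → ℝ) → ℝ :=
    Fin.lastCases (fun z => f (G z)) fun _ z => z 0 * z 0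
  let u : Fin (n * n + 1) → Sy n → Fin 2 → ℝ :=
    Fin.lastCases (fun X => ![tr X, ip X X])
      fun j X => ![X.1 (finProdFinEquiv.symm j).1 (finProdFinEquiv.symm j).2, 0]
  have hlin : ∀ (ℓ : Sy n →L[ℝ] ℝ) (s : Set (Fin (n * n + 1))),
      (fun X => ℓ X) ∈ Avail g u s := fun ℓ s =>
    Submodule.mem_sup_left ⟨0, ℓ, by funext X; simp⟩
  refine ⟨g, u, fun j => ?_, fun j => ?_, fun X => g (Fin.last _) (u (Fin.last _) X), ?_, ?_⟩
  · refine Fin.lastCases (fun q => ?_) (fun j q => ?_) j
    · fin_cases q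
      · have := hlin (trL n) {i | i < Fin.last (n * n)}
        convert this using 2 with X
        show u (Fin.last (n * n)) X 0 = _
        simp only [u, Fin.lastCases_last, Matrix.cons_val_zero]
        rw [trL, ipL_apply, ip_one]
      · have h1 : (fun X : Sy n => u (Fin.last (n * n)) X 1) =
            ∑ j : Fin (n * n), fun X => g j.castSucc (u j.castSucc X) := by
          funext X
          simp only [u, g, Fin.lastCases_last, Fin.lastCases_castSucc, Matrix.cons_val_one,
            Matrix.cons_val_zero, Finset.sum_apply]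
          rw [← (finProdFinEquiv (m := n) (n := n)).sum_comp, Fintype.sum_prod_type]
          simp only [Equiv.symm_apply_apply]
          rfl
        show (fun X : Sy n => u (Fin.last (n * n)) X 1) ∈ _
        rw [h1]
        exact Submodule.sum_mem _ fun j _ => Submodule.mem_sup_right
          (Submodule.subset_span ⟨j.castSucc, Fin.castSucc_lt_last j, rfl⟩)
    · fin_cases q
      · have := hlin (entL (finProdFinEquiv.symm j).1 (finProdFinEquiv.symm j).2)
          {i | i < j.castSucc}
        convert this using 2 with X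
        show u j.castSucc X 0 = _
        simp only [u, Fin.lastCases_castSucc, Matrix.cons_val_zero]
        rfl
      · have := hlin 0 {i | i < j.castSucc}
        convert this using 2 with X
        show u j.castSucc X 1 = _
        simp only [u, Fin.lastCases_castSucc, Matrix.cons_val_one, Matrix.cons_val_zero]
        simp
  · refine Fin.lastCases ?_ (fun j => ?_) j
    · simp only [g, u, Fin.lastCases_last]
      refine ContDiffAt.comp _ ?_ hGC
      rw [hG0]
      exact (han X₀ hX₀).contDiffAt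
    · simp only [g, u, Fin.lastCases_castSucc]
      have hz : ∀ z, ContDiffAt ℝ 3 (fun z : Fin 2 → ℝ => z 0) z :=
        fun z => (ContinuousLinearMap.proj (R := ℝ) (φ := fun _ : Fin 2 => ℝ) 0).contDiff.contDiffAt
      exact (hz _).mul (hz _)
  · exact Submodule.mem_sup_right (Submodule.subset_span ⟨_, trivial, rfl⟩)
  · filter_upwards [hG] with X hX
    rw [hX]
    simp only [g, u, Fin.lastCases_last]

end Pool.Agent.Q225.Smo
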