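import Pool.Agent.Q225.Smo.SDefs
import Pool.Agent.Q225.Smo.Rot
import Pool.Agent.Q225.Smo.Gen

set_option autoImplicit false

/-!
# The frame of a function of the eigenvalues of a symmetric matrix
-/

namespace Pool.Agent.Q225.Smo

open Matrix Filter Topology

variable {n : ℕ}

/-- the matrix of an element of `Sy n` -/
def M (X : Sy n) : Matrix (Fin n) (Fin n) ℝ := Matrix.of X.1

theorem M_inj {X Y : Sy n} (h : M X = M Y) : X = Y := by
  apply Subtype.ext
  funext i j
  exact congrFun (congrFun h i) j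

theorem M_symm (X : Sy n) : (M X)ᵀ = M X := by
  ext p q
  exact X.2 q p

/-- an element of `Sy n` from a symmetric matrix -/
def mk (A : Matrix (Fin n) (Fin n) ℝ) (h : Aᵀ = A) : Sy n :=
  ⟨fun i j => A i j, fun i j => congrFun (congrFun h j) i⟩

theorem M_mk (A : Matrix (Fin n) (Fin n) ℝ) (h : Aᵀ = A) : M (mk A h) = A := rfl

theorem M_add (X Y : Sy n) : M (X + Y) = M X + M Y := rfl
theorem M_sub (X Y : Sy n) : M (X - Y) = M X - M Y := rfl
theorem M_neg (X : Sy n) : M (-X) = - M X := rfl
theorem M_zero : M (0 : Sy n) = 0 := rfl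
theorem M_smul (r : ℝ) (X : Sy n) : M (r • X) = r • M X := rfl
theorem M_conj (Q : Matrix (Fin n) (Fin n) ℝ) (X : Sy n) : M (conj Q X) = Q * M X * Qᵀ := rfl
theorem M_dg (x : Fin n → ℝ) : M (dg x) = Matrix.diagonal x := by
  ext i j
  rw [Matrix.diagonal_apply]
  rfl

/-- the bracket with `Z a b` -/
noncomputable def brk (a b : Fin n) : Sy n →L[ℝ] Sy n :=
  LinearMap.toContinuousLinearMap
    { toFun := fun X => mk (Z a b * M X - M X * Z a b) (by
        rw [transpose_sub, transpose_mul, transpose_mul, Z_transpose, M_symm]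
        simp [Matrix.mul_neg, Matrix.neg_mul]
        abel)
      map_add' := fun X Y => M_inj (by
        show Z a b * (M X + M Y) - (M X + M Y) * Z a b =
          (Z a b * M X - M X * Z a b) + (Z a b * M Y - M Y * Z a b)
        noncomm_ring)
      map_smul' := fun r X => M_inj (by
        show Z a b * (r • M X) - (r • M X) * Z a b = r • (Z a b * M X - M X * Z a b)
        rw [Matrix.mul_smul, Matrix.smul_mul, smul_sub]) }

theorem M_brk (a b : Fin n) (X : Sy n) : M (brk a b X) = Z a b * M X - M X * Z a b := rfl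

/-- `E_ab + E_ba` -/
def S (a b : Fin n) : Sy n :=
  mk (Matrix.single a b 1 + Matrix.single b a 1) (by
    rw [transpose_add, transpose_single, transpose_single, add_comm])

theorem M_S (a b : Fin n) : M (S a b) = Matrix.single a b 1 + Matrix.single b a 1 := rfl

theorem hasDerivAt_sy {E : Type*} [NormedAddCommGroup E] [NormedSpace ℝ E] {W : Submodule ℝ E}
    {c : ℝ → W} {c' : W} {t : ℝ} (h : HasDerivAt (fun s => (c s : E)) (c' : E) t) :
    HasDerivAt c c' t := by
  rw [hasDerivAt_iff_isLittleO] at h ⊢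
  rw [← Asymptotics.isLittleO_norm_left] at h ⊢
  exact h

/-- the derivative of the rotated matrix -/
theorem conj_deriv {a b : Fin n} (X : Sy n) :
    HasDerivAt (fun t => conj (rot a b t) X) (brk a b X) 0 := by
  apply hasDerivAt_sy
  rw [hasDerivAt_pi]
  intro i
  rw [hasDerivAt_pi]
  intro j
  have h1 : (fun t => ((conj (rot a b t) X : Sy n) : Fin n → Fin n → ℝ) i j) =
      fun t => ∑ q, (∑ p, rot a b t i p * X.1 p q) * rot a b t j q := by
    funext t
    show (rot a b t * Matrix.of X.1 * (rot a b t)ᵀ) i j = _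
    simp only [Matrix.mul_apply, Matrix.of_apply, Matrix.transpose_apply]
  rw [h1]
  have h2 : HasDerivAt (fun t => ∑ q, (∑ p, rot a b t i p * X.1 p q) * rot a b t j q)
      (∑ q, ((∑ p, Z a b i p * X.1 p q) * rot a b 0 j q +
        (∑ p, rot a b 0 i p * X.1 p q) * Z a b j q)) 0 := by
    refine HasDerivAt.fun_sum fun q _ => ?_
    refine HasDerivAt.mul ?_ (rot_deriv a b j q)
    exact HasDerivAt.fun_sum fun p _ => (rot_deriv a b i p).mul_const _
  refine h2.congr_deriv ?_
  rw [rot_zero]
  show _ = (Z a b * Matrix.of X.1 - Matrix.of X.1 * Z a b) i j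
  simp only [Matrix.sub_apply, Matrix.mul_apply, Matrix.of_apply, Matrix.one_apply, ite_mul,
    one_mul, zero_mul, mul_ite, mul_one, mul_zero, Finset.sum_ite_eq, Finset.mem_univ, if_true,
    Finset.sum_add_distrib]
  have h3 : ∀ q, Z a b j q = - Z a b q j := fun q => by
    have := congrFun (congrFun (Z_transpose a b) q) j
    simpa using this
  simp only [h3, mul_neg, Finset.sum_neg_distrib, sub_eq_add_neg]

/-- invariance under orthogonal transformations -/
theorem tan_of_inv {f : Sy n → ℝ} {X : Sy n} (hd : DifferentiableAt ℝ f X)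
    (h : ∀ Q ∈ Matrix.orthogonalGroup (Fin n) ℝ, f (conj Q X) = f X) {a b : Fin n}
    (hab : a ≠ b) : fderiv ℝ f X (brk a b X) = 0 := by
  have h0 : conj (rot a b 0) X = X := M_inj (by rw [M_conj, rot_zero]; simp)
  have h1 : HasFDerivAt f (fderiv ℝ f X) (conj (rot a b 0) X) := by
    rw [h0]; exact hd.hasFDerivAt
  have h2 := h1.comp_hasDerivAt (0 : ℝ) (conj_deriv (a := a) (b := b) X)
  have h3 : HasDerivAt (f ∘ fun t => conj (rot a b t) X) 0 0 := by
    have : (f ∘ fun t => conj (rot a b t) X) = fun _ => f X := by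
      funext t
      exact h _ (rot_mem hab t)
    rw [this]
    exact hasDerivAt_const _ _
  exact h2.unique h3

/-- **The frame.** -/
theorem frame_sy {f : Sy n → ℝ} {x : Fin n → ℝ} (hf : ContDiffAt ℝ 3 f (dg x))
    (h : ∀ᶠ X in 𝓝 (dg x), ∀ Q ∈ Matrix.orthogonalGroup (Fin n) ℝ, f (conj Q X) = f X) :
    Frame f (dg x) x S (fun a => S a a) brk where
  smooth := hf
  symm := fun a b => M_inj (by rw [M_S, M_S, add_comm])
  tan := fun a b hab => by
    filter_upwards [h, evC (n := 3) hf] with X hX hC
    exact tan_of_inv (hC.differentiableAt (by norm_num)) hX hab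
  base := fun a b hab => M_inj (by
    rw [M_brk, M_smul, M_S, M_dg, Z]
    ext i j
    simp only [Matrix.sub_apply, Matrix.smul_apply, Matrix.add_apply, Matrix.single_apply,
      smul_eq_mul, Matrix.mul_diagonal, Matrix.diagonal_mul]
    by_cases h1 : a = i ∧ b = j
    · obtain ⟨rfl, rfl⟩ := h1
      simp [hab]
    by_cases h2 : b = i ∧ a = j
    · obtain ⟨rfl, rfl⟩ := h2
      simp [hab]
      ring
    simp [h1, h2])
  diag := fun a b hab => M_inj (by
    rw [M_brk, M_sub, M_S, M_S, M_S, Z]
    simp [Matrix.sub_mul, Matrix.mul_sub, Matrix.mul_add, Matrix.add_mul,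
      Matrix.single_mul_single_same, Matrix.single_mul_single_of_ne, hab, hab.symm]
    abel)
  adj := fun a b c hab hca hcb => M_inj (by
    rw [M_brk, M_S, M_S, Z]
    simp [Matrix.sub_mul, Matrix.mul_sub, Matrix.mul_add, Matrix.add_mul,
      Matrix.single_mul_single_same, Matrix.single_mul_single_of_ne, hab, hab.symm, hca,
      hca.symm, hcb, hcb.symm])
  adj' := fun a b c hab hca hcb => M_inj (by
    rw [M_brk, M_neg, M_S, M_S, Z]
    simp [Matrix.sub_mul, Matrix.mul_sub, Matrix.mul_add, Matrix.add_mul,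
      Matrix.single_mul_single_same, Matrix.single_mul_single_of_ne, hab, hab.symm, hca,
      hca.symm, hcb, hcb.symm]
    abel)
  far := fun a b c d hab hca hcb hda hdb hcd => M_inj (by
    rw [M_brk, M_S, M_zero, Z]
    simp [Matrix.sub_mul, Matrix.mul_sub, Matrix.mul_add, Matrix.add_mul,
      Matrix.single_mul_single_of_ne, hca, hca.symm, hcb, hcb.symm, hda, hda.symm, hdb,
      hdb.symm])

end Pool.Agent.Q225.Smo
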