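import Pool.Agent.Q225.Smo.SFrame

set_option autoImplicit false

/-!
# Orthogonal transformations of symmetric matrices
-/

namespace Pool.Agent.Q225.Smo

open Matrix Filter Topology

variable {n : ℕ}

/-- `X ↦ Q X Qᵀ` as a continuous linear map -/
noncomputable def conjL (Q : Matrix (Fin n) (Fin n) ℝ) : Sy n →L[ℝ] Sy n :=
  LinearMap.toContinuousLinearMap
    { toFun := fun X => conj Q X
      map_add' := fun X Y => M_inj (by
        show Q * (M X + M Y) * Qᵀ = Q * M X * Qᵀ + Q * M Y * Qᵀ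
        noncomm_ring)
      map_smul' := fun r X => M_inj (by
        show Q * (r • M X) * Qᵀ = r • (Q * M X * Qᵀ)
        rw [Matrix.mul_smul, Matrix.smul_mul]) }

theorem conjL_apply (Q : Matrix (Fin n) (Fin n) ℝ) (X : Sy n) : conjL Q X = conj Q X := rfl

theorem orth_iff {Q : Matrix (Fin n) (Fin n) ℝ} :
    Q ∈ Matrix.orthogonalGroup (Fin n) ℝ ↔ Qᵀ * Q = 1 := by
  rw [Matrix.mem_orthogonalGroup_iff']

theorem orth_transpose {Q : Matrix (Fin n) (Fin n) ℝ}
    (h : Q ∈ Matrix.orthogonalGroup (Fin n) ℝ) : Qᵀ ∈ Matrix.orthogonalGroup (Fin n) ℝ := by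
  rw [orth_iff, transpose_transpose]
  exact (Matrix.mem_orthogonalGroup_iff _ _).1 h

theorem conj_conj {Q : Matrix (Fin n) (Fin n) ℝ}
    (h : Q ∈ Matrix.orthogonalGroup (Fin n) ℝ) (X : Sy n) : conj Qᵀ (conj Q X) = X := by
  apply M_inj
  rw [M_conj, M_conj, transpose_transpose]
  have h1 := orth_iff.1 h
  calc Qᵀ * (Q * M X * Qᵀ) * Q = (Qᵀ * Q) * M X * (Qᵀ * Q) := by simp only [Matrix.mul_assoc]
    _ = M X := by rw [h1]; simp

theorem conj_conj' {Q : Matrix (Fin n) (Fin n) ℝ}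
    (h : Q ∈ Matrix.orthogonalGroup (Fin n) ℝ) (X : Sy n) : conj Q (conj Qᵀ X) = X := by
  have := conj_conj (orth_transpose h) X
  rwa [transpose_transpose] at this

/-- every symmetric matrix is orthogonally equivalent to a diagonal one -/
theorem exists_diag (X : Sy n) : ∃ Q ∈ Matrix.orthogonalGroup (Fin n) ℝ, ∃ x : Fin n → ℝ,
    X = conj Q (dg x) := by
  have hH : (M X).IsHermitian := by
    rw [Matrix.IsHermitian, Matrix.conjTranspose_eq_transpose_of_trivial]
    exact M_symm X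
  refine ⟨(hH.eigenvectorUnitary : Matrix (Fin n) (Fin n) ℝ), hH.eigenvectorUnitary.2,
    hH.eigenvalues, M_inj ?_⟩
  rw [M_conj, M_dg]
  have := hH.spectral_theorem
  rw [Unitary.conjStarAlgAut_apply] at this
  have h1 : (star (hH.eigenvectorUnitary : Matrix (Fin n) (Fin n) ℝ)) =
      (hH.eigenvectorUnitary : Matrix (Fin n) (Fin n) ℝ)ᵀ := by
    rw [Matrix.star_eq_conjTranspose, Matrix.conjTranspose_eq_transpose_of_trivial]
  have h2 : (RCLike.ofReal ∘ hH.eigenvalues : Fin n → ℝ) = hH.eigenvalues := by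
    funext i; simp
  rw [h2] at this
  rw [← h1]
  exact this

theorem fderiv_conj {Ω : Set (Sy n)} (hΩ : IsOpen Ω) {f : Sy n → ℝ}
    (hd : ∀ X ∈ Ω, DifferentiableAt ℝ f X)
    (hinv : ∀ Q ∈ Matrix.orthogonalGroup (Fin n) ℝ, ∀ X ∈ Ω, conj Q X ∈ Ω ∧ f (conj Q X) = f X)
    {Q : Matrix (Fin n) (Fin n) ℝ} (hQ : Q ∈ Matrix.orthogonalGroup (Fin n) ℝ) {X : Sy n}
    (hX : X ∈ Ω) (H : Sy n) : fderiv ℝ f (conj Q X) (conj Q H) = fderiv ℝ f X H := by
  have h1 : HasFDerivAt (fun Y => f (conjL Q Y)) ((fderiv ℝ f (conj Q X)).comp (conjL Q)) X :=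
    (hd _ (hinv Q hQ X hX).1).hasFDerivAt.comp X (conjL Q).hasFDerivAt
  have h2 : HasFDerivAt f ((fderiv ℝ f (conj Q X)).comp (conjL Q)) X := by
    refine h1.congr_of_eventuallyEq ?_
    filter_upwards [hΩ.mem_nhds hX] with Y hY
    exact (hinv Q hQ Y hY).2.symm
  rw [h2.fderiv]
  rfl

/-- the permutation matrix -/
def Pm (σ : Equiv.Perm (Fin n)) : Matrix (Fin n) (Fin n) ℝ :=
  Matrix.of fun i j => if σ i = j then 1 else 0

theorem Pm_conj (σ : Equiv.Perm (Fin n)) (A : Matrix (Fin n) (Fin n) ℝ) (i j : Fin n) :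
    (Pm σ * A * (Pm σ)ᵀ) i j = A (σ i) (σ j) := by
  simp [Pm, Matrix.mul_apply]

theorem Pm_mem (σ : Equiv.Perm (Fin n)) : Pm σ ∈ Matrix.orthogonalGroup (Fin n) ℝ := by
  rw [Matrix.mem_orthogonalGroup_iff]
  ext i j
  have := Pm_conj σ 1 i j
  rw [Matrix.mul_one] at this
  rw [this, Matrix.one_apply, Matrix.one_apply]
  simp

theorem conj_Pm_dg (σ : Equiv.Perm (Fin n)) (x : Fin n → ℝ) :
    conj (Pm σ) (dg x) = dg (x ∘ σ) := by
  apply M_inj
  ext i j
  rw [M_conj, M_dg, M_dg, Pm_conj, Matrix.diagonal_apply, Matrix.diagonal_apply]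
  simp

theorem conj_Pm_S (σ : Equiv.Perm (Fin n)) (a b : Fin n) :
    conj (Pm σ) (S (σ a) (σ b)) = S a b := by
  apply M_inj
  ext i j
  rw [M_conj, M_S, M_S, Pm_conj]
  simp [Matrix.single_apply]

/-- the sign matrix -/
def Sg (a : Fin n) : Matrix (Fin n) (Fin n) ℝ :=
  Matrix.diagonal fun i => if i = a then -1 else 1

theorem Sg_mem (a : Fin n) : Sg a ∈ Matrix.orthogonalGroup (Fin n) ℝ := by
  rw [Matrix.mem_orthogonalGroup_iff]
  rw [Sg, Matrix.diagonal_transpose, Matrix.diagonal_mul_diagonal, ← Matrix.diagonal_one]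
  congr 1
  funext i
  by_cases h : i = a <;> simp [h]

theorem conj_Sg_dg (a : Fin n) (x : Fin n → ℝ) : conj (Sg a) (dg x) = dg x := by
  apply M_inj
  rw [M_conj, M_dg, Sg, Matrix.diagonal_transpose, Matrix.diagonal_mul_diagonal,
    Matrix.diagonal_mul_diagonal]
  congr 1
  funext i
  by_cases h : i = a <;> simp [h]

theorem conj_Sg_S {a b : Fin n} (hab : a ≠ b) : conj (Sg a) (S a b) = - S a b := by
  apply M_inj
  ext i j
  rw [M_conj, M_neg, M_S, Sg, Matrix.diagonal_transpose, Matrix.mul_diagonal,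
    Matrix.diagonal_mul, Matrix.neg_apply]
  by_cases h1 : a = i ∧ b = j
  · obtain ⟨rfl, rfl⟩ := h1
    simp [hab, hab.symm]
  by_cases h2 : b = i ∧ a = j
  · obtain ⟨rfl, rfl⟩ := h2
    simp [hab, hab.symm]
  simp [h1, h2]

/-- expansion in terms of the `S i j` -/
theorem expand (H : Sy n) : H = (2 : ℝ)⁻¹ • ∑ i, ∑ j, H.1 i j • S i j := by
  have hM : ∀ (s : Finset (Fin n)) (g : Fin n → Sy n), M (∑ i ∈ s, g i) = ∑ i ∈ s, M (g i) := by
    intro s g
    classical
    induction s using Finset.induction_on with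
    | empty => simp [M_zero]
    | insert a s ha ih => rw [Finset.sum_insert ha, Finset.sum_insert ha, M_add, ih]
  apply M_inj
  rw [M_smul, hM]
  ext p q
  have h1 : ∀ i, M (∑ j, H.1 i j • S i j) = ∑ j, H.1 i j • M (S i j) := by
    intro i
    rw [hM]
    rfl
  simp only [h1, Matrix.smul_apply, Matrix.sum_apply, M_S, Matrix.add_apply, Matrix.single_apply,
    smul_eq_mul, mul_add, Finset.sum_add_distrib]
  have h2 : ∑ i, ∑ j, H.1 i j * (if i = p ∧ j = q then (1 : ℝ) else 0) = H.1 p q := by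
    rw [Finset.sum_eq_single p, Finset.sum_eq_single q] <;> simp +contextual
  have h3 : ∑ i, ∑ j, H.1 i j * (if j = p ∧ i = q then (1 : ℝ) else 0) = H.1 q p := by
    rw [Finset.sum_eq_single q, Finset.sum_eq_single p] <;> simp +contextual
  rw [h2, h3, H.2 q p]
  show H.1 p q = _
  ring

end Pool.Agent.Q225.Smo
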