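import Pool.Agent.Q225.Smo.SDefs

set_option autoImplicit false

/-!
# The normed space of symmetric matrices
-/

namespace Pool.Agent.Q225.Smo

/-- The space `Sy n` of the real symmetric `n × n` matrices, as a type. -/
def SymMat (n : ℕ) : Type := Sy n

/-- the norm is the largest absolute value of an entry -/
noncomputable instance (n : ℕ) : NormedAddCommGroup (SymMat n) :=
  Submodule.normedAddCommGroup (Sy n)

noncomputable instance (n : ℕ) : NormedSpace ℝ (SymMat n) :=
  Submodule.normedSpace (Sy n)

namespace SymMat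

variable {n : ℕ}

/-- `Q X Qᵀ` -/
def rotate (Q : Matrix (Fin n) (Fin n) ℝ) (X : SymMat n) : SymMat n := conj Q X

/-- the diagonal matrix with the entries `x i` -/
def diagonal (x : Fin n → ℝ) : SymMat n := dg x

/-- the trace -/
def trace (X : SymMat n) : ℝ := tr X

/-- `tr (X H)` -/
def inner (X H : SymMat n) : ℝ := ip X H

/-- `Ω` and `f` are invariant under `X ↦ Q X Qᵀ` for all orthogonal matrices `Q`. -/
def Invariant (Ω : Set (SymMat n)) (f : SymMat n → ℝ) : Prop :=
  ∀ Q ∈ Matrix.orthogonalGroup (Fin n) ℝ, ∀ X ∈ Ω, rotate Q X ∈ Ω ∧ f (rotate Q X) = f X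

end SymMat

end Pool.Agent.Q225.Smo
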