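import Pool.Agent.Q225.Smo.Net

set_option autoImplicit false

/-!
# The third derivative of a function given by a network has small rank
-/

namespace Pool.Agent.Q225.Smo

open Filter Topology

section sym

variable {V : Type*} [NormedAddCommGroup V] [NormedSpace ℝ V]

/-- the third derivative -/
noncomputable def D3 (f : V → ℝ) (x : V) : V →L[ℝ] V →L[ℝ] V →L[ℝ] ℝ :=
  fderiv ℝ (fderiv ℝ (fderiv ℝ f)) x

theorem sym2 {F : Type*} [NormedAddCommGroup F] [NormedSpace ℝ F] {f : V → F} {x : V}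
    (hf : ContDiffAt ℝ 2 f x) (a b : V) :
    fderiv ℝ (fderiv ℝ f) x a b = fderiv ℝ (fderiv ℝ f) x b a :=
  (hf.isSymmSndFDerivAt (by simp)) a b

theorem D3_12 {f : V → ℝ} {x : V} (hf : ContDiffAt ℝ 3 f x) (a b c : V) :
    D3 f x a b c = D3 f x b a c := by
  have := sym2 (f := fderiv ℝ f) (x := x) (hf.fderiv_right (m := 2) (by norm_num)) a b
  unfold D3
  rw [this]

theorem D3_23 {f : V → ℝ} {x : V} (hf : ContDiffAt ℝ 3 f x) (a b c : V) :
    D3 f x a b c = D3 f x a c b := by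
  have hC : ContDiffAt ℝ 1 (fderiv ℝ (fderiv ℝ f)) x :=
    (hf.fderiv_right (m := 2) (by norm_num)).fderiv_right (m := 1) (by norm_num)
  have hd := (hC.differentiableAt (by norm_num)).hasFDerivAt
  have h1 : ∀ b c : V, HasFDerivAt (fun y => fderiv ℝ (fderiv ℝ f) y b c)
      (((ContinuousLinearMap.apply ℝ ℝ c).comp (ContinuousLinearMap.apply ℝ _ b)).comp
        (fderiv ℝ (fderiv ℝ (fderiv ℝ f)) x)) x := by
    intro b c
    exact ((ContinuousLinearMap.apply ℝ ℝ c).comp
      (ContinuousLinearMap.apply ℝ _ b)).hasFDerivAt.comp x hd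
  have h2 : (fun y => fderiv ℝ (fderiv ℝ f) y b c) =ᶠ[𝓝 x]
      fun y => fderiv ℝ (fderiv ℝ f) y c b := by
    filter_upwards [evC (n := 3) hf] with y hy
    exact sym2 (hy.of_le (by norm_num)) b c
  have h3 := (h1 b c).congr_of_eventuallyEq h2.symm
  have := congrArg (fun φ => φ a) (h3.unique (h1 c b))
  simpa [D3] using this

omit [NormedSpace ℝ V] in
theorem polar {S : V → V → V → ℝ} (add1 : ∀ a a' b c, S (a + a') b c = S a b c + S a' b c)
    (s12 : ∀ a b c, S a b c = S b a c) (s23 : ∀ a b c, S a b c = S a c b)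
    (h : ∀ w, S w w w = 0) (a b c : V) : S a b c = 0 := by
  have add2 : ∀ a b b' c, S a (b + b') c = S a b c + S a b' c := by
    intro a b b' c
    rw [s12, add1, s12 b, s12 b']
  have add3 : ∀ a b c c', S a b (c + c') = S a b c + S a b c' := by
    intro a b c c'
    rw [s23, add2, s23 a c, s23 a c']
  have h1 := h (a + b + c)
  have h2 := h (a + b)
  have h3 := h (a + c)
  have h4 := h (b + c)
  have ha := h a
  have hb := h b
  have hc := h c
  simp only [add1, add2, add3] at h1 h2 h3 h4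
  have e1 := s12 a b c
  have e2 := s23 a b c
  have e3 := s12 a c b
  have e4 := s23 b a c
  have e5 := s12 b c a
  have e6 := s23 c a b
  linarith

end sym

section rank

variable {V : Type} [NormedAddCommGroup V] [NormedSpace ℝ V] {k L : ℕ}

theorem dd_D3 {f : V → ℝ} {x : V} (hf : ContDiffAt ℝ 3 f x) (w : V) :
    dd 3 f x w = D3 f x w w w := by
  have h1 : ContDiffAt ℝ 3 (fun t : ℝ => x + t • w) 0 :=
    contDiffAt_const.add (contDiffAt_id.smul contDiffAt_const)
  have h2 : deriv (fun t : ℝ => x + t • w) = fun _ => w := by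
    funext t
    have := ((hasDerivAt_id t).smul_const w).const_add x
    simpa using this.deriv
  have h3 := (comp3 (g := f) (c := fun t : ℝ => x + t • w) (t := 0) (by simpa using hf) h1).2.2
  rw [dd_three]
  have h' : ln f x w = fun s => f (x + s • w) := rfl
  rw [h', h3, h2]
  simp [D3]

variable {g : Fin L → (Fin k → ℝ) → ℝ} {u : Fin L → V → Fin k → ℝ} {x : V}

theorem Q3_sum {h : V → ℝ} (hh : h ∈ Q3 g u x) :
    ∃ (ℓ : Fin L → V →L[ℝ] ℝ) (c : Fin L → ℝ),
      ∀ w, h w = ∑ i, (ℓ i w * qf g u x i w + c i * kf g u x i w) := by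
  classical
  unfold Q3 at hh
  induction hh using Submodule.span_induction with
  | mem h hm =>
    rcases hm with ⟨i, ℓ, rfl⟩ | ⟨i, rfl⟩
    · refine ⟨fun j => if j = i then ℓ else 0, 0, fun w => ?_⟩
      rw [Finset.sum_eq_single i (fun j _ hj => by simp [hj]) (by simp)]
      simp
    · refine ⟨0, fun j => if j = i then 1 else 0, fun w => ?_⟩
      rw [Finset.sum_eq_single i (fun j _ hj => by simp [hj]) (by simp)]
      simp
  | zero => exact ⟨0, 0, by simp⟩
  | add a b _ _ ha hb =>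
    obtain ⟨ℓ, c, h1⟩ := ha
    obtain ⟨ℓ', c', h2⟩ := hb
    refine ⟨ℓ + ℓ', c + c', fun w => ?_⟩
    rw [Pi.add_apply, h1, h2, ← Finset.sum_add_distrib]
    refine Finset.sum_congr rfl fun i _ => ?_
    simp only [Pi.add_apply, add_apply]
    ring
  | smul r a _ ha =>
    obtain ⟨ℓ, c, h1⟩ := ha
    refine ⟨r • ℓ, r • c, fun w => ?_⟩
    rw [Pi.smul_apply, h1, smul_eq_mul, Finset.mul_sum]
    refine Finset.sum_congr rfl fun i _ => ?_
    simp only [Pi.smul_apply, smul_apply, smul_eq_mul]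
    ring

/-- the third derivative in terms of the gates -/
theorem third_formula (hu : ∀ j p, (fun y => u j y p) ∈ Avail g u {i | i < j})
    (hg : ∀ j, ContDiffAt ℝ 3 (g j) (u j x)) {f h : V → ℝ} (hh : h ∈ Avail g u Set.univ)
    (hfh : ∀ᶠ y in 𝓝 x, f y = h y) :
    ContDiffAt ℝ 3 f x ∧ ∃ (ℓ : Fin L → V →L[ℝ] ℝ) (c : Fin L → ℝ), ∀ a b d : V,
      D3 f x a b d = ∑ i, (ℓ i a * fderiv ℝ (fderiv ℝ (g i)) (u i x) (U u x i b) (U u x i d) +
        ℓ i b * fderiv ℝ (fderiv ℝ (g i)) (u i x) (U u x i a) (U u x i d) +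
        ℓ i d * fderiv ℝ (fderiv ℝ (g i)) (u i x) (U u x i a) (U u x i b) +
        c i * D3 (g i) (u i x) (U u x i a) (U u x i b) (U u x i d)) := by
  have hgood := good_all hu hg hh
  have hfC : ContDiffAt ℝ 3 f x := hgood.1.congr_of_eventuallyEq hfh
  refine ⟨hfC, ?_⟩
  have hdd : dd 3 f x = dd 3 h x := by
    funext w
    unfold dd
    have h1 : ContinuousAt (fun t : ℝ => x + t • w) 0 := by fun_prop
    have h2 : ∀ᶠ t in 𝓝 (0 : ℝ), f (x + t • w) = h (x + t • w) :=
      h1.eventually (by simpa using hfh)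
    exact Filter.EventuallyEq.iteratedDeriv_eq 3 h2
  obtain ⟨ℓ, c, hlc⟩ := Q3_sum hgood.2.2
  refine ⟨fun i => (3 : ℝ)⁻¹ • ℓ i, c, fun a b d => ?_⟩
  have hU : ∀ i a b, U u x i (a + b) = U u x i a + U u x i b := fun i a b => by
    simp [U, map_add]
  have s2 : ∀ i y z, fderiv ℝ (fderiv ℝ (g i)) (u i x) y z =
      fderiv ℝ (fderiv ℝ (g i)) (u i x) z y :=
    fun i y z => sym2 ((hg i).of_le (by norm_num)) y z
  have key := polar (S := fun a b d => D3 f x a b d -
      ∑ i, (((3 : ℝ)⁻¹ • ℓ i) a * fderiv ℝ (fderiv ℝ (g i)) (u i x) (U u x i b) (U u x i d) +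
        ((3 : ℝ)⁻¹ • ℓ i) b * fderiv ℝ (fderiv ℝ (g i)) (u i x) (U u x i a) (U u x i d) +
        ((3 : ℝ)⁻¹ • ℓ i) d * fderiv ℝ (fderiv ℝ (g i)) (u i x) (U u x i a) (U u x i b) +
        c i * D3 (g i) (u i x) (U u x i a) (U u x i b) (U u x i d)))
    (fun a a' b d => ?_) (fun a b d => ?_) (fun a b d => ?_) (fun w => ?_) a b d
  · linarith
  · have : ∀ S1 S2 S3 T1 T2 T3 : ℝ, S1 = S2 + S3 → T1 = T2 + T3 →
        S1 - T1 = (S2 - T2) + (S3 - T3) := by intros; linarith
    apply this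
    · simp
    · rw [← Finset.sum_add_distrib]
      refine Finset.sum_congr rfl fun i _ => ?_
      simp only [hU, map_add, add_apply]
      ring
  · rw [D3_12 hfC a b d]
    congr 1
    refine Finset.sum_congr rfl fun i _ => ?_
    rw [D3_12 (hg i), s2 i (U u x i a) (U u x i b)]
    ring
  · rw [D3_23 hfC a b d]
    congr 1
    refine Finset.sum_congr rfl fun i _ => ?_
    rw [D3_23 (hg i), s2 i (U u x i b) (U u x i d)]
    ring
  · rw [← dd_D3 hfC, hdd, hlc, sub_eq_zero]
    refine Finset.sum_congr rfl fun i _ => ?_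
    simp only [smul_apply, smul_eq_mul, qf, kf, D3]
    ring

end rank

end Pool.Agent.Q225.Smo
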