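import Pool.Agent.Q225.Smo.Defs

set_option autoImplicit false

/-!
# Functions of the singular values of a matrix: definitions
-/

namespace Pool.Agent.Q225.Smo

/-- The real `n × n` matrices, as a type with the maximum norm. -/
def SqMat (n : ℕ) : Type := Fin n → Fin n → ℝ

noncomputable instance (n : ℕ) : NormedAddCommGroup (SqMat n) :=
  Pi.normedAddCommGroup (ι := Fin n) (G := fun _ => Fin n → ℝ)

noncomputable instance (n : ℕ) : NormedSpace ℝ (SqMat n) :=
  Pi.normedSpace (ι := Fin n) (E := fun _ => Fin n → ℝ)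

namespace SqMat

variable {n : ℕ}

/-- `P X Q` -/
def rotate (P Q : Matrix (Fin n) (Fin n) ℝ) (X : SqMat n) : SqMat n :=
  fun i j => (P * Matrix.of X * Q) i j

/-- the diagonal matrix with the entries `x i` -/
def diagonal (x : Fin n → ℝ) : SqMat n := fun i j => if i = j then x i else 0

/-- the inner product `∑ x_{ij} h_{ij}` -/
def inner (X H : SqMat n) : ℝ := ∑ i, ∑ j, X i j * H i j

/-- `Ω` and `f` are invariant under `X ↦ P X Q` for all orthogonal matrices `P`, `Q`. -/
def Invariant (Ω : Set (SqMat n)) (f : SqMat n → ℝ) : Prop :=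
  ∀ P ∈ Matrix.orthogonalGroup (Fin n) ℝ, ∀ Q ∈ Matrix.orthogonalGroup (Fin n) ℝ, ∀ X ∈ Ω,
    rotate P Q X ∈ Ω ∧ f (rotate P Q X) = f X

end SqMat

end Pool.Agent.Q225.Smo
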