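import Pool.Agent.Q225.Smo.UInv
import Pool.Agent.Q225.Smo.SMain

set_option autoImplicit false

/-!
# Functions of the singular values: the lower bound
-/

namespace Pool.Agent.Q225.Smo

open Matrix Filter Topology Pool.Agent.W956.KF

variable {n : ℕ}

/-- `diagonal` as a continuous linear map -/
noncomputable def diaL (n : ℕ) : (Fin n → ℝ) →L[ℝ] SqMat n :=
  LinearMap.toContinuousLinearMap
    { toFun := fun x => SqMat.diagonal x
      map_add' := fun x y => N_inj (by
        rw [N_add, N_diagonal, N_diagonal, N_diagonal, Matrix.diagonal_add]; rfl)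
      map_smul' := fun r x => N_inj (by
        rw [RingHom.id_apply, N_smul, N_diagonal, N_diagonal, ← Matrix.diagonal_smul]) }

theorem diaL_apply (x : Fin n → ℝ) : diaL n x = SqMat.diagonal x := rfl

/-- the positive diagonal matrices in `Ω` -/
def Dp (Ω : Set (SqMat n)) : Set (Fin n → ℝ) := {x | (∀ i, 0 < x i) ∧ SqMat.diagonal x ∈ Ω}

/-- the assumptions -/
structure UInv (Ω : Set (SqMat n)) (f : SqMat n → ℝ) : Prop where
  op : IsOpen Ω
  conn : IsPreconnected (Dp Ω)
  an : AnalyticOnNhd ℝ f Ω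
  inv : SqMat.Invariant Ω f

/-- the derivatives in the directions of the diagonal -/
noncomputable def psi (f : SqMat n → ℝ) (x : Fin n → ℝ) (a : Fin n) : ℝ :=
  fderiv ℝ f (SqMat.diagonal x) (Eu a a)

/-- the signed area -/
noncomputable def Ws (s : Fin 4 → ℝ) (x φ : Fin n → ℝ) (a b c d : Fin n) : ℝ :=
  (s 0 * x a - s 1 * x b) * (s 2 * φ c - s 3 * φ d) -
    (s 0 * φ a - s 1 * φ b) * (s 2 * x c - s 3 * x d)

section

variable {Ω : Set (SqMat n)} {f : SqMat n → ℝ} (h : UInv Ω f)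

include h

theorem UInv.diff {X : SqMat n} (hX : X ∈ Ω) : DifferentiableAt ℝ f X :=
  (h.an X hX).differentiableAt

theorem UInv.open_D : IsOpen (Dp Ω) := by
  have h1 : IsOpen {x : Fin n → ℝ | ∀ i, 0 < x i} := by
    have : {x : Fin n → ℝ | ∀ i, 0 < x i} = ⋂ i, {x | 0 < x i} := by ext; simp
    rw [this]
    exact isOpen_iInter_of_finite fun i => isOpen_lt continuous_const (continuous_apply i)
  exact h1.inter (h.op.preimage (diaL n).continuous)

theorem UInv.psi_an (a : Fin n) : AnalyticOnNhd ℝ (fun x => psi f x a) (Dp Ω) := by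
  have h1 : AnalyticOnNhd ℝ (fderiv ℝ f) Ω := h.an.fderiv
  have h2 : AnalyticOnNhd ℝ (fun x => fderiv ℝ f (diaL n x)) (Dp Ω) := fun x hx =>
    (h1 (diaL n x) hx.2).comp ((diaL n).analyticAt x)
  intro x hx
  exact ((ContinuousLinearMap.apply ℝ ℝ (Eu a a)).analyticAt _).comp (h2 x hx)

theorem UInv.psi_perm {x : Fin n → ℝ} (hx : SqMat.diagonal x ∈ Ω) (σ : Equiv.Perm (Fin n))
    (a : Fin n) : psi f (x ∘ σ) a = psi f x (σ a) := by
  have := fderiv_rot h.op (fun X hX => h.diff hX) h.inv (Pm_mem σ) (orth_transpose (Pm_mem σ)) hx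
    (Eu (σ a) (σ a))
  rw [rot_Pm_diagonal, rot_Pm_Eu] at this
  exact this

theorem UInv.perm_mem {x : Fin n → ℝ} (hx : x ∈ Dp Ω) (σ : Equiv.Perm (Fin n)) :
    x ∘ σ ∈ Dp Ω := by
  refine ⟨fun i => hx.1 _, ?_⟩
  rw [← rot_Pm_diagonal]
  exact (h.inv _ (Pm_mem σ) _ (orth_transpose (Pm_mem σ)) _ hx.2).1

theorem UInv.off {x : Fin n → ℝ} (hx : SqMat.diagonal x ∈ Ω) {a b : Fin n} (hab : a ≠ b) :
    fderiv ℝ f (SqMat.diagonal x) (Eu a b) = 0 := by
  have := fderiv_rot h.op (fun X hX => h.diff hX) h.inv (Sg_mem a) (Sg_mem a) hx (Eu a b)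
  rw [rot_Sg_diagonal, rot_Sg_Eu hab, map_neg] at this
  linarith

theorem UInv.fderiv_diagonal {x : Fin n → ℝ} (hx : SqMat.diagonal x ∈ Ω) (H : SqMat n) :
    fderiv ℝ f (SqMat.diagonal x) H = ∑ i, H i i * psi f x i := by
  conv_lhs => rw [expandU H]
  rw [map_sum]
  refine Finset.sum_congr rfl fun i _ => ?_
  rw [map_sum, Finset.sum_eq_single i]
  · rw [map_smul, smul_eq_mul]
    rfl
  · intro j _ hj
    rw [map_smul, h.off hx (Ne.symm hj), smul_zero]
  · simp

theorem UInv.Ws_perm (s : Fin 4 → ℝ) {x : Fin n → ℝ} (hx : SqMat.diagonal x ∈ Ω)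
    (σ : Equiv.Perm (Fin n)) (a b c d : Fin n) :
    Ws s (x ∘ σ) (psi f (x ∘ σ)) a b c d = Ws s x (psi f x) (σ a) (σ b) (σ c) (σ d) := by
  unfold Ws
  simp only [h.psi_perm hx, Function.comp]

theorem UInv.Ws_an (s : Fin 4 → ℝ) (a b c d : Fin n) :
    AnalyticOnNhd ℝ (fun x => Ws s x (psi f x) a b c d) (Dp Ω) := by
  intro x hx
  have h1 : ∀ a : Fin n, AnalyticAt ℝ (fun x : Fin n → ℝ => x a) x := fun a =>
    (ContinuousLinearMap.proj (R := ℝ) (φ := fun _ : Fin n => ℝ) a).analyticAt x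
  have h2 := fun a => h.psi_an a x hx
  have hc : ∀ r : ℝ, AnalyticAt ℝ (fun _ : Fin n → ℝ => r) x := fun r => analyticAt_const
  exact ((((hc (s 0)).mul (h1 a)).sub ((hc (s 1)).mul (h1 b))).mul
    (((hc (s 2)).mul (h2 c)).sub ((hc (s 3)).mul (h2 d)))).sub
    ((((hc (s 0)).mul (h2 a)).sub ((hc (s 1)).mul (h2 b))).mul
    (((hc (s 2)).mul (h1 c)).sub ((hc (s 3)).mul (h1 d))))

/-- not easy at a positive diagonal matrix -/
theorem UInv.exists_pos
    (hne : ∃ X ∈ Ω, ∃ H : SqMat n, SqMat.inner X H = 0 ∧ fderiv ℝ f X H ≠ 0) :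
    ∃ x ∈ Dp Ω, ∃ a c : Fin n, x a * psi f x c ≠ psi f x a * x c := by
  obtain ⟨X, hX, H, t1, t2⟩ := hne
  have hin : ∀ X Y Y' : SqMat n, SqMat.inner X (Y + Y') = SqMat.inner X Y + SqMat.inner X Y' := by
    intro X Y Y'
    unfold SqMat.inner
    rw [← Finset.sum_add_distrib]
    refine Finset.sum_congr rfl fun i _ => ?_
    rw [← Finset.sum_add_distrib]
    exact Finset.sum_congr rfl fun j _ => mul_add _ _ _
  have hsm : ∀ (X Y : SqMat n) (r : ℝ), SqMat.inner X (r • Y) = r * SqMat.inner X Y := by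
    intro X Y r
    unfold SqMat.inner
    rw [Finset.mul_sum]
    refine Finset.sum_congr rfl fun i _ => ?_
    rw [Finset.mul_sum]
    refine Finset.sum_congr rfl fun j _ => ?_
    show X i j * (r * Y i j) = _
    ring
  -- `X` is not zero
  have hX0 : X ≠ 0 := by
    rintro rfl
    have hm : (-1 : Matrix (Fin n) (Fin n) ℝ) ∈ Matrix.orthogonalGroup (Fin n) ℝ := by
      rw [orth_iff]; simp
    have h1 := fderiv_rot h.op (fun X hX => h.diff hX) h.inv hm one_mem_orth hX H
    have h2 : ∀ Y : SqMat n, SqMat.rotate (-1) 1 Y = - Y := fun Y => N_inj (by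
      rw [N_rotate, N_neg]; simp)
    rw [h2, h2, neg_zero, map_neg] at h1
    exact t2 (by linarith)
  have hpos : 0 < SqMat.inner X X := by
    have h1 : ∃ i j, X i j ≠ 0 := by
      by_contra hcon
      push Not at hcon
      exact hX0 (funext fun i => funext fun j => hcon i j)
    obtain ⟨i, j, hij⟩ := h1
    refine Finset.sum_pos' (fun a _ => Finset.sum_nonneg fun b _ => mul_self_nonneg _)
      ⟨i, Finset.mem_univ _, ?_⟩
    exact Finset.sum_pos' (fun b _ => mul_self_nonneg _)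
      ⟨j, Finset.mem_univ _, mul_self_pos.2 hij⟩
  have hent : ∀ i j, Continuous fun Y : SqMat n => Y i j := fun i j =>
    (continuous_apply j).comp (continuous_apply i : Continuous fun Y : Fin n → Fin n → ℝ => Y i)
  have hic : ∀ g g' : SqMat n → SqMat n, Continuous g → Continuous g' →
      Continuous fun Y => SqMat.inner (g Y) (g' Y) := by
    intro g g' hg hg'
    unfold SqMat.inner
    exact continuous_finsetSum _ fun i _ => continuous_finsetSum _ fun j _ =>
      ((hent i j).comp hg).mul ((hent i j).comp hg')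
  let G : SqMat n → SqMat n := fun Y => H - (SqMat.inner Y H / SqMat.inner Y Y) • Y
  have hG : ContinuousAt G X := by
    have hq : ContinuousAt (fun Y => SqMat.inner Y H / SqMat.inner Y Y) X :=
      ((hic id (fun _ => H) continuous_id continuous_const).continuousAt).div
        ((hic id id continuous_id continuous_id).continuousAt) hpos.ne'
    have hq2 : ContinuousAt (fun Y => (SqMat.inner Y H / SqMat.inner Y Y) • Y) X :=
      hq.smul (continuousAt_id (x := X))
    exact continuousAt_const.sub hq2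
  have hGX : G X = H := by simp [G, t1]
  have hfd : ContinuousAt (fderiv ℝ f) X := (h.an.fderiv X hX).continuousAt
  have hF : ContinuousAt (fun Y => fderiv ℝ f Y (G Y)) X := hfd.clm_apply hG
  have h1 : ∀ᶠ Y in 𝓝 X, fderiv ℝ f Y (G Y) ≠ 0 := by
    refine hF.eventually_ne ?_
    rw [hGX]
    exact t2
  have h2 : ∀ᶠ Y in 𝓝 X, 0 < SqMat.inner Y Y :=
    ((hic id id continuous_id continuous_id).continuousAt).eventually (eventually_gt_nhds hpos)
  obtain ⟨U, hU1, hU2, hU3⟩ := mem_nhds_iff.1 (Filter.inter_mem (Filter.inter_mem h1 h2)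
    (h.op.mem_nhds hX))
  obtain ⟨Y, hY, hYd⟩ := exists_invertible hU2 hU3
  obtain ⟨⟨hY1, hY2⟩, hYΩ⟩ := hU1 hY
  obtain ⟨P, hP, Q, hQ, x, hx, rfl⟩ := exists_svd hYd
  set Y := SqMat.rotate P Q (SqMat.diagonal x) with hYdef
  have hxΩ : SqMat.diagonal x ∈ Ω := by
    have h3 : SqMat.rotate Pᵀ Qᵀ Y = SqMat.diagonal x := by
      rw [hYdef, rotate_rotate, orth_iff.1 hP, orth_iff'.1 hQ, rotate_one]
    rw [← h3]
    exact (h.inv _ (orth_transpose hP) _ (orth_transpose hQ) _ hYΩ).1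
  refine ⟨x, ⟨hx, hxΩ⟩, ?_⟩
  by_contra hcon
  push Not at hcon
  -- the direction
  set K := SqMat.rotate Pᵀ Qᵀ (G Y) with hK
  have hGK : G Y = SqMat.rotate P Q K := (rotate_inv hP hQ _).symm
  have hi : SqMat.inner Y (G Y) = 0 := by
    have h4 : G Y = H + (-(SqMat.inner Y H / SqMat.inner Y Y)) • Y := by
      simp only [G]
      module
    rw [h4, hin, hsm]
    have hY2' : 0 < SqMat.inner Y Y := hY2
    have := hY2'.ne'
    field_simp
    ring
  rw [hGK, hYdef, inner_rotate hP hQ] at hi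
  have hY1' : fderiv ℝ f Y (G Y) ≠ 0 := hY1
  rw [hGK, hYdef, fderiv_rot h.op (fun X hX => h.diff hX) h.inv hP hQ hxΩ,
    h.fderiv_diagonal hxΩ] at hY1'
  have hi' : ∑ i, x i * K i i = 0 := by
    rw [← hi]
    unfold SqMat.inner
    refine Finset.sum_congr rfl fun i _ => ?_
    rw [Finset.sum_eq_single i]
    · simp [SqMat.diagonal]
    · intro j _ hj
      simp [SqMat.diagonal, Ne.symm hj]
    · simp
  have hnE : Nonempty (Fin n) := by
    by_contra hemp
    rw [not_nonempty_iff] at hemp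
    exact hY1' (by simp)
  obtain ⟨c⟩ := hnE
  apply hY1'
  have h5 : x c * ∑ i, K i i * psi f x i = 0 := by
    have h6 : x c * ∑ i, K i i * psi f x i = psi f x c * ∑ i, x i * K i i := by
      rw [Finset.mul_sum, Finset.mul_sum]
      refine Finset.sum_congr rfl fun i _ => ?_
      have := hcon c i
      linear_combination K i i * this
    rw [h6, hi', mul_zero]
  exact (mul_eq_zero.1 h5).resolve_left (hx c).ne'

/-- a sign pattern which does not vanish identically -/
theorem UInv.exists_sign (hn : 5 ≤ n)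
    (hne : ∃ X ∈ Ω, ∃ H : SqMat n, SqMat.inner X H = 0 ∧ fderiv ℝ f X H ≠ 0) :
    ∃ s : Fin 4 → ℝ, (∀ i, s i * s i = 1) ∧ ∀ a b c d : Fin n,
      (a ≠ b ∧ a ≠ c ∧ a ≠ d ∧ b ≠ c ∧ b ≠ d ∧ c ≠ d) →
      ∃ x ∈ Dp Ω, Ws s x (psi f x) a b c d ≠ 0 := by
  obtain ⟨x, hx, a, c, hac⟩ := h.exists_pos hne
  have hac' : a ≠ c := by
    rintro rfl
    exact hac (mul_comm _ _)
  obtain ⟨b, hb⟩ : ∃ b : Fin n, b ∉ ({a, c} : Finset (Fin n)) := by
    by_contra hcon
    push Not at hcon
    have h3 : (Finset.univ : Finset (Fin n)) ⊆ {a, c} := fun d _ => hcon d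
    have h4 := Finset.card_le_card h3
    have h5 := Finset.card_le_two (a := a) (b := c)
    rw [Finset.card_univ, Fintype.card_fin] at h4
    omega
  obtain ⟨d, hd⟩ : ∃ d : Fin n, d ∉ ({a, c, b} : Finset (Fin n)) := by
    by_contra hcon
    push Not at hcon
    have h3 : (Finset.univ : Finset (Fin n)) ⊆ {a, c, b} := fun d _ => hcon d
    have h4 := Finset.card_le_card h3
    have h5 := Finset.card_le_three (a := a) (b := c) (c := b)
    rw [Finset.card_univ, Fintype.card_fin] at h4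
    omega
  simp only [Finset.mem_insert, Finset.mem_singleton, not_or] at hb hd
  have key : ∃ s : Fin 4 → ℝ, (∀ i, s i * s i = 1) ∧ Ws s x (psi f x) a b c d ≠ 0 := by
    by_contra hcon
    push Not at hcon
    have e1 := hcon ![1, 1, 1, 1] (by intro i; fin_cases i <;> simp)
    have e2 := hcon ![1, 1, 1, -1] (by intro i; fin_cases i <;> simp)
    have e3 := hcon ![1, -1, 1, 1] (by intro i; fin_cases i <;> simp)
    have e4 := hcon ![1, -1, 1, -1] (by intro i; fin_cases i <;> simp)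
    simp only [Ws, Matrix.cons_val_zero, Matrix.cons_val_one, Matrix.cons_val] at e1 e2 e3 e4
    apply hac
    linear_combination (1 / 4 : ℝ) * e1 + (1 / 4 : ℝ) * e2 + (1 / 4 : ℝ) * e3 +
      (1 / 4 : ℝ) * e4
  obtain ⟨s, hs, hw⟩ := key
  refine ⟨s, hs, fun a' b' c' d' hd' => ?_⟩
  obtain ⟨σ, e0, e1, e2, e3⟩ := exists_perm4 hd' ⟨Ne.symm hb.1, hac', Ne.symm hd.1, hb.2,
    Ne.symm hd.2.2, Ne.symm hd.2.1⟩
  refine ⟨x ∘ σ, h.perm_mem hx σ, ?_⟩
  rw [h.Ws_perm s hx.2, e0, e1, e2, e3]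
  exact hw

/-- **Lower bound for functions of the singular values.** -/
theorem UInv.lower (hn : 5 ≤ n)
    (hne : ∃ X ∈ Ω, ∃ H : SqMat n, SqMat.inner X H = 0 ∧ fderiv ℝ f X H ≠ 0)
    {k L : ℕ} {X : SqMat n} (hX : X ∈ Ω) (hf : Computed k L f X) :
    RankLE ℝ (n / 5) (n / 5) (n / 5) (4 * (L * (3 * k + k * k))) := by
  classical
  obtain ⟨s, hs, hsW⟩ := h.exists_sign hn hne
  -- a positive diagonal matrix
  have hstart : ∃ x₀ ∈ Dp Ω, Computed k L f (SqMat.diagonal x₀) := by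
    obtain ⟨U, hU1, hU2, hU3⟩ := mem_nhds_iff.1 (Filter.inter_mem (computed_nhds hf)
      (h.op.mem_nhds hX))
    obtain ⟨Y, hY, hYd⟩ := exists_invertible hU2 hU3
    obtain ⟨hY1, hYΩ⟩ := hU1 hY
    obtain ⟨P, hP, Q, hQ, x, hx, rfl⟩ := exists_svd hYd
    have hxΩ : SqMat.diagonal x ∈ Ω := by
      have h3 : SqMat.rotate Pᵀ Qᵀ (SqMat.rotate P Q (SqMat.diagonal x)) =
          SqMat.diagonal x := by
        rw [rotate_rotate, orth_iff.1 hP, orth_iff'.1 hQ, rotate_one]
      rw [← h3]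
      exact (h.inv _ (orth_transpose hP) _ (orth_transpose hQ) _ hYΩ).1
    refine ⟨x, ⟨hx, hxΩ⟩, ?_⟩
    refine computed_congr (computed_comp (rotL P Q) (x := SqMat.diagonal x) hY1) ?_
    filter_upwards [h.op.mem_nhds hxΩ] with Y hY
    exact (h.inv P hP Q hQ Y hY).2.symm
  obtain ⟨x₀, hx₀, hf0⟩ := hstart
  -- a neighbourhood
  have hev : ∀ᶠ x in 𝓝 x₀, Computed k L f (diaL n x) :=
    (diaL n).continuous.continuousAt.eventually (computed_nhds hf0)
  obtain ⟨U, hU1, hU2, hU3⟩ := mem_nhds_iff.1 (Filter.inter_mem hev (h.open_D.mem_nhds hx₀))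
  -- the factors
  let F : (Fin n × Fin n) ⊕ (Fin n × Fin n × Fin n × Fin n) → (Fin n → ℝ) → ℝ := fun t x =>
    Sum.elim (fun t => x t.1 - x t.2)
      (fun t => Ws s x (psi f x) t.1 t.2.1 t.2.2.1 t.2.2.2) t
  let S : Finset ((Fin n × Fin n) ⊕ (Fin n × Fin n × Fin n × Fin n)) :=
    Finset.univ.filter fun t => Sum.elim (fun t => t.1 ≠ t.2) (fun t => t.1 ≠ t.2.1 ∧
      t.1 ≠ t.2.2.1 ∧ t.1 ≠ t.2.2.2 ∧ t.2.1 ≠ t.2.2.1 ∧ t.2.1 ≠ t.2.2.2 ∧ t.2.2.1 ≠ t.2.2.2) t
  have hFan : ∀ t ∈ S, AnalyticOnNhd ℝ (F t) (Dp Ω) := by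
    rintro (⟨a, b⟩ | ⟨a, b, c, d⟩) _
    · intro x _
      exact ((ContinuousLinearMap.proj (R := ℝ) (φ := fun _ : Fin n => ℝ) a).analyticAt x).sub
        ((ContinuousLinearMap.proj (R := ℝ) (φ := fun _ : Fin n => ℝ) b).analyticAt x)
    · exact h.Ws_an s a b c d
  have hFne : ∀ t ∈ S, ∃ z ∈ Dp Ω, F t z ≠ 0 := by
    rintro (⟨a, b⟩ | ⟨a, b, c, d⟩) hs
    · have hab : a ≠ b := by simpa [S] using hs
      by_contra hcon
      push Not at hcon
      have h1 : ∀ᶠ t in 𝓝 (0 : ℝ), x₀ + t • (Pi.single a 1 : Fin n → ℝ) ∈ Dp Ω := by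
        have : ContinuousAt (fun t : ℝ => x₀ + t • (Pi.single a 1 : Fin n → ℝ)) 0 := by fun_prop
        exact this (h.open_D.mem_nhds (by simpa using hx₀))
      have h2 : ∃ᶠ t in 𝓝 (0 : ℝ), t ≠ 0 := by
        have : (𝓝[≠] (0 : ℝ)).NeBot := inferInstance
        rw [frequently_iff_neBot]
        exact this
      obtain ⟨t, ht, ht'⟩ := (h2.and_eventually h1).exists
      have e1 := hcon _ ht'
      have e2 := hcon x₀ hx₀
      simp only [F, Sum.elim_inl, Pi.add_apply, Pi.smul_apply, Pi.single_eq_same, smul_eq_mul,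
        mul_one, Pi.single_eq_of_ne (Ne.symm hab), mul_zero, add_zero] at e1 e2
      exact ht (by linarith)
    · simp only [S, Finset.mem_filter, Finset.mem_univ, true_and, Sum.elim_inr] at hs
      exact hsW a b c d hs
  obtain ⟨x, hxU, hx⟩ := exists_ne h.conn F S hFan hFne hU2 (fun z hz => (hU1 hz).2) ⟨x₀, hU3⟩
  have hxD : x ∈ Dp Ω := (hU1 hxU).2
  have hxC : Computed k L f (SqMat.diagonal x) := (hU1 hxU).1
  -- the groups of indices
  let e : Fin 5 → Fin (n / 5) → Fin n := fun p i => ⟨p.1 * (n / 5) + i.1, by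
    have h1 : p.1 * (n / 5) ≤ 4 * (n / 5) := Nat.mul_le_mul_right _ (by omega)
    have h2 := i.2
    have h3 : 5 * (n / 5) ≤ n := Nat.mul_div_le n 5
    omega⟩
  have he : ∀ p q i j, e p i = e q j → p = q ∧ i = j := by
    intro p q i j hpq
    have h1 : p.1 * (n / 5) + i.1 = q.1 * (n / 5) + j.1 := congrArg Fin.val hpq
    have h2 := i.2
    have h3 := j.2
    have h4 : p.1 = q.1 := by
      rcases lt_trichotomy p.1 q.1 with hlt | heq | hgt
      · have : (p.1 + 1) * (n / 5) ≤ q.1 * (n / 5) := Nat.mul_le_mul_right _ hlt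
        rw [add_mul] at this
        omega
      · exact heq
      · have : (q.1 + 1) * (n / 5) ≤ p.1 * (n / 5) := Nat.mul_le_mul_right _ hgt
        rw [add_mul] at this
        omega
    refine ⟨Fin.ext h4, Fin.ext ?_⟩
    rw [h4] at h1
    omega
  -- the signs
  let s' : ℕ → ℝ := fun j => if j = 0 then s 0 else if j = 1 then s 1 else if j = 2 then s 2 else
    if j = 3 then s 3 else 1
  let η : Fin n → ℝ := fun a => s' (a.1 / (n / 5))
  have hη : ∀ a, η a * η a = 1 := by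
    intro a
    simp only [η, s']
    split_ifs <;> first | exact hs _ | norm_num
  have hηe : ∀ p i, η (e p i) = s' p.1 := by
    intro p i
    simp only [η, e]
    congr 1
    rw [mul_comm, Nat.mul_add_div (by omega), Nat.div_eq_of_lt i.2, add_zero]
  have hinj : Function.Injective fun a => η a * x a := by
    intro a b hab
    have h1 : x a * x a = x b * x b := by
      have h2 : (η a * x a) * (η a * x a) = (η b * x b) * (η b * x b) := by
        have : η a * x a = η b * x b := hab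
        rw [this]
      have ha := hη a
      have hb := hη b
      linear_combination h2 - (x a * x a) * ha + (x b * x b) * hb
    have h3 : x a = x b := by
      rcases mul_self_eq_mul_self_iff.1 h1 with h4 | h4
      · exact h4
      · have := hxD.1 a
        have := hxD.1 b
        linarith
    by_contra hcon
    have := hx (Sum.inl (a, b)) (by simpa [S] using hcon)
    simp only [F, Sum.elim_inl] at this
    exact this (sub_eq_zero.2 h3)
  have hfr : Frame f (SqMat.diagonal x) (fun a => η a * x a) (vU η)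
      (fun a => (2 * η a) • Eu a a) (BU η) := by
    refine frame_sq hη ((h.an _ hxD.2).contDiffAt) ?_
    filter_upwards [h.op.mem_nhds hxD.2] with Y hY P hP Q hQ
    exact (h.inv P hP Q hQ Y hY).2
  refine rank_of_frame hxC hfr hinj e he fun i j => ?_
  have hne' : ∀ p q i j, p ≠ q → e p i ≠ e q j := fun p q i j h h' => h (he p q i j h').1
  have := hx (Sum.inr (e 0 i, e 1 i, e 2 j, e 3 j)) (by
    simp only [S, Finset.mem_filter, Finset.mem_univ, true_and, Sum.elim_inr]
    exact ⟨hne' _ _ _ _ (by decide), hne' _ _ _ _ (by decide), hne' _ _ _ _ (by decide),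
      hne' _ _ _ _ (by decide), hne' _ _ _ _ (by decide), hne' _ _ _ _ (by decide)⟩)
  simp only [F, Sum.elim_inr] at this
  have h0 : η (e 0 i) = s 0 := by rw [hηe]; rfl
  have h1 : η (e 1 i) = s 1 := by rw [hηe]; rfl
  have h2 : η (e 2 j) = s 2 := by rw [hηe]; rfl
  have h3 : η (e 3 j) = s 3 := by rw [hηe]; rfl
  have hW : Wt (fun a => η a * x a)
      (fun a => fderiv ℝ f (SqMat.diagonal x) ((2 * η a) • Eu a a)) (e 0 i) (e 1 i) (e 2 j)
      (e 3 j) = 2 * Ws s x (psi f x) (e 0 i) (e 1 i) (e 2 j) (e 3 j) := by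
    simp only [Wt, Ws, map_smul, smul_eq_mul, h0, h1, h2, h3, psi]
    ring
  rw [hW]
  exact mul_ne_zero two_ne_zero this

end

end Pool.Agent.Q225.Smo
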