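import Pool.Agent.Q225.Smo.Easy
import Pool.Agent.Q225.Smo.UMain

set_option autoImplicit false

/-!
# Easy functions of the singular values
-/

namespace Pool.Agent.Q225.Smo

open Matrix Filter Topology

variable {n : ℕ}

theorem inner_add (X Y Y' : SqMat n) :
    SqMat.inner X (Y + Y') = SqMat.inner X Y + SqMat.inner X Y' := by
  unfold SqMat.inner
  rw [← Finset.sum_add_distrib]
  refine Finset.sum_congr rfl fun i _ => ?_
  rw [← Finset.sum_add_distrib]
  exact Finset.sum_congr rfl fun j _ => mul_add _ _ _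

theorem inner_smul (X Y : SqMat n) (r : ℝ) : SqMat.inner X (r • Y) = r * SqMat.inner X Y := by
  unfold SqMat.inner
  rw [Finset.mul_sum]
  refine Finset.sum_congr rfl fun i _ => ?_
  rw [Finset.mul_sum]
  refine Finset.sum_congr rfl fun j _ => ?_
  show X i j * (r * Y i j) = _
  ring

theorem inner_comm (X Y : SqMat n) : SqMat.inner X Y = SqMat.inner Y X :=
  Finset.sum_congr rfl fun _ _ => Finset.sum_congr rfl fun _ _ => mul_comm _ _

theorem inner_pos {X : SqMat n} (h : X ≠ 0) : 0 < SqMat.inner X X := by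
  have h1 : ∃ i j, X i j ≠ 0 := by
    by_contra hcon
    push Not at hcon
    exact h (funext fun i => funext fun j => hcon i j)
  obtain ⟨i, j, hij⟩ := h1
  refine Finset.sum_pos' (fun a _ => Finset.sum_nonneg fun b _ => mul_self_nonneg _)
    ⟨i, Finset.mem_univ _, ?_⟩
  exact Finset.sum_pos' (fun b _ => mul_self_nonneg _)
    ⟨j, Finset.mem_univ _, mul_self_pos.2 hij⟩

/-- `inner` as a bilinear map -/
noncomputable def innerL (n : ℕ) : SqMat n →L[ℝ] SqMat n →L[ℝ] ℝ :=
  LinearMap.toContinuousLinearMap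
    { toFun := fun X => LinearMap.toContinuousLinearMap
        { toFun := fun Y => SqMat.inner X Y
          map_add' := inner_add X
          map_smul' := fun r Y => inner_smul X Y r }
      map_add' := fun X X' => by
        ext Y
        show SqMat.inner (X + X') Y = SqMat.inner X Y + SqMat.inner X' Y
        rw [inner_comm, inner_add, inner_comm Y, inner_comm Y]
      map_smul' := fun r X => by
        ext Y
        show SqMat.inner (r • X) Y = r * SqMat.inner X Y
        rw [inner_comm, inner_smul, inner_comm Y] }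

theorem innerL_apply (X Y : SqMat n) : innerL n X Y = SqMat.inner X Y := rfl

/-- an entry as a linear functional -/
noncomputable def entU (i j : Fin n) : SqMat n →L[ℝ] ℝ :=
  LinearMap.toContinuousLinearMap
    { toFun := fun X => X i j
      map_add' := fun _ _ => rfl
      map_smul' := fun _ _ => rfl }

/-- **Easy functions have small networks.** -/
theorem computed_easyU {Ω : Set (SqMat n)} (hΩ : IsOpen Ω) {f : SqMat n → ℝ}
    (han : AnalyticOnNhd ℝ f Ω)
    (hE : ∀ X ∈ Ω, ∀ H : SqMat n, SqMat.inner X H = 0 → fderiv ℝ f X H = 0) {X₀ : SqMat n}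
    (hX₀ : X₀ ∈ Ω) (hne : X₀ ≠ 0) : Computed 1 (n * n + 1) f X₀ := by
  have hY₀ : X₀ - (0 : SqMat n →L[ℝ] ℝ) X₀ • (0 : SqMat n) ≠ 0 := by simpa using hne
  have hmain := const_on_spheres hΩ (fun X hX => (han X hX).differentiableAt) (innerL n)
    (fun X Y => inner_comm X Y) (fun X hX => inner_pos hX) 0 0 (fun X => by simp)
    (fun X hX H h1 h2 => hE X hX H h2) hX₀ hY₀
  set N : ℝ := SqMat.inner X₀ X₀ with hN
  have hNpos : 0 < N := inner_pos hne
  -- the function of one variable
  let G : (Fin 1 → ℝ) → SqMat n := fun z => Real.sqrt (z 0 / N) • X₀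
  have hG : ∀ᶠ X in 𝓝 X₀, f X = f (G ![SqMat.inner X X]) := by
    filter_upwards [hmain] with X hX
    rw [hX]
    simp only [smul_zero, sub_zero, zero_add, innerL_apply]
    rfl
  have hG0 : G ![SqMat.inner X₀ X₀] = X₀ := by
    simp only [G, Matrix.cons_val_zero]
    rw [← hN, div_self hNpos.ne', Real.sqrt_one, one_smul]
  have hGC : ContDiffAt ℝ 3 G ![SqMat.inner X₀ X₀] := by
    have hz : ContDiffAt ℝ 3 (fun z : Fin 1 → ℝ => z 0) ![SqMat.inner X₀ X₀] :=
      (ContinuousLinearMap.proj (R := ℝ) (φ := fun _ : Fin 1 => ℝ) 0).contDiff.contDiffAt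
    have hs : ContDiffAt ℝ 3 (fun z : Fin 1 → ℝ => Real.sqrt (z 0 / N))
        ![SqMat.inner X₀ X₀] := by
      refine ContDiffAt.sqrt (hz.div_const N) ?_
      show SqMat.inner X₀ X₀ / N ≠ 0
      rw [← hN, div_self hNpos.ne']
      exact one_ne_zero
    exact hs.smul contDiffAt_const
  -- the network
  let g : Fin (n * n + 1) → (Fin 1 → ℝ) → ℝ :=
    Fin.lastCases (fun z => f (G z)) fun _ z => z 0 * z 0
  let u : Fin (n * n + 1) → SqMat n → Fin 1 → ℝ :=
    Fin.lastCases (fun X => ![SqMat.inner X X])
      fun j X => ![X (finProdFinEquiv.symm j).1 (finProdFinEquiv.symm j).2]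
  have hlin : ∀ (ℓ : SqMat n →L[ℝ] ℝ) (s : Set (Fin (n * n + 1))),
      (fun X => ℓ X) ∈ Avail g u s := fun ℓ s =>
    Submodule.mem_sup_left ⟨0, ℓ, by funext X; simp⟩
  refine ⟨g, u, fun j => ?_, fun j => ?_, fun X => g (Fin.last _) (u (Fin.last _) X), ?_, ?_⟩
  · refine Fin.lastCases (fun q => ?_) (fun j q => ?_) j
    · fin_cases q
      have h1 : (fun X : SqMat n => u (Fin.last (n * n)) X 0) =
          ∑ j : Fin (n * n), fun X => g j.castSucc (u j.castSucc X) := by
        funext X
        simp only [u, g, Fin.lastCases_last, Fin.lastCases_castSucc,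
          Matrix.cons_val_zero, Finset.sum_apply]
        rw [← (finProdFinEquiv (m := n) (n := n)).sum_comp, Fintype.sum_prod_type]
        simp only [Equiv.symm_apply_apply]
        rfl
      show (fun X : SqMat n => u (Fin.last (n * n)) X 0) ∈ _
      rw [h1]
      exact Submodule.sum_mem _ fun j _ => Submodule.mem_sup_right
        (Submodule.subset_span ⟨j.castSucc, Fin.castSucc_lt_last j, rfl⟩)
    · fin_cases q
      have := hlin (entU (finProdFinEquiv.symm j).1 (finProdFinEquiv.symm j).2)
        {i | i < j.castSucc}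
      convert this using 2 with X
      show u j.castSucc X 0 = _
      simp only [u, Fin.lastCases_castSucc, Matrix.cons_val_zero]
      rfl
  · refine Fin.lastCases ?_ (fun j => ?_) j
    · simp only [g, u, Fin.lastCases_last]
      refine ContDiffAt.comp _ ?_ hGC
      rw [hG0]
      exact (han X₀ hX₀).contDiffAt
    · simp only [g, u, Fin.lastCases_castSucc]
      have hz : ∀ z, ContDiffAt ℝ 3 (fun z : Fin 1 → ℝ => z 0) z :=
        fun z => (ContinuousLinearMap.proj (R := ℝ) (φ := fun _ : Fin 1 => ℝ) 0).contDiff.contDiffAt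
      exact (hz _).mul (hz _)
  · exact Submodule.mem_sup_right (Submodule.subset_span ⟨_, trivial, rfl⟩)
  · filter_upwards [hG] with X hX
    rw [hX]
    simp only [g, u, Fin.lastCases_last]

end Pool.Agent.Q225.Smo
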