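import Pool.Agent.Q225.Smo.UDefs
import Pool.Agent.Q225.Smo.SInv

set_option autoImplicit false

/-!
# The frame of a function of the singular values
-/

namespace Pool.Agent.Q225.Smo

open Matrix Filter Topology

variable {n : ℕ}

instance (n : ℕ) : FiniteDimensional ℝ (SqMat n) :=
  inferInstanceAs (FiniteDimensional ℝ (Fin n → Fin n → ℝ))

/-- the matrix -/
def N (X : SqMat n) : Matrix (Fin n) (Fin n) ℝ := Matrix.of X

/-- an element of `SqMat n` from a matrix -/
def nk (A : Matrix (Fin n) (Fin n) ℝ) : SqMat n := fun i j => A i j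

theorem N_inj {X Y : SqMat n} (h : N X = N Y) : X = Y := by
  funext i j
  exact congrFun (congrFun h i) j

theorem N_nk (A : Matrix (Fin n) (Fin n) ℝ) : N (nk A) = A := rfl
theorem N_add (X Y : SqMat n) : N (X + Y) = N X + N Y := rfl
theorem N_sub (X Y : SqMat n) : N (X - Y) = N X - N Y := rfl
theorem N_neg (X : SqMat n) : N (-X) = - N X := rfl
theorem N_zero : N (0 : SqMat n) = 0 := rfl
theorem N_smul (r : ℝ) (X : SqMat n) : N (r • X) = r • N X := rfl
theorem N_rotate (P Q : Matrix (Fin n) (Fin n) ℝ) (X : SqMat n) :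
    N (SqMat.rotate P Q X) = P * N X * Q := rfl
theorem N_diagonal (x : Fin n → ℝ) : N (SqMat.diagonal x) = Matrix.diagonal x := by
  ext i j
  rw [Matrix.diagonal_apply]
  rfl

/-- `Z X` as a linear map -/
noncomputable def ZL (a b : Fin n) : SqMat n →L[ℝ] SqMat n :=
  LinearMap.toContinuousLinearMap
    { toFun := fun X => nk (Z a b * N X)
      map_add' := fun X Y => N_inj (by
        show Z a b * (N X + N Y) = Z a b * N X + Z a b * N Y
        rw [Matrix.mul_add])
      map_smul' := fun r X => N_inj (by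
        show Z a b * (r • N X) = r • (Z a b * N X)
        rw [Matrix.mul_smul]) }

/-- `X Z` as a linear map -/
noncomputable def ZR (a b : Fin n) : SqMat n →L[ℝ] SqMat n :=
  LinearMap.toContinuousLinearMap
    { toFun := fun X => nk (N X * Z a b)
      map_add' := fun X Y => N_inj (by
        show (N X + N Y) * Z a b = N X * Z a b + N Y * Z a b
        rw [Matrix.add_mul])
      map_smul' := fun r X => N_inj (by
        show (r • N X) * Z a b = r • (N X * Z a b)
        rw [Matrix.smul_mul]) }

theorem N_ZL (a b : Fin n) (X : SqMat n) : N (ZL a b X) = Z a b * N X := rfl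
theorem N_ZR (a b : Fin n) (X : SqMat n) : N (ZR a b X) = N X * Z a b := rfl

theorem left_deriv {a b : Fin n} (X : SqMat n) :
    HasDerivAt (fun t => SqMat.rotate (rot a b t) 1 X) (ZL a b X) 0 := by
  have key : HasDerivAt (fun t => (fun i j => ∑ p, rot a b t i p * X p j : Fin n → Fin n → ℝ))
      (fun i j => ∑ p, Z a b i p * X p j) 0 :=
    hasDerivAt_pi.2 fun i => hasDerivAt_pi.2 fun j =>
      HasDerivAt.fun_sum fun p _ => (rot_deriv a b i p).mul_const _
  have e1 : (fun t => SqMat.rotate (rot a b t) 1 X) =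
      fun t => (fun i j => ∑ p, rot a b t i p * X p j : SqMat n) := by
    funext t i j
    show (rot a b t * N X * (1 : Matrix (Fin n) (Fin n) ℝ)) i j = _
    rw [Matrix.mul_one, Matrix.mul_apply]
    rfl
  have e2 : ZL a b X = (fun i j => ∑ p, Z a b i p * X p j : SqMat n) := by
    funext i j
    show (Z a b * N X) i j = _
    rw [Matrix.mul_apply]
    rfl
  rw [e1, e2]
  exact key

theorem right_deriv {a b : Fin n} (X : SqMat n) :
    HasDerivAt (fun t => SqMat.rotate 1 (rot a b t) X) (ZR a b X) 0 := by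
  have key : HasDerivAt (fun t => (fun i j => ∑ p, X i p * rot a b t p j : Fin n → Fin n → ℝ))
      (fun i j => ∑ p, X i p * Z a b p j) 0 :=
    hasDerivAt_pi.2 fun i => hasDerivAt_pi.2 fun j =>
      HasDerivAt.fun_sum fun p _ => (rot_deriv a b p j).const_mul _
  have e1 : (fun t => SqMat.rotate 1 (rot a b t) X) =
      fun t => (fun i j => ∑ p, X i p * rot a b t p j : SqMat n) := by
    funext t i j
    show ((1 : Matrix (Fin n) (Fin n) ℝ) * N X * rot a b t) i j = _
    rw [Matrix.one_mul, Matrix.mul_apply]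
    rfl
  have e2 : ZR a b X = (fun i j => ∑ p, X i p * Z a b p j : SqMat n) := by
    funext i j
    show (N X * Z a b) i j = _
    rw [Matrix.mul_apply]
    rfl
  rw [e1, e2]
  exact key

theorem one_mem_orth : (1 : Matrix (Fin n) (Fin n) ℝ) ∈ Matrix.orthogonalGroup (Fin n) ℝ :=
  one_mem _

theorem tan_left {f : SqMat n → ℝ} {X : SqMat n} (hd : DifferentiableAt ℝ f X)
    (h : ∀ P ∈ Matrix.orthogonalGroup (Fin n) ℝ, ∀ Q ∈ Matrix.orthogonalGroup (Fin n) ℝ,
      f (SqMat.rotate P Q X) = f X) {a b : Fin n} (hab : a ≠ b) :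
    fderiv ℝ f X (ZL a b X) = 0 := by
  have h0 : SqMat.rotate (rot a b 0) 1 X = X := N_inj (by rw [N_rotate, rot_zero]; simp)
  have h1 : HasFDerivAt f (fderiv ℝ f X) (SqMat.rotate (rot a b 0) 1 X) := by
    rw [h0]; exact hd.hasFDerivAt
  have h2 := h1.comp_hasDerivAt (0 : ℝ) (left_deriv (a := a) (b := b) X)
  have h3 : HasDerivAt (f ∘ fun t => SqMat.rotate (rot a b t) 1 X) 0 0 := by
    have : (f ∘ fun t => SqMat.rotate (rot a b t) 1 X) = fun _ => f X := by
      funext t
      exact h _ (rot_mem hab t) _ one_mem_orth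
    rw [this]
    exact hasDerivAt_const _ _
  exact h2.unique h3

theorem tan_right {f : SqMat n → ℝ} {X : SqMat n} (hd : DifferentiableAt ℝ f X)
    (h : ∀ P ∈ Matrix.orthogonalGroup (Fin n) ℝ, ∀ Q ∈ Matrix.orthogonalGroup (Fin n) ℝ,
      f (SqMat.rotate P Q X) = f X) {a b : Fin n} (hab : a ≠ b) :
    fderiv ℝ f X (ZR a b X) = 0 := by
  have h0 : SqMat.rotate 1 (rot a b 0) X = X := N_inj (by rw [N_rotate, rot_zero]; simp)
  have h1 : HasFDerivAt f (fderiv ℝ f X) (SqMat.rotate 1 (rot a b 0) X) := by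
    rw [h0]; exact hd.hasFDerivAt
  have h2 := h1.comp_hasDerivAt (0 : ℝ) (right_deriv (a := a) (b := b) X)
  have h3 : HasDerivAt (f ∘ fun t => SqMat.rotate 1 (rot a b t) X) 0 0 := by
    have : (f ∘ fun t => SqMat.rotate 1 (rot a b t) X) = fun _ => f X := by
      funext t
      exact h _ one_mem_orth _ (rot_mem hab t)
    rw [this]
    exact hasDerivAt_const _ _
  exact h2.unique h3

/-- the matrix unit -/
def Eu (a b : Fin n) : SqMat n := nk (Matrix.single a b 1)

theorem N_Eu (a b : Fin n) : N (Eu a b) = Matrix.single a b 1 := rfl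

/-- the directions -/
noncomputable def vU (η : Fin n → ℝ) (a b : Fin n) : SqMat n := η b • Eu a b + η a • Eu b a

/-- the vector fields -/
noncomputable def BU (η : Fin n → ℝ) (a b : Fin n) : SqMat n →L[ℝ] SqMat n :=
  ZL a b - (η a * η b) • ZR a b

theorem N_BU (η : Fin n → ℝ) (a b : Fin n) (X : SqMat n) :
    N (BU η a b X) = Z a b * N X - (η a * η b) • (N X * Z a b) := rfl

theorem N_vU (η : Fin n → ℝ) (a b : Fin n) :
    N (vU η a b) = η b • Matrix.single a b 1 + η a • Matrix.single b a 1 := rfl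

/-- **The frame.** -/
theorem frame_sq {f : SqMat n → ℝ} {x η : Fin n → ℝ} (hη : ∀ a, η a * η a = 1)
    (hf : ContDiffAt ℝ 3 f (SqMat.diagonal x))
    (h : ∀ᶠ X in 𝓝 (SqMat.diagonal x), ∀ P ∈ Matrix.orthogonalGroup (Fin n) ℝ,
      ∀ Q ∈ Matrix.orthogonalGroup (Fin n) ℝ, f (SqMat.rotate P Q X) = f X) :
    Frame f (SqMat.diagonal x) (fun a => η a * x a) (vU η) (fun a => (2 * η a) • Eu a a)
      (BU η) where
  smooth := hf
  symm := fun a b => N_inj (by rw [N_vU, N_vU, add_comm])
  tan := fun a b hab => by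
    filter_upwards [h, evC (n := 3) hf] with X hX hC
    have hd := hC.differentiableAt (by norm_num)
    have h1 : BU η a b X = ZL a b X - (η a * η b) • ZR a b X := rfl
    rw [h1, map_sub, map_smul, tan_left hd hX hab, tan_right hd hX hab]
    simp
  base := fun a b hab => N_inj (by
    rw [N_BU, N_smul, N_vU, N_diagonal, Z]
    ext i j
    simp only [Matrix.sub_apply, Matrix.smul_apply, Matrix.add_apply, Matrix.single_apply,
      smul_eq_mul, Matrix.mul_diagonal, Matrix.diagonal_mul]
    have ha := hη a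
    have hb := hη b
    by_cases h1 : a = i ∧ b = j
    · obtain ⟨rfl, rfl⟩ := h1
      simp [hab]
      linear_combination (-x b) * hb
    by_cases h2 : b = i ∧ a = j
    · obtain ⟨rfl, rfl⟩ := h2
      simp [hab]
      linear_combination (x a) * ha
    simp [h1, h2])
  diag := fun a b hab => N_inj (by
    have ha := hη a
    have hb := hη b
    rw [N_BU, N_sub, N_vU, N_smul, N_smul, N_Eu, N_Eu, Z]
    ext i j
    simp [Matrix.sub_mul, Matrix.mul_sub, Matrix.mul_add, Matrix.add_mul,
      Matrix.single_mul_single_same, Matrix.single_mul_single_of_ne, hab, hab.symm,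
      Matrix.single_apply]
    by_cases h1 : a = i ∧ a = j
    · obtain ⟨rfl, rfl⟩ := h1
      simp [hab, hab.symm]
      linear_combination (η a) * hb
    by_cases h2 : b = i ∧ b = j
    · obtain ⟨rfl, rfl⟩ := h2
      simp [hab, hab.symm]
      linear_combination (-η b) * ha
    simp [h1, h2])
  adj := fun a b c hab hca hcb => N_inj (by
    have hb := hη b
    rw [N_BU, N_vU, N_vU, Z]
    ext i j
    simp [Matrix.sub_mul, Matrix.mul_sub, Matrix.mul_add, Matrix.add_mul,
      Matrix.single_mul_single_same, Matrix.single_mul_single_of_ne, hab, hab.symm, hca,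
      hca.symm, hcb, hcb.symm, Matrix.single_apply]
    by_cases h1 : a = i ∧ c = j
    · obtain ⟨rfl, rfl⟩ := h1
      simp [hca, hca.symm]
    by_cases h2 : c = i ∧ a = j
    · obtain ⟨rfl, rfl⟩ := h2
      simp [hca, hca.symm]
      linear_combination (η a) * hb
    simp [h1, h2])
  adj' := fun a b c hab hca hcb => N_inj (by
    have ha := hη a
    rw [N_BU, N_neg, N_vU, N_vU, Z]
    ext i j
    simp [Matrix.sub_mul, Matrix.mul_sub, Matrix.mul_add, Matrix.add_mul,
      Matrix.single_mul_single_same, Matrix.single_mul_single_of_ne, hab, hab.symm, hca,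
      hca.symm, hcb, hcb.symm, Matrix.single_apply]
    by_cases h1 : b = i ∧ c = j
    · obtain ⟨rfl, rfl⟩ := h1
      simp [hcb, hcb.symm]
    by_cases h2 : c = i ∧ b = j
    · obtain ⟨rfl, rfl⟩ := h2
      simp [hcb, hcb.symm]
      linear_combination (η b) * ha
    simp [h1, h2])
  far := fun a b c d hab hca hcb hda hdb hcd => N_inj (by
    rw [N_BU, N_vU, N_zero, Z]
    simp [Matrix.sub_mul, Matrix.mul_sub, Matrix.mul_add, Matrix.add_mul,
      Matrix.single_mul_single_of_ne, hca, hca.symm, hcb, hcb.symm, hda, hda.symm, hdb,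
      hdb.symm])

end Pool.Agent.Q225.Smo
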