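import Pool.Agent.Q225.Smo.UFrame

set_option autoImplicit false

/-!
# Orthogonal transformations and the singular value decomposition
-/

namespace Pool.Agent.Q225.Smo

open Matrix Filter Topology

variable {n : ℕ}

/-- `X ↦ P X Q` as a continuous linear map -/
noncomputable def rotL (P Q : Matrix (Fin n) (Fin n) ℝ) : SqMat n →L[ℝ] SqMat n :=
  LinearMap.toContinuousLinearMap
    { toFun := fun X => SqMat.rotate P Q X
      map_add' := fun X Y => N_inj (by
        show P * (N X + N Y) * Q = P * N X * Q + P * N Y * Q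
        noncomm_ring)
      map_smul' := fun r X => N_inj (by
        show P * (r • N X) * Q = r • (P * N X * Q)
        rw [Matrix.mul_smul, Matrix.smul_mul]) }

theorem rotL_apply (P Q : Matrix (Fin n) (Fin n) ℝ) (X : SqMat n) :
    rotL P Q X = SqMat.rotate P Q X := rfl

theorem rotate_rotate (P Q P' Q' : Matrix (Fin n) (Fin n) ℝ) (X : SqMat n) :
    SqMat.rotate P' Q' (SqMat.rotate P Q X) = SqMat.rotate (P' * P) (Q * Q') X :=
  N_inj (by
    rw [N_rotate, N_rotate, N_rotate]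
    simp only [Matrix.mul_assoc])

theorem rotate_one (X : SqMat n) : SqMat.rotate 1 1 X = X :=
  N_inj (by rw [N_rotate]; simp)

theorem orth_iff' {Q : Matrix (Fin n) (Fin n) ℝ} :
    Q ∈ Matrix.orthogonalGroup (Fin n) ℝ ↔ Q * Qᵀ = 1 := by
  rw [Matrix.mem_orthogonalGroup_iff]

theorem rotate_inv {P Q : Matrix (Fin n) (Fin n) ℝ} (hP : P ∈ Matrix.orthogonalGroup (Fin n) ℝ)
    (hQ : Q ∈ Matrix.orthogonalGroup (Fin n) ℝ) (X : SqMat n) :
    SqMat.rotate P Q (SqMat.rotate Pᵀ Qᵀ X) = X := by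
  rw [rotate_rotate, orth_iff'.1 hP, orth_iff.1 hQ, rotate_one]

theorem inner_eq (X H : SqMat n) : SqMat.inner X H = ((N X)ᵀ * N H).trace := by
  simp only [Matrix.trace, Matrix.diag, Matrix.mul_apply, Matrix.transpose_apply, SqMat.inner]
  rw [Finset.sum_comm]
  rfl

theorem inner_rotate {P Q : Matrix (Fin n) (Fin n) ℝ}
    (hP : P ∈ Matrix.orthogonalGroup (Fin n) ℝ) (hQ : Q ∈ Matrix.orthogonalGroup (Fin n) ℝ)
    (X H : SqMat n) : SqMat.inner (SqMat.rotate P Q X) (SqMat.rotate P Q H) =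
      SqMat.inner X H := by
  rw [inner_eq, inner_eq, N_rotate, N_rotate, Matrix.transpose_mul, Matrix.transpose_mul]
  have h1 : Qᵀ * ((N X)ᵀ * Pᵀ) * (P * N H * Q) = Qᵀ * ((N X)ᵀ * N H) * Q := by
    calc Qᵀ * ((N X)ᵀ * Pᵀ) * (P * N H * Q) = Qᵀ * ((N X)ᵀ * (Pᵀ * P) * N H) * Q := by
          simp only [Matrix.mul_assoc]
      _ = _ := by rw [orth_iff.1 hP, Matrix.mul_one]
  rw [h1, Matrix.trace_mul_comm, ← Matrix.mul_assoc, orth_iff'.1 hQ, Matrix.one_mul]

theorem fderiv_rot {Ω : Set (SqMat n)} (hΩ : IsOpen Ω) {f : SqMat n → ℝ}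
    (hd : ∀ X ∈ Ω, DifferentiableAt ℝ f X) (hinv : SqMat.Invariant Ω f)
    {P Q : Matrix (Fin n) (Fin n) ℝ} (hP : P ∈ Matrix.orthogonalGroup (Fin n) ℝ)
    (hQ : Q ∈ Matrix.orthogonalGroup (Fin n) ℝ) {X : SqMat n}
    (hX : X ∈ Ω) (H : SqMat n) :
    fderiv ℝ f (SqMat.rotate P Q X) (SqMat.rotate P Q H) = fderiv ℝ f X H := by
  have h1 : HasFDerivAt (fun Y => f (rotL P Q Y))
      ((fderiv ℝ f (SqMat.rotate P Q X)).comp (rotL P Q)) X :=
    (hd _ (hinv P hP Q hQ X hX).1).hasFDerivAt.comp X (rotL P Q).hasFDerivAt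
  have h2 : HasFDerivAt f ((fderiv ℝ f (SqMat.rotate P Q X)).comp (rotL P Q)) X := by
    refine h1.congr_of_eventuallyEq ?_
    filter_upwards [hΩ.mem_nhds hX] with Y hY
    exact (hinv P hP Q hQ Y hY).2.symm
  rw [h2.fderiv]
  rfl

theorem rot_Pm_diagonal (σ : Equiv.Perm (Fin n)) (x : Fin n → ℝ) :
    SqMat.rotate (Pm σ) (Pm σ)ᵀ (SqMat.diagonal x) = SqMat.diagonal (x ∘ σ) := by
  apply N_inj
  ext i j
  rw [N_rotate, N_diagonal, N_diagonal, Pm_conj, Matrix.diagonal_apply, Matrix.diagonal_apply]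
  simp

theorem rot_Pm_Eu (σ : Equiv.Perm (Fin n)) (a b : Fin n) :
    SqMat.rotate (Pm σ) (Pm σ)ᵀ (Eu (σ a) (σ b)) = Eu a b := by
  apply N_inj
  ext i j
  rw [N_rotate, N_Eu, N_Eu, Pm_conj]
  simp [Matrix.single_apply]

theorem rot_Sg_diagonal (a : Fin n) (x : Fin n → ℝ) :
    SqMat.rotate (Sg a) (Sg a) (SqMat.diagonal x) = SqMat.diagonal x := by
  apply N_inj
  rw [N_rotate, N_diagonal, Sg, Matrix.diagonal_mul_diagonal,
    Matrix.diagonal_mul_diagonal]
  congr 1
  funext i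
  by_cases h : i = a <;> simp [h]

theorem rot_Sg_Eu {a b : Fin n} (hab : a ≠ b) :
    SqMat.rotate (Sg a) (Sg a) (Eu a b) = - Eu a b := by
  apply N_inj
  ext i j
  rw [N_rotate, N_neg, N_Eu, Sg, Matrix.mul_diagonal,
    Matrix.diagonal_mul, Matrix.neg_apply]
  by_cases h1 : a = i ∧ b = j
  · obtain ⟨rfl, rfl⟩ := h1
    simp [hab, hab.symm]
  simp [h1]

/-- expansion in terms of the matrix units -/
theorem expandU (H : SqMat n) : H = ∑ i, ∑ j, H i j • Eu i j := by
  have hN : ∀ (s : Finset (Fin n)) (g : Fin n → SqMat n),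
      N (∑ i ∈ s, g i) = ∑ i ∈ s, N (g i) := by
    intro s g
    classical
    induction s using Finset.induction_on with
    | empty => simp [N_zero]
    | insert a s ha ih => rw [Finset.sum_insert ha, Finset.sum_insert ha, N_add, ih]
  apply N_inj
  rw [hN]
  ext p q
  have h1 : ∀ i, N (∑ j, H i j • Eu i j) = ∑ j, H i j • N (Eu i j) := by
    intro i
    rw [hN]
    rfl
  simp only [h1, Matrix.sum_apply, Matrix.smul_apply, N_Eu, Matrix.single_apply, smul_eq_mul]
  rw [Finset.sum_eq_single p, Finset.sum_eq_single q]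
  · simp; rfl
  all_goals simp +contextual

/-- **Singular value decomposition of an invertible matrix.** -/
theorem exists_svd {X : SqMat n} (hX : (N X).det ≠ 0) :
    ∃ P ∈ Matrix.orthogonalGroup (Fin n) ℝ, ∃ Q ∈ Matrix.orthogonalGroup (Fin n) ℝ,
      ∃ x : Fin n → ℝ, (∀ i, 0 < x i) ∧ X = SqMat.rotate P Q (SqMat.diagonal x) := by
  obtain ⟨Q, hQ, y, hy⟩ := exists_diag (mk ((N X)ᵀ * N X) (by
    rw [transpose_mul, transpose_transpose]))
  have h1 : (N X)ᵀ * N X = Q * Matrix.diagonal y * Qᵀ := by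
    have := congrArg M hy
    rwa [M_mk, M_conj, M_dg] at this
  have h2 : (N X * Q)ᵀ * (N X * Q) = Matrix.diagonal y := by
    calc (N X * Q)ᵀ * (N X * Q) = Qᵀ * ((N X)ᵀ * N X) * Q := by
          rw [transpose_mul]; simp only [Matrix.mul_assoc]
      _ = (Qᵀ * Q) * Matrix.diagonal y * (Qᵀ * Q) := by rw [h1]; simp only [Matrix.mul_assoc]
      _ = _ := by rw [orth_iff.1 hQ]; simp
  have hypos : ∀ i, 0 < y i := by
    intro i
    have h3 : y i = ∑ j, (N X * Q) j i * (N X * Q) j i := by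
      have := congrFun (congrFun h2 i) i
      rw [Matrix.diagonal_apply_eq, Matrix.mul_apply] at this
      rw [← this]
      rfl
    rw [h3]
    have h4 : ∃ j, (N X * Q) j i ≠ 0 := by
      by_contra hcon
      push Not at hcon
      have h5 : (N X * Q).det = 0 := Matrix.det_eq_zero_of_column_eq_zero i hcon
      rw [Matrix.det_mul] at h5
      rcases mul_eq_zero.1 h5 with h6 | h6
      · exact hX h6
      · have h7 := congrArg Matrix.det (orth_iff.1 hQ)
        rw [Matrix.det_mul, h6, mul_zero, Matrix.det_one] at h7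
        exact zero_ne_one h7
    obtain ⟨j, hj⟩ := h4
    exact Finset.sum_pos' (fun j _ => mul_self_nonneg _) ⟨j, Finset.mem_univ _, mul_self_pos.2 hj⟩
  let x : Fin n → ℝ := fun i => Real.sqrt (y i)
  have hx : ∀ i, 0 < x i := fun i => Real.sqrt_pos.2 (hypos i)
  have hxx : ∀ i, x i * x i = y i := fun i => Real.mul_self_sqrt (hypos i).le
  let P : Matrix (Fin n) (Fin n) ℝ := N X * Q * Matrix.diagonal fun i => (x i)⁻¹
  have hP : P ∈ Matrix.orthogonalGroup (Fin n) ℝ := by
    rw [orth_iff]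
    calc Pᵀ * P = Matrix.diagonal (fun i => (x i)⁻¹) * ((N X * Q)ᵀ * (N X * Q)) *
          Matrix.diagonal fun i => (x i)⁻¹ := by
          simp only [P]
          rw [transpose_mul, Matrix.diagonal_transpose]
          simp only [Matrix.mul_assoc]
      _ = 1 := by
        rw [h2, Matrix.diagonal_mul_diagonal, Matrix.diagonal_mul_diagonal, ← Matrix.diagonal_one]
        congr 1
        funext i
        have := (hx i).ne'
        rw [← hxx]
        field_simp
  refine ⟨P, hP, Qᵀ, orth_transpose hQ, x, hx, N_inj ?_⟩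
  rw [N_rotate, N_diagonal]
  calc N X = N X * (Q * Qᵀ) := by rw [orth_iff'.1 hQ, Matrix.mul_one]
    _ = N X * Q * (Matrix.diagonal (fun i => (x i)⁻¹) * Matrix.diagonal x) * Qᵀ := by
        rw [Matrix.diagonal_mul_diagonal]
        have : (Matrix.diagonal fun i => (x i)⁻¹ * x i) = (1 : Matrix (Fin n) (Fin n) ℝ) := by
          rw [← Matrix.diagonal_one]
          congr 1
          funext i
          exact inv_mul_cancel₀ (hx i).ne'
        rw [this, Matrix.mul_one, Matrix.mul_assoc]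
    _ = P * Matrix.diagonal x * Qᵀ := by simp only [P, Matrix.mul_assoc]

/-- invertible matrices are dense -/
theorem exists_invertible {U : Set (SqMat n)} (hU : IsOpen U) {X : SqMat n} (hX : X ∈ U) :
    ∃ Y ∈ U, (N Y).det ≠ 0 := by
  have hp : (-(N X)).charpoly ≠ 0 := (Matrix.charpoly_monic _).ne_zero
  have hd : Dense ((((-(N X)).charpoly.roots.toFinset : Finset ℝ) : Set ℝ)ᶜ) :=
    Set.Countable.dense_compl ℝ (Finset.countable_toSet _)
  have hc : Continuous fun t : ℝ => X + t • SqMat.diagonal (fun _ : Fin n => (1 : ℝ)) := by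
    fun_prop
  have hopen : IsOpen ((fun t : ℝ => X + t • SqMat.diagonal (fun _ : Fin n => (1 : ℝ))) ⁻¹' U) :=
    hU.preimage hc
  obtain ⟨t, ht1, ht2⟩ := hd.inter_open_nonempty _ hopen ⟨0, by simpa using hX⟩
  refine ⟨_, ht1, fun h => ht2 ?_⟩
  have h1 : N (X + t • SqMat.diagonal (fun _ : Fin n => (1 : ℝ))) =
      Matrix.scalar (Fin n) t - (-(N X)) := by
    rw [N_add, N_smul, N_diagonal, sub_neg_eq_add, add_comm]
    congr 1
    rw [← Matrix.diagonal_smul]
    ext i j
    simp [Matrix.scalar_apply, Matrix.one_apply, Matrix.diagonal_apply]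
  rw [h1, ← Matrix.eval_charpoly] at h
  simp only [Finset.mem_coe, Multiset.mem_toFinset, Polynomial.mem_roots hp]
  exact h

end Pool.Agent.Q225.Smo
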